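import Pool.Agent.H13V.StmV

/-!
# TWH: primes minus the sieve model, twisted by `e(bn/q) n^{-iτ}`, large heights
-/

set_option autoImplicit false

namespace Pool.Agent.H13V.TWH

open Finset
open Pool.Agent.Q236.CR (nt)
open Pool.Agent.H469R2.NK (e e_add e_nat norm_e)
open Pool.Agent.H373R2.T7 (lamz ev_log' ev_L')
open Pool.Agent.H13V

/-! ### Abel summation -/

lemma abel_id (w : ℕ → ℝ) (f : ℕ → ℂ) (y : ℕ) :
    ∑ n ∈ Icc 1 (y + 1), (w n : ℂ) * f n =
      (w (y + 1) : ℂ) * ∑ n ∈ Icc 1 (y + 1), f n +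
        ∑ m ∈ Icc 1 y, ((w m - w (m + 1) : ℝ) : ℂ) * ∑ n ∈ Icc 1 m, f n := by
  induction y with
  | zero => simp
  | succ y ih =>
    rw [Finset.sum_Icc_succ_top (by omega : 1 ≤ y + 1 + 1), ih,
      Finset.sum_Icc_succ_top (by omega : 1 ≤ y + 1 + 1),
      Finset.sum_Icc_succ_top (a := 1) (b := y) (by omega : 1 ≤ y + 1)
        (fun m => ((w m - w (m + 1) : ℝ) : ℂ) * ∑ n ∈ Icc 1 m, f n)]
    push_cast
    ring

lemma tele (w : ℕ → ℝ) (y : ℕ) : ∑ m ∈ Icc 1 y, (w m - w (m + 1)) = w 1 - w (y + 1) := by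
  induction y with
  | zero => simp
  | succ y ih => rw [Finset.sum_Icc_succ_top (by omega : 1 ≤ y + 1), ih]; ring

lemma abel (w : ℕ → ℝ) (hw : Antitone w) (h0 : ∀ n, 0 ≤ w n) (f : ℕ → ℂ) (X : ℕ) (B : ℝ)
    (hB : ∀ m ≤ X, ‖∑ n ∈ Icc 1 m, f n‖ ≤ B) :
    ∀ y ≤ X, ‖∑ n ∈ Icc 1 y, (w n : ℂ) * f n‖ ≤ w 1 * B := by
  have hB0 : 0 ≤ B := (norm_nonneg _).trans (hB 0 (Nat.zero_le _))
  intro y hy
  cases y with
  | zero => simpa using mul_nonneg (h0 1) hB0
  | succ y =>
    rw [abel_id]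
    calc ‖(w (y + 1) : ℂ) * ∑ n ∈ Icc 1 (y + 1), f n +
          ∑ m ∈ Icc 1 y, ((w m - w (m + 1) : ℝ) : ℂ) * ∑ n ∈ Icc 1 m, f n‖
        ≤ w (y + 1) * B + ∑ m ∈ Icc 1 y, (w m - w (m + 1)) * B := by
          refine (norm_add_le _ _).trans (add_le_add ?_ ?_)
          · rw [norm_mul, Complex.norm_real, Real.norm_of_nonneg (h0 _)]
            exact mul_le_mul_of_nonneg_left (hB _ hy) (h0 _)
          · refine (norm_sum_le _ _).trans (Finset.sum_le_sum fun m hm => ?_)
            rw [Finset.mem_Icc] at hm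
            have h1 : 0 ≤ w m - w (m + 1) := sub_nonneg.2 (hw (Nat.le_succ m))
            rw [norm_mul, Complex.norm_real, Real.norm_of_nonneg h1]
            exact mul_le_mul_of_nonneg_left (hB _ (by omega)) h1
      _ = w 1 * B := by
          rw [← Finset.sum_mul, tele]
          ring

/-- the weight `1 / log n` -/
noncomputable def wl (n : ℕ) : ℝ := 1 / Real.log (max n 2 : ℕ)

lemma wl_pos (n : ℕ) : 0 < Real.log (max n 2 : ℕ) := by
  apply Real.log_pos
  have : 2 ≤ max n 2 := le_max_right _ _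
  exact_mod_cast this

lemma wl_nonneg (n : ℕ) : 0 ≤ wl n := by
  unfold wl
  have := wl_pos n
  positivity

lemma wl_anti : Antitone wl := by
  intro m n hmn
  unfold wl
  apply one_div_le_one_div_of_le (wl_pos m)
  apply Real.log_le_log
  · have : 0 < max m 2 := lt_of_lt_of_le (by norm_num) (le_max_right _ _)
    exact_mod_cast this
  · have : max m 2 ≤ max n 2 := max_le_max hmn le_rfl
    exact_mod_cast this

lemma wl_one : wl 1 ≤ 2 := by
  unfold wl
  have h1 : max 1 2 = 2 := rfl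
  rw [h1]
  have h2 := Real.log_two_gt_d9
  rw [div_le_iff₀ (by push_cast; linarith)]
  push_cast
  linarith

lemma wl_eq {n : ℕ} (hn : 2 ≤ n) : wl n = 1 / Real.log n := by
  unfold wl
  rw [max_eq_left hn]

/-! ### additive characters and Dirichlet characters -/

lemma e_mod (b q n : ℕ) (hq : 1 ≤ q) : e ((b : ℝ) * (n % q : ℕ) / q) = e ((b : ℝ) * n / q) := by
  have hq0 : (q : ℝ) ≠ 0 := by
    have : (0 : ℝ) < q := by exact_mod_cast hq
    exact this.ne'
  have h1 : (n : ℝ) = (n % q : ℕ) + (q : ℝ) * (n / q : ℕ) := by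
    exact_mod_cast (Nat.mod_add_div n q).symm
  have h2 : (b : ℝ) * n / q = (b : ℝ) * (n % q : ℕ) / q + ((b * (n / q) : ℕ) : ℝ) := by
    conv_lhs => rw [h1]
    push_cast
    field_simp
  rw [h2, e_add, e_nat, mul_one]

/-- the coefficients of the expansion in characters -/
noncomputable def cf (q b : ℕ) [NeZero q] (χ : DirichletCharacter ℂ q) : ℂ :=
  (1 / (Nat.totient q : ℂ)) * ∑ a : (ZMod q)ˣ, e ((b : ℝ) * ((a : ZMod q).val : ℕ) / q) *
    χ (a : ZMod q)⁻¹

lemma cf_le (q b : ℕ) [NeZero q] (χ : DirichletCharacter ℂ q) : ‖cf q b χ‖ ≤ 1 := by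
  have hφ : (0 : ℝ) < (Nat.totient q : ℝ) := by
    exact_mod_cast Nat.totient_pos.2 (Nat.pos_of_ne_zero (NeZero.ne q))
  unfold cf
  rw [norm_mul, norm_div, norm_one, Complex.norm_natCast, one_div, inv_mul_le_iff₀ hφ, mul_one]
  refine (norm_sum_le _ _).trans ?_
  calc ∑ a : (ZMod q)ˣ, ‖e ((b : ℝ) * ((a : ZMod q).val : ℕ) / q) * χ (a : ZMod q)⁻¹‖
      ≤ ∑ _a : (ZMod q)ˣ, (1 : ℝ) := by
        apply Finset.sum_le_sum
        intro a _
        rw [norm_mul, norm_e, one_mul]
        exact DirichletCharacter.norm_le_one χ _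
    _ = (Nat.totient q : ℝ) := by
        rw [Finset.sum_const, nsmul_eq_mul, mul_one, Finset.card_univ, ZMod.card_units_eq_totient]

lemma cf_sum (q b : ℕ) [NeZero q] (n : ℕ) (hn : n.Coprime q) :
    ∑ χ : DirichletCharacter ℂ q, cf q b χ * χ (n : ZMod q) = e ((b : ℝ) * n / q) := by
  have hq : 1 ≤ q := Nat.pos_of_ne_zero (NeZero.ne q)
  have hφ : (Nat.totient q : ℂ) ≠ 0 := by
    have := Nat.totient_pos.2 hq
    exact_mod_cast this.ne'
  set u : (ZMod q)ˣ := ZMod.unitOfCoprime n hn with hu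
  have hun : (u : ZMod q) = n := ZMod.coe_unitOfCoprime n hn
  unfold cf
  have h1 : ∀ χ : DirichletCharacter ℂ q, (1 / (Nat.totient q : ℂ)) *
      (∑ a : (ZMod q)ˣ, e ((b : ℝ) * ((a : ZMod q).val : ℕ) / q) * χ (a : ZMod q)⁻¹) *
        χ (n : ZMod q) = (1 / (Nat.totient q : ℂ)) *
      ∑ a : (ZMod q)ˣ, e ((b : ℝ) * ((a : ZMod q).val : ℕ) / q) *
        (χ (a : ZMod q)⁻¹ * χ (n : ZMod q)) := by
    intro χ
    rw [mul_assoc, Finset.sum_mul]
    congr 1
    apply Finset.sum_congr rfl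
    intro a _
    ring
  rw [Finset.sum_congr rfl (fun χ _ => h1 χ), ← Finset.mul_sum, Finset.sum_comm]
  have h2 : ∀ a : (ZMod q)ˣ, ∑ χ : DirichletCharacter ℂ q,
      e ((b : ℝ) * ((a : ZMod q).val : ℕ) / q) * (χ (a : ZMod q)⁻¹ * χ (n : ZMod q)) =
      if a = u then e ((b : ℝ) * ((a : ZMod q).val : ℕ) / q) * (Nat.totient q : ℂ) else 0 := by
    intro a
    rw [← Finset.mul_sum, DirichletCharacter.sum_char_inv_mul_char_eq (R := ℂ) a.isUnit]
    by_cases h : a = u
    · rw [if_pos h, if_pos (by rw [h, hun])]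
    · rw [if_neg h, if_neg, mul_zero]
      intro h3
      apply h
      ext
      rw [h3, hun]
  rw [Finset.sum_congr rfl (fun a _ => h2 a), Finset.sum_ite_eq' Finset.univ u, if_pos (Finset.mem_univ _),
    hun, ZMod.val_natCast, e_mod b q n hq]
  field_simp

lemma char_zero (q : ℕ) [NeZero q] (χ : DirichletCharacter ℂ q) (n : ℕ) (hn : ¬ n.Coprime q) :
    χ (n : ZMod q) = 0 := by
  apply MulChar.map_nonunit
  rw [ZMod.isUnit_iff_coprime]
  exact hn

lemma card_char (q : ℕ) [NeZero q] : (Fintype.card (DirichletCharacter ℂ q) : ℝ) ≤ q := by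
  have h1 := DirichletCharacter.card_eq_totient_of_hasEnoughRootsOfUnity ℂ q
  rw [Nat.card_eq_fintype_card] at h1
  rw [h1]
  exact_mod_cast Nat.totient_le q

/-! ### prime powers -/

lemma norm_nt (τ : ℝ) (n : ℕ) : ‖nt τ n‖ ≤ 1 := by
  unfold nt
  rcases Nat.eq_zero_or_pos n with h | h
  · subst h
    by_cases hτ : τ = 0
    · simp [hτ]
    · rw [Nat.cast_zero, Complex.zero_cpow]
      · simp
      · simp [hτ]
  · rw [Complex.norm_natCast_cpow_of_pos h]
    simp

/-- the weight `log n` at the primes -/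
noncomputable def th (n : ℕ) : ℝ := if n.Prime then Real.log n else 0

lemma th_nonneg (n : ℕ) : 0 ≤ th n := by
  unfold th
  split_ifs
  · exact Real.log_natCast_nonneg n
  · exact le_rfl

lemma lam_th (n : ℕ) : ArithmeticFunction.vonMangoldt n = th n + if n.Prime then 0 else ArithmeticFunction.vonMangoldt n := by
  unfold th
  split_ifs with h
  · rw [ArithmeticFunction.vonMangoldt_apply_prime h, add_zero]
  · rw [zero_add]

lemma pp_le (X : ℕ) (hX : 1 ≤ X) (m : ℕ) (hm : m ≤ X) :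
    ∑ n ∈ Icc 1 m, (if n.Prime then 0 else ArithmeticFunction.vonMangoldt n : ℝ) ≤
      2 * √X * Real.log X := by
  have h1 := Chebyshev.psi_sub_theta_eq_sum_not_prime (X : ℝ)
  rw [Nat.floor_natCast] at h1
  have h2 := Chebyshev.psi_sub_theta_le (x := (X : ℝ)) (by exact_mod_cast hX)
  refine le_trans ?_ h2
  rw [h1, Finset.sum_filter]
  have h3 : ∀ n, (if n.Prime then 0 else ArithmeticFunction.vonMangoldt n : ℝ) =
      if ¬ n.Prime then ArithmeticFunction.vonMangoldt n else 0 := by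
    intro n
    split_ifs <;> rfl
  rw [Finset.sum_congr rfl (fun n _ => h3 n)]
  apply Finset.sum_le_sum_of_subset_of_nonneg
  · intro n hn
    rw [Finset.mem_Icc] at hn
    rw [Finset.mem_Ioc]
    omega
  · intro n _ _
    by_cases hn : n.Prime
    · simp [hn]
    · simp only [hn, not_false_eq_true, if_true]
      exact ArithmeticFunction.vonMangoldt_nonneg

/-- from `Λ` to primes -/
lemma prime_part (X : ℕ) (hX : 1 ≤ X) (g : ℕ → ℂ) (hg : ∀ n, ‖g n‖ ≤ 1) (m : ℕ) (hm : m ≤ X) (B : ℝ)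
    (hB : ‖∑ n ∈ Icc 1 m, (ArithmeticFunction.vonMangoldt n : ℂ) * g n‖ ≤ B) :
    ‖∑ n ∈ Icc 1 m, (th n : ℂ) * g n‖ ≤ B + 2 * √X * Real.log X := by
  have h1 : ∑ n ∈ Icc 1 m, (th n : ℂ) * g n = ∑ n ∈ Icc 1 m, (ArithmeticFunction.vonMangoldt n : ℂ) * g n -
      ∑ n ∈ Icc 1 m, ((if n.Prime then 0 else ArithmeticFunction.vonMangoldt n : ℝ) : ℂ) * g n := by
    rw [← Finset.sum_sub_distrib]
    apply Finset.sum_congr rfl
    intro n _
    rw [← sub_mul]
    congr 1
    have := lam_th n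
    rw [this]
    push_cast
    by_cases h : n.Prime
    · simp [h]
    · simp [h, th]
  rw [h1]
  refine (norm_sub_le _ _).trans (add_le_add hB ?_)
  refine (norm_sum_le _ _).trans (le_trans ?_ (pp_le X hX m hm))
  apply Finset.sum_le_sum
  intro n _
  have h0 : (0 : ℝ) ≤ if n.Prime then 0 else ArithmeticFunction.vonMangoldt n := by
    split_ifs
    · exact le_rfl
    · exact ArithmeticFunction.vonMangoldt_nonneg
  rw [norm_mul, Complex.norm_real, Real.norm_of_nonneg h0]
  calc _ ≤ (if n.Prime then 0 else ArithmeticFunction.vonMangoldt n : ℝ) * 1 :=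
        mul_le_mul_of_nonneg_left (hg n) h0
    _ = _ := mul_one _

/-- the sum over primes with an additive twist -/
lemma prime_add (X q b : ℕ) [NeZero q] (hX : 1 ≤ X) (τ : ℝ) (B : ℝ)
    (hB : ∀ χ : DirichletCharacter ℂ q, ∀ m ≤ X,
      ‖∑ n ∈ Icc 1 m, χ (n : ZMod q) * (ArithmeticFunction.vonMangoldt n : ℂ) * nt τ n‖ ≤ B) :
    ∀ m ≤ X, ‖∑ n ∈ Icc 1 m, (th n : ℂ) * (e ((b : ℝ) * n / q) * nt τ n)‖ ≤
      (q : ℝ) * q + q * (B + 2 * √X * Real.log X) := by
  classical
  intro m hm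
  have hq : 1 ≤ q := Nat.pos_of_ne_zero (NeZero.ne q)
  have hqR : (1 : ℝ) ≤ q := by exact_mod_cast hq
  have hB0 : 0 ≤ B := (norm_nonneg _).trans (hB 1 0 (Nat.zero_le _))
  have h1 : ∀ n, (th n : ℂ) * (e ((b : ℝ) * n / q) * nt τ n) =
      (if n ∣ q then (th n : ℂ) * (e ((b : ℝ) * n / q) * nt τ n) else 0) +
      ∑ χ : DirichletCharacter ℂ q, cf q b χ * ((th n : ℂ) * (χ (n : ZMod q) * nt τ n)) := by
    intro n
    have h2 : ∑ χ : DirichletCharacter ℂ q, cf q b χ * ((th n : ℂ) * (χ (n : ZMod q) * nt τ n)) =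
        (th n : ℂ) * ((∑ χ : DirichletCharacter ℂ q, cf q b χ * χ (n : ZMod q)) * nt τ n) := by
      rw [Finset.sum_mul, Finset.mul_sum]
      apply Finset.sum_congr rfl
      intro χ _
      ring
    rw [h2]
    by_cases hp : n.Prime
    · by_cases hd : n ∣ q
      · have h3 : ¬ n.Coprime q := by
          intro h
          have h4 := Nat.dvd_gcd (dvd_refl n) hd
          rw [h] at h4
          exact hp.one_lt.ne' (Nat.dvd_one.1 h4)
        have h4 : ∑ χ : DirichletCharacter ℂ q, cf q b χ * χ (n : ZMod q) = 0 := by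
          apply Finset.sum_eq_zero
          intro χ _
          rw [char_zero q χ n h3, mul_zero]
        rw [if_pos hd, h4]
        ring
      · have h3 : n.Coprime q := (Nat.Prime.coprime_iff_not_dvd hp).2 hd
        rw [if_neg hd, cf_sum q b n h3, zero_add]
    · have h3 : th n = 0 := by unfold th; rw [if_neg hp]
      rw [h3]
      simp
  rw [Finset.sum_congr rfl (fun n _ => h1 n), Finset.sum_add_distrib, Finset.sum_comm]
  refine (norm_add_le _ _).trans (add_le_add ?_ ?_)
  · refine (norm_sum_le _ _).trans ?_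
    rw [← Finset.sum_filter_add_sum_filter_not (Icc 1 m) (fun n => n ∣ q)]
    have h2 : ∑ n ∈ (Icc 1 m).filter (fun n => ¬ n ∣ q),
        ‖(if n ∣ q then (th n : ℂ) * (e ((b : ℝ) * n / q) * nt τ n) else 0)‖ = 0 := by
      apply Finset.sum_eq_zero
      intro n hn
      rw [if_neg (Finset.mem_filter.1 hn).2, norm_zero]
    rw [h2, add_zero]
    calc ∑ n ∈ (Icc 1 m).filter (fun n => n ∣ q),
          ‖(if n ∣ q then (th n : ℂ) * (e ((b : ℝ) * n / q) * nt τ n) else 0)‖
        ≤ ∑ n ∈ (Icc 1 m).filter (fun n => n ∣ q), (q : ℝ) := by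
          apply Finset.sum_le_sum
          intro n hn
          rw [Finset.mem_filter, Finset.mem_Icc] at hn
          have hnq : n ≤ q := Nat.le_of_dvd hq hn.2
          have hn0 : (0 : ℝ) < n := by exact_mod_cast hn.1.1
          have hnq' : (n : ℝ) ≤ q := by exact_mod_cast hnq
          rw [if_pos hn.2, norm_mul, norm_mul, norm_e, one_mul, Complex.norm_real,
            Real.norm_of_nonneg (th_nonneg n)]
          have h3 : th n ≤ q := by
            unfold th
            split_ifs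
            · exact (Real.log_le_self hn0.le).trans hnq'
            · linarith
          calc th n * ‖nt τ n‖ ≤ th n * 1 := mul_le_mul_of_nonneg_left (norm_nt τ n) (th_nonneg n)
            _ ≤ q := by rw [mul_one]; exact h3
      _ ≤ (q : ℝ) * q := by
          rw [Finset.sum_const, nsmul_eq_mul]
          apply mul_le_mul_of_nonneg_right _ (by linarith)
          have h4 : (Icc 1 m).filter (fun n => n ∣ q) ⊆ Icc 1 q := by
            intro n hn
            rw [Finset.mem_filter, Finset.mem_Icc] at hn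
            rw [Finset.mem_Icc]
            exact ⟨hn.1.1, Nat.le_of_dvd hq hn.2⟩
          have h5 := Finset.card_le_card h4
          rw [Nat.card_Icc, Nat.add_sub_cancel] at h5
          exact_mod_cast h5
  · refine (norm_sum_le _ _).trans ?_
    calc ∑ χ : DirichletCharacter ℂ q, ‖∑ n ∈ Icc 1 m, cf q b χ * ((th n : ℂ) * (χ (n : ZMod q) * nt τ n))‖
        ≤ ∑ _χ : DirichletCharacter ℂ q, (B + 2 * √X * Real.log X) := by
          apply Finset.sum_le_sum
          intro χ _
          rw [← Finset.mul_sum, norm_mul]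
          have h3 := prime_part X hX (fun n => χ (n : ZMod q) * nt τ n) (by
            intro n
            rw [norm_mul]
            calc ‖χ (n : ZMod q)‖ * ‖nt τ n‖ ≤ 1 * 1 :=
                  mul_le_mul (DirichletCharacter.norm_le_one χ _) (norm_nt τ n) (norm_nonneg _) zero_le_one
              _ = 1 := one_mul 1) m hm B (by
            have h4 := hB χ m hm
            refine le_trans (le_of_eq ?_) h4
            congr 1
            apply Finset.sum_congr rfl
            intro n _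
            ring)
          calc ‖cf q b χ‖ * ‖∑ n ∈ Icc 1 m, (th n : ℂ) * (χ (n : ZMod q) * nt τ n)‖
              ≤ 1 * (B + 2 * √X * Real.log X) :=
                mul_le_mul (cf_le q b χ) h3 (norm_nonneg _) zero_le_one
            _ = _ := one_mul _
      _ ≤ q * (B + 2 * √X * Real.log X) := by
          rw [Finset.sum_const, nsmul_eq_mul, Finset.card_univ]
          apply mul_le_mul_of_nonneg_right (card_char q)
          have := Real.log_natCast_nonneg X
          positivity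

/-- the decomposition with the weight `1 / log n` -/
lemma fz_eq (z n : ℕ) (x : ℂ) :
    (fz z n : ℂ) * x = (wl n : ℂ) * ((th n : ℂ) * x - if 2 ≤ n then (lamz z n : ℂ) * x else 0) := by
  unfold fz th
  by_cases hn : 2 ≤ n
  · have h1 : Real.log n ≠ 0 := by
      have : 0 < Real.log n := Real.log_pos (by exact_mod_cast hn)
      exact this.ne'
    rw [if_pos hn, if_pos hn, wl_eq hn]
    by_cases hp : n.Prime
    · rw [if_pos hp, if_pos hp]
      push_cast
      have h2 : (Complex.log n) ≠ 0 := by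
        rw [← Complex.natCast_log]
        exact_mod_cast h1
      field_simp
    · rw [if_neg hp, if_neg hp]
      push_cast
      ring
  · have hp : ¬ n.Prime := fun h => hn h.two_le
    rw [if_neg hn, if_neg hn, if_neg hp, if_neg hp]
    simp

theorem t : S_LAM → S_RGH → S_TWH := by
  intro hLAM hRGH E V
  obtain ⟨c1, x1, h1⟩ := hLAM 1 E (E + V + 3)
  obtain ⟨c2, x2, h2⟩ := hRGH E (V + 3)
  obtain ⟨x3, h3⟩ := ev_log' (E + V + 4) 2
  obtain ⟨x4, h4⟩ := ev_log' (2 * E + V + 3) 1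
  obtain ⟨x5, h5⟩ := ev_L' 3
  refine ⟨max c1 c2, max 1 (max (max x1 x2) (max x3 (max x4 x5))), ?_⟩
  intro X hX z q b hq hqz hz τ hτ hτX y hy
  have hX0 : 1 ≤ X := (le_max_left _ _).trans hX
  have hX' : max (max x1 x2) (max x3 (max x4 x5)) ≤ X := (le_max_right _ _).trans hX
  have hx1 : x1 ≤ X := ((le_max_left _ _).trans (le_max_left _ _)).trans hX'
  have hx2 : x2 ≤ X := ((le_max_right _ _).trans (le_max_left _ _)).trans hX'
  have hx3 : x3 ≤ X := ((le_max_left _ _).trans (le_max_right _ _)).trans hX'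
  have hx4 : x4 ≤ X := (((le_max_left _ _).trans (le_max_right _ _)).trans (le_max_right _ _)).trans hX'
  have hx5 : x5 ≤ X := (((le_max_right _ _).trans (le_max_right _ _)).trans (le_max_right _ _)).trans hX'
  set L := Real.log X with hL
  have hL3 : 3 ≤ L := h5 X hx5
  have hL0 : 0 < L := by linarith
  have hL1 : 1 ≤ L := by linarith
  have hXR : (1 : ℝ) ≤ X := by exact_mod_cast hX0
  have hX00 : (0 : ℝ) < X := by linarith
  have hsq : √(X : ℝ) * √(X : ℝ) = X := Real.mul_self_sqrt hX00.le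
  have hs0 : 0 ≤ √(X : ℝ) := Real.sqrt_nonneg _
  have hs1 : √(X : ℝ) ≤ X := by
    rw [Real.sqrt_le_left (by linarith)]
    nlinarith
  have hτ1 : L ^ c1 ≤ |τ| := (pow_le_pow_right₀ hL1 (le_max_left _ _)).trans hτ
  have hτ2 : L ^ c2 ≤ |τ| := (pow_le_pow_right₀ hL1 (le_max_right _ _)).trans hτ
  have hqR : (1 : ℝ) ≤ q := by exact_mod_cast hq
  have hqE : (q : ℝ) ≤ L ^ E := le_trans (by exact_mod_cast hqz) hz
  have hne : NeZero q := ⟨by omega⟩
  have hP := prime_add X q b hX0 τ (X / L ^ (E + V + 3)) (fun χ m hm =>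
    h1 X hx1 q hne χ τ m hqE hτ1 (by rw [pow_one]; exact hτX) hm)
  have hR := h2 X hx2 z hz ((b : ℝ) / q) τ hτ2 hτX
  set B2 : ℝ := X / L ^ (V + 3) with hB2
  have hB20 : 0 ≤ B2 := by positivity
  -- the bound for the primes
  have hP2 : (q : ℝ) * q + q * (X / L ^ (E + V + 3) + 2 * √X * L) ≤ 3 * B2 := by
    have e1 : (q : ℝ) * q ≤ B2 := by
      rw [hB2, le_div_iff₀ (by positivity)]
      calc (q : ℝ) * q * L ^ (V + 3) ≤ L ^ E * L ^ E * L ^ (V + 3) := by gcongr
        _ = 1 * L ^ (2 * E + V + 3) := by ring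
        _ ≤ √X := h4 X hx4
        _ ≤ X := hs1
    have e2 : (q : ℝ) * (X / L ^ (E + V + 3)) ≤ B2 := by
      calc (q : ℝ) * (X / L ^ (E + V + 3)) ≤ L ^ E * (X / L ^ (E + V + 3)) := by gcongr
        _ = B2 := by
            rw [hB2]
            have : L ^ (E + V + 3) = L ^ E * L ^ (V + 3) := by ring
            rw [this]
            field_simp
    have e3 : (q : ℝ) * (2 * √X * L) ≤ B2 := by
      rw [hB2, le_div_iff₀ (by positivity)]
      calc (q : ℝ) * (2 * √X * L) * L ^ (V + 3) ≤ L ^ E * (2 * √X * L) * L ^ (V + 3) := by gcongr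
        _ = (2 * L ^ (E + V + 4)) * √X := by ring
        _ ≤ √X * √X := mul_le_mul_of_nonneg_right (h3 X hx3) hs0
        _ = X := hsq
    linarith
  -- the rough part without the term `n = 1`
  have hR2 : ∀ m ≤ X, ‖∑ n ∈ Icc 1 m, (if 2 ≤ n then
      (lamz z n : ℂ) * (e ((b : ℝ) * n / q) * nt τ n) else 0)‖ ≤ 2 * B2 := by
    intro m hm
    rcases Nat.eq_zero_or_pos m with hm0 | hm0
    · subst hm0
      simpa using hB20
    · have g1 : ∀ k ≤ X, ‖∑ n ∈ Icc 1 k, (lamz z n : ℂ) * (e ((b : ℝ) * n / q) * nt τ n)‖ ≤ B2 := by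
        intro k hk
        refine le_trans (le_of_eq ?_) (hR k hk)
        congr 1
        apply Finset.sum_congr rfl
        intro n _
        rw [div_mul_eq_mul_div, mul_assoc]
      have g2 : ∑ n ∈ Icc 1 m, (if 2 ≤ n then (lamz z n : ℂ) * (e ((b : ℝ) * n / q) * nt τ n) else 0) =
          ∑ n ∈ Icc 1 m, (lamz z n : ℂ) * (e ((b : ℝ) * n / q) * nt τ n) -
          ∑ n ∈ Icc 1 1, (lamz z n : ℂ) * (e ((b : ℝ) * n / q) * nt τ n) := by
        have g3 : Icc 1 1 ⊆ Icc 1 m := Finset.Icc_subset_Icc le_rfl hm0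
        rw [← Finset.sum_sdiff (f := fun n => (lamz z n : ℂ) * (e ((b : ℝ) * n / q) * nt τ n)) g3,
          add_sub_cancel_right]
        rw [← Finset.sum_sdiff g3]
        have g4 : ∑ n ∈ Icc 1 1, (if 2 ≤ n then (lamz z n : ℂ) * (e ((b : ℝ) * n / q) * nt τ n) else 0) = 0 := by
          rw [Finset.Icc_self, Finset.sum_singleton, if_neg (by norm_num)]
        rw [g4, add_zero]
        apply Finset.sum_congr rfl
        intro n hn
        rw [Finset.mem_sdiff, Finset.mem_Icc, Finset.mem_Icc] at hn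
        rw [if_pos (by omega)]
      rw [g2]
      refine (norm_sub_le _ _).trans ?_
      have := g1 m hm
      have := g1 1 hX0
      linarith
  have hmain : ∀ m ≤ X, ‖∑ n ∈ Icc 1 m, ((th n : ℂ) * (e ((b : ℝ) * n / q) * nt τ n) -
      if 2 ≤ n then (lamz z n : ℂ) * (e ((b : ℝ) * n / q) * nt τ n) else 0)‖ ≤ 5 * B2 := by
    intro m hm
    rw [Finset.sum_sub_distrib]
    refine (norm_sub_le _ _).trans ?_
    have := hP m hm
    have := hR2 m hm
    linarith
  have hfin := abel wl wl_anti wl_nonneg _ X (5 * B2) hmain y hy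
  have heq : ∑ n ∈ Icc 1 y, (fz z n : ℂ) * e ((b : ℝ) * n / q) * nt τ n =
      ∑ n ∈ Icc 1 y, (wl n : ℂ) * ((th n : ℂ) * (e ((b : ℝ) * n / q) * nt τ n) -
        if 2 ≤ n then (lamz z n : ℂ) * (e ((b : ℝ) * n / q) * nt τ n) else 0) := by
    apply Finset.sum_congr rfl
    intro n _
    rw [mul_assoc, fz_eq]
  rw [heq]
  refine hfin.trans ?_
  calc wl 1 * (5 * B2) ≤ 2 * (5 * B2) := mul_le_mul_of_nonneg_right wl_one (by positivity)
    _ = (10 / L ^ 3) * (X / L ^ V) := by
        rw [hB2]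
        have : L ^ (V + 3) = L ^ V * L ^ 3 := by ring
        rw [this]
        field_simp
        norm_num
    _ ≤ 1 * (X / L ^ V) := by
        apply mul_le_mul_of_nonneg_right _ (by positivity)
        rw [div_le_one (by positivity)]
        have : (3 : ℝ) ^ 3 ≤ L ^ 3 := pow_le_pow_left₀ (by norm_num) hL3 3
        linarith
    _ = X / L ^ V := one_mul _

end Pool.Agent.H13V.TWH
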