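import Pool.Agent.H13V.StmV

/-!
# Project BH, part V: Abel summation with the weight `n^{-iτ} / log n` (helper20)
-/

set_option autoImplicit false

namespace Pool.Agent.H13V.AbelW

open Finset
open Pool.Agent.Q236.CR (nt)
open Pool.Agent.H469R2.NK (e)

theorem nt_exp (τ : ℝ) (n : ℕ) (hn : 1 ≤ n) :
    nt τ n = Complex.exp (Complex.I * ((-(τ * Real.log n) : ℝ) : ℂ)) := by
  unfold nt
  have h0 : (n : ℂ) ≠ 0 := by
    have : n ≠ 0 := by omega
    exact_mod_cast this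
  rw [Complex.cpow_def_of_ne_zero h0]
  congr 1
  have h1 : Complex.log (n : ℂ) = ((Real.log n : ℝ) : ℂ) := by
    exact Complex.natCast_log.symm
  rw [h1]
  push_cast
  ring

theorem norm_nt (τ : ℝ) (n : ℕ) (hn : 1 ≤ n) : ‖nt τ n‖ = 1 := by
  rw [nt_exp τ n hn, Complex.norm_exp_I_mul_ofReal]

theorem nt_zero (n : ℕ) : nt 0 n = 1 := by
  unfold nt
  simp

theorem nt_diff (τ : ℝ) (n : ℕ) (hn : 1 ≤ n) : ‖nt τ n - nt τ (n + 1)‖ ≤ |τ| / n := by
  have hn0 : (0 : ℝ) < n := by exact_mod_cast hn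
  have e1 : nt τ n - nt τ (n + 1) = nt τ (n + 1) *
      (Complex.exp (Complex.I * ((τ * (Real.log ((n + 1 : ℕ) : ℝ) - Real.log n) : ℝ) : ℂ)) - 1) := by
    rw [mul_sub, mul_one, nt_exp τ n hn, nt_exp τ (n + 1) (by omega), ← Complex.exp_add]
    congr 2
    push_cast
    ring
  rw [e1, norm_mul, norm_nt τ (n + 1) (by omega), one_mul]
  refine Real.norm_exp_I_mul_ofReal_sub_one_le.trans ?_
  rw [Real.norm_eq_abs, abs_mul]
  have h1 : Real.log ((n + 1 : ℕ) : ℝ) - Real.log n ≤ 1 / n := by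
    rw [← Real.log_div (by positivity) hn0.ne']
    have h2 := Real.log_le_sub_one_of_pos (show (0 : ℝ) < ((n + 1 : ℕ) : ℝ) / n by positivity)
    refine h2.trans (le_of_eq ?_)
    push_cast
    field_simp
    ring
  have h0 : 0 ≤ Real.log ((n + 1 : ℕ) : ℝ) - Real.log n := by
    have := Real.log_le_log hn0 (show (n : ℝ) ≤ ((n + 1 : ℕ) : ℝ) by push_cast; linarith)
    linarith
  rw [abs_of_nonneg h0]
  calc |τ| * (Real.log ((n + 1 : ℕ) : ℝ) - Real.log n) ≤ |τ| * (1 / n) :=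
      mul_le_mul_of_nonneg_left h1 (abs_nonneg _)
    _ = _ := by ring

/-- the weight -/
noncomputable def w (τ : ℝ) (n : ℕ) : ℂ := nt τ (max n 2) / (Real.log ((max n 2 : ℕ) : ℝ) : ℂ)

theorem log_ge {n : ℕ} (hn : 2 ≤ n) : 1 / 2 < Real.log (n : ℝ) := by
  have h1 := Real.log_two_gt_d9
  have h2 := Real.log_le_log (by norm_num : (0 : ℝ) < 2) (show (2 : ℝ) ≤ n by exact_mod_cast hn)
  linarith

theorem norm_w (τ : ℝ) (n : ℕ) : ‖w τ n‖ ≤ 2 := by
  unfold w
  have h := log_ge (le_max_right n 2)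
  rw [norm_div, norm_nt _ _ (by have := le_max_right n 2; omega), Complex.norm_real, Real.norm_eq_abs,
    abs_of_pos (by linarith), div_le_iff₀ (by linarith)]
  linarith

theorem w_diff (τ : ℝ) (n : ℕ) (hn : 1 ≤ n) : ‖w τ n - w τ (n + 1)‖ ≤
    2 * |τ| * (1 / n) + (1 / Real.log ((max n 2 : ℕ) : ℝ) - 1 / Real.log ((max (n + 1) 2 : ℕ) : ℝ)) := by
  have hn0 : (0 : ℝ) < n := by exact_mod_cast hn
  rcases Nat.lt_or_ge n 2 with h | h
  · have h1 : n = 1 := by omega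
    subst h1
    simp only [w]
    norm_num
  · have e1 : max n 2 = n := max_eq_left h
    have e2 : max (n + 1) 2 = n + 1 := max_eq_left (by omega)
    unfold w
    rw [e1, e2]
    have l1 := log_ge h
    have l2 := log_ge (show 2 ≤ n + 1 by omega)
    obtain ⟨x, hx⟩ : ∃ x, x = Real.log (n : ℝ) := ⟨_, rfl⟩
    obtain ⟨y, hy⟩ : ∃ y, y = Real.log ((n + 1 : ℕ) : ℝ) := ⟨_, rfl⟩
    rw [← hx] at l1 ⊢
    rw [← hy] at l2 ⊢
    have hxy : x ≤ y := by
      rw [hx, hy]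
      exact Real.log_le_log hn0 (by push_cast; linarith)
    have hx0 : (x : ℂ) ≠ 0 := by exact_mod_cast (by linarith : x ≠ 0)
    have hy0 : (y : ℂ) ≠ 0 := by exact_mod_cast (by linarith : y ≠ 0)
    have e3 : nt τ n / (x : ℂ) - nt τ (n + 1) / (y : ℂ) =
        (nt τ n - nt τ (n + 1)) / (x : ℂ) + nt τ (n + 1) * ((1 / x - 1 / y : ℝ) : ℂ) := by
      push_cast
      field_simp
      ring
    rw [e3]
    refine (norm_add_le _ _).trans (add_le_add ?_ ?_)
    · rw [norm_div, Complex.norm_real, Real.norm_eq_abs, abs_of_pos (by linarith), div_le_iff₀ (by linarith)]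
      have h3 := nt_diff τ n hn
      have h4 : 0 ≤ |τ| * (1 / (n : ℝ)) := by positivity
      have h5 : |τ| / (n : ℝ) = |τ| * (1 / n) := by ring
      rw [h5] at h3
      nlinarith
    · rw [norm_mul, norm_nt τ (n + 1) (by omega), one_mul, Complex.norm_real, Real.norm_eq_abs]
      have : 1 / y ≤ 1 / x := one_div_le_one_div_of_le (by linarith) hxy
      rw [abs_of_nonneg (by linarith)]

theorem sum_inv_le (y : ℕ) (_hy : 1 ≤ y) : ∑ n ∈ Ico 1 y, 1 / (n : ℝ) ≤ 1 + Real.log y := by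
  have h1 : ∑ n ∈ Ico 1 y, 1 / (n : ℝ) ≤ ∑ n ∈ Icc 1 y, 1 / (n : ℝ) :=
    Finset.sum_le_sum_of_subset_of_nonneg (fun n hn => by
      rw [mem_Ico] at hn
      rw [mem_Icc]
      omega) fun _ _ _ => by positivity
  have := harmonic_le_one_add_log y
  rw [harmonic_eq_sum_Icc] at this
  push_cast at this
  refine h1.trans ?_
  simpa using this

theorem total (τ : ℝ) (y : ℕ) (hy : 1 ≤ y) :
    ∑ n ∈ Ico 1 y, ‖w τ n - w τ (n + 1)‖ ≤ 2 * |τ| * (1 + Real.log y) + 2 := by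
  have h1 : ∑ n ∈ Ico 1 y, ‖w τ n - w τ (n + 1)‖ ≤
      2 * |τ| * ∑ n ∈ Ico 1 y, 1 / (n : ℝ) +
        (1 / Real.log ((max 1 2 : ℕ) : ℝ) - 1 / Real.log ((max y 2 : ℕ) : ℝ)) := by
    induction y, hy using Nat.le_induction with
    | base => simp
    | succ m hm ih =>
      rw [Finset.sum_Ico_succ_top hm, Finset.sum_Ico_succ_top hm]
      have := w_diff τ m hm
      linarith
  refine h1.trans (add_le_add (mul_le_mul_of_nonneg_left (sum_inv_le y hy) (by positivity)) ?_)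
  have h2 : 0 ≤ 1 / Real.log ((max y 2 : ℕ) : ℝ) := by
    have := log_ge (le_max_right y 2)
    exact one_div_nonneg.2 (by linarith)
  have h3 : 1 / Real.log ((max 1 2 : ℕ) : ℝ) ≤ 2 := by
    have := log_ge (le_max_right 1 2)
    rw [div_le_iff₀ (by linarith)]
    linarith
  linarith

/-- Abel summation -/
theorem abel (a v : ℕ → ℂ) {B : ℝ} {y : ℕ} (hy : 1 ≤ y) (hB : ∀ m ≤ y, ‖∑ n ∈ Icc 1 m, a n‖ ≤ B) :
    ‖∑ n ∈ Icc 1 y, a n * v n‖ ≤ B * (‖v y‖ + ∑ n ∈ Ico 1 y, ‖v n - v (n + 1)‖) := by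
  have key : ∀ m : ℕ, 1 ≤ m → ∑ n ∈ Icc 1 m, a n * v n = (∑ n ∈ Icc 1 m, a n) * v m +
      ∑ n ∈ Ico 1 m, (∑ k ∈ Icc 1 n, a k) * (v n - v (n + 1)) := by
    intro m hm
    induction m, hm using Nat.le_induction with
    | base => simp
    | succ m hm ih =>
      rw [Finset.sum_Icc_succ_top (by omega), Finset.sum_Icc_succ_top (by omega),
        Finset.sum_Ico_succ_top hm, ih]
      ring
  rw [key y hy]
  refine (norm_add_le _ _).trans ?_
  rw [mul_add, Finset.mul_sum, norm_mul]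
  refine add_le_add (mul_le_mul_of_nonneg_right (hB y le_rfl) (norm_nonneg _)) ?_
  refine (norm_sum_le _ _).trans (Finset.sum_le_sum fun n hn => ?_)
  rw [mem_Ico] at hn
  rw [norm_mul]
  exact mul_le_mul_of_nonneg_right (hB n (by omega)) (norm_nonneg _)

/-- Abel summation with the weight `n^{-iτ} / log n` -/
theorem abel_log (g : ℕ → ℂ) (τ : ℝ) {B : ℝ} {y : ℕ} (hB : ∀ m ≤ y, ‖∑ n ∈ Icc 1 m, g n‖ ≤ B) :
    ‖∑ n ∈ Icc 1 y, (if 2 ≤ n then g n * nt τ n / (Real.log n : ℂ) else 0)‖ ≤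
      (B + ‖g 1‖) * (4 + 2 * |τ| * (1 + Real.log y)) := by
  have hB0 : 0 ≤ B := (norm_nonneg _).trans (hB 0 (Nat.zero_le _))
  have hly : 0 ≤ Real.log (y : ℝ) := Real.log_natCast_nonneg y
  rcases Nat.eq_zero_or_pos y with h0 | h0
  · subst h0
    simp
    positivity
  have e1 : ∑ n ∈ Icc 1 y, (if 2 ≤ n then g n * nt τ n / (Real.log n : ℂ) else 0) =
      ∑ n ∈ Icc 1 y, (if n = 1 then 0 else g n) * w τ n := by
    refine Finset.sum_congr rfl fun n hn => ?_
    rw [mem_Icc] at hn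
    by_cases h : n = 1
    · rw [if_neg (by omega), if_pos h, zero_mul]
    · rw [if_pos (by omega), if_neg h]
      unfold w
      rw [max_eq_left (by omega : 2 ≤ n)]
      ring
  rw [e1]
  have hB' : ∀ m ≤ y, ‖∑ n ∈ Icc 1 m, (if n = 1 then 0 else g n)‖ ≤ B + ‖g 1‖ := by
    intro m hm
    rcases Nat.eq_zero_or_pos m with h1 | h1
    · subst h1
      simp
      positivity
    · have e2 : ∑ n ∈ Icc 1 m, (if n = 1 then 0 else g n) = ∑ n ∈ Icc 1 m, g n - g 1 := by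
        have e3 : ∀ n ∈ Icc 1 m, (if n = 1 then 0 else g n) = g n - (if n = 1 then g 1 else 0) := by
          intro n _
          split_ifs with h
          · rw [h, sub_self]
          · rw [sub_zero]
        rw [Finset.sum_congr rfl e3, Finset.sum_sub_distrib, Finset.sum_ite_eq' (Icc 1 m) 1 (fun _ => g 1),
          if_pos (mem_Icc.2 ⟨le_rfl, h1⟩)]
      rw [e2]
      exact (norm_sub_le _ _).trans (add_le_add (hB m hm) le_rfl)
  refine (abel _ (w τ) h0 hB').trans ?_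
  refine mul_le_mul_of_nonneg_left ?_ (by positivity)
  have h1 := norm_w τ y
  have h2 := total τ y h0
  linarith

end Pool.Agent.H13V.AbelW
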