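import Pool.Agent.Q53.CR.SDB

/-!
# Stub CHR of project BH: sums over characters to small moduli, from ZSB and SDB
-/

set_option autoImplicit false

namespace Pool.Agent.H13V.CHR

open Finset
open Pool.Agent.Q236.CR (nt S_ZSB S_SDB S_CHR)
open Pool.Agent.H469R2.NK (e)
open ZMod (stdAddChar)


/-- finite Fourier expansion with bounded coefficients -/
lemma expand (q : ℕ) [NeZero q] (f : ZMod q → ℂ) (hf : ∀ x, ‖f x‖ ≤ 1) :
    ∃ c : ZMod q → ℂ, (∀ a, ‖c a‖ ≤ 1) ∧ ∀ n : ℕ, f (n : ZMod q) = ∑ a, c a * e ((a.val : ℝ) / q * n) := by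
  have hq : (q : ℂ) ≠ 0 := by exact_mod_cast NeZero.ne q
  refine ⟨fun a => (q : ℂ)⁻¹ * ZMod.dft f a, ?_, ?_⟩
  · intro a
    rw [norm_mul, norm_inv, Complex.norm_natCast, ZMod.dft_apply]
    have h1 : ‖∑ j : ZMod q, stdAddChar (-(j * a)) • f j‖ ≤ q := by
      refine le_trans (norm_sum_le _ _) ?_
      have h2 : ∀ j ∈ (univ : Finset (ZMod q)), ‖stdAddChar (-(j * a)) • f j‖ ≤ 1 := by
        intro j _
        rw [norm_smul, AddChar.norm_apply, one_mul]
        exact hf j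
      refine le_trans (sum_le_sum h2) ?_
      simp [ZMod.card]
    have hq' : (0 : ℝ) < q := by exact_mod_cast Nat.pos_of_ne_zero (NeZero.ne q)
    rw [inv_mul_le_iff₀ hq', mul_one]
    exact h1
  · intro n
    have h1 : ZMod.dft.symm (ZMod.dft f) = f := ZMod.dft.symm_apply_apply f
    have h2 : f (n : ZMod q) = ZMod.dft.symm (ZMod.dft f) (n : ZMod q) := by rw [h1]
    rw [h2, ZMod.invDFT_apply, smul_eq_mul, mul_sum]
    refine sum_congr rfl (fun a _ => ?_)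
    rw [smul_eq_mul]
    have h3 : stdAddChar (a * (n : ZMod q)) = e ((a.val : ℝ) / q * n) := by
      have h4 : a * (n : ZMod q) = (((a.val * n : ℕ) : ℤ) : ZMod q) := by
        push_cast
        rw [ZMod.natCast_zmod_val]
      rw [h4, ZMod.stdAddChar_coe]
      unfold e
      congr 1
      push_cast
      ring
    rw [h3]
    ring

/-- the sum with a bounded periodic factor -/
lemma twist (q : ℕ) [NeZero q] (f : ZMod q → ℂ) (hf : ∀ x, ‖f x‖ ≤ 1) (S : Finset ℕ) (t : ℝ) (B : ℝ)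
    (h : ∀ β : ℝ, ‖∑ n ∈ S, e (β * n) * nt t n‖ ≤ B) :
    ‖∑ n ∈ S, f (n : ZMod q) * nt t n‖ ≤ q * B := by
  obtain ⟨c, hc, hx⟩ := expand q f hf
  have h1 : ∑ n ∈ S, f (n : ZMod q) * nt t n =
      ∑ a : ZMod q, c a * ∑ n ∈ S, e ((a.val : ℝ) / q * n) * nt t n := by
    simp_rw [mul_sum]
    rw [sum_comm]
    refine sum_congr rfl (fun n _ => ?_)
    rw [hx n, sum_mul]
    exact sum_congr rfl (fun a _ => by ring)
  rw [h1]
  refine le_trans (norm_sum_le _ _) ?_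
  have h2 : ∀ a ∈ (univ : Finset (ZMod q)), ‖c a * ∑ n ∈ S, e ((a.val : ℝ) / q * n) * nt t n‖ ≤ B := by
    intro a _
    rw [norm_mul]
    calc ‖c a‖ * ‖∑ n ∈ S, e ((a.val : ℝ) / q * n) * nt t n‖
        ≤ 1 * ‖∑ n ∈ S, e ((a.val : ℝ) / q * n) * nt t n‖ :=
          mul_le_mul_of_nonneg_right (hc a) (norm_nonneg _)
      _ = ‖∑ n ∈ S, e ((a.val : ℝ) / q * n) * nt t n‖ := one_mul _
      _ ≤ B := h _
  refine le_trans (sum_le_sum h2) ?_
  simp [ZMod.card]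

theorem t : S_ZSB → S_CHR := by
  rintro ⟨C, c, hc0, hc1, H⟩
  refine ⟨⟨C, c, hc0, hc1, ?_⟩, ?_⟩
  · intro q _ χ N N' t κ hN hNN hN' hκ ht
    exact twist q (fun x => χ x) (fun x => χ.norm_le_one x) _ t _
      (fun β => H N N' t κ β hN hNN hN' hκ ht)
  · obtain ⟨C', hC', H'⟩ := Pool.Agent.Q53.CR.sdb
    refine ⟨C', hC', ?_⟩
    intro q _ χ N N' t hN hNN hN' ht
    exact twist q (fun x => χ x) (fun x => χ.norm_le_one x) _ t _
      (fun β => H' N N' t β hN hNN hN' ht)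

end Pool.Agent.H13V.CHR
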