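import Pool.Agent.H13V.LUPB

/-!
# Project BH, stub LUP: upper bound for `L(s, χ)` near `Re s = 1`
-/

set_option autoImplicit false

namespace Pool.Agent.H13V.LUP

open Finset Filter MeasureTheory
open Pool.Agent.Q236.CR (nt S_CHR S_LUP)

/-- the numerical conditions hold for large `L` -/
theorem num {C : ℕ} {C₂ c : ℝ} (hc : 0 < c) (hC₂ : 1 ≤ C₂) (B : ℕ) :
    ∃ δ L₀ : ℝ, 0 < δ ∧ δ < 1 ∧ 4 ≤ L₀ ∧ ∀ L : ℝ, L₀ ≤ L →
      Num C C₂ c L (L ^ δ) (L ^ (δ - 1)) (B * Real.log L) := by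
  have hC0 : (0 : ℝ) ≤ C := Nat.cast_nonneg C
  have hB0 : (0 : ℝ) ≤ B := Nat.cast_nonneg B
  set δ : ℝ := 1 / (2 * ((C : ℝ) + 4)) with hδ
  have hδ0 : 0 < δ := by positivity
  have hδ1 : δ < 1 := by
    rw [hδ, div_lt_one (by positivity)]
    linarith
  set D₁ : ℝ := B / δ + C * 3 ^ C + 1 with hD₁
  set D₂ : ℝ := (B + 1) / δ + Real.log (2 * C₂) + 6 with hD₂
  have hlogC : 0 ≤ Real.log (2 * C₂) := Real.log_nonneg (by linarith)
  have hD₁0 : 0 < D₁ := by positivity
  have hD₂0 : 0 < D₂ := by positivity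
  set Q : ℝ := 9 * D₁ / c + 6 * D₂ + 2 with hQ
  have hQ2 : 2 ≤ Q := by
    have : 0 ≤ 9 * D₁ / c := by positivity
    linarith
  refine ⟨δ, Q ^ 2, hδ0, hδ1, by nlinarith, fun L hL => ?_⟩
  have hL4 : 4 ≤ L := by nlinarith
  have hL0 : 0 < L := by linarith
  have hv : Q ≤ Real.sqrt L := by
    rw [Real.le_sqrt' (by linarith)]
    exact hL
  set u : ℝ := L ^ δ with hu
  set v : ℝ := Real.sqrt L with hvdef
  have hv0 : 0 < v := by linarith
  have hu1 : 1 ≤ u := Real.one_le_rpow (by linarith) hδ0.le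
  have hu0 : 0 < u := by linarith
  have huv : u ^ (C + 4) = v := by
    rw [hu, hvdef, ← Real.rpow_natCast, ← Real.rpow_mul hL0.le, Real.sqrt_eq_rpow]
    congr 1
    rw [hδ]
    push_cast
    field_simp
  have hv2 : v ^ 2 = L := Real.sq_sqrt hL0.le
  have hwL : L ^ (δ - 1) * L = u := by
    rw [hu, ← Real.rpow_add_one hL0.ne']
    congr 1
    ring
  have hw0 : 0 < L ^ (δ - 1) := by positivity
  have hlogL : Real.log L ≤ u / δ := Real.log_le_rpow_div hL0.le hδ0
  have hlogL0 : 0 ≤ Real.log L := Real.log_nonneg (by linarith)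
  have hupow : ∀ k : ℕ, k ≤ C + 4 → u ^ k ≤ v := by
    intro k hk
    rw [← huv]
    exact pow_le_pow_right₀ hu1 hk
  have hb : B * Real.log L ≤ B / δ * u := by
    calc B * Real.log L ≤ B * (u / δ) := mul_le_mul_of_nonneg_left hlogL hB0
      _ = B / δ * u := by ring
  refine ⟨hc, hC₂, hu1, by positivity, hL4, hw0, ?_, hwL, ?_, ?_⟩
  · have h1 : u ≤ v := by simpa using hupow 1 (by omega)
    by_contra hcon
    push Not at hcon
    have h2 : 1 / 2 * L < L ^ (δ - 1) * L := mul_lt_mul_of_pos_right hcon hL0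
    rw [hwL] at h2
    nlinarith
  · have h1 : (L / u) * L ^ (δ - 1) = 1 := by
      have : (L / u) * L ^ (δ - 1) = (L ^ (δ - 1) * L) / u := by ring
      rw [this, hwL, div_self hu0.ne']
    have h2 : (1 + 2 * u) ^ C ≤ 3 ^ C * u ^ C := by
      rw [← mul_pow]
      exact pow_le_pow_left₀ (by positivity) (by linarith) C
    have h3 : (L / u) * (c / (3 * u) ^ 2) ≤ (L / u) * (c / (1 + 2 * u) ^ 2) := by
      refine mul_le_mul_of_nonneg_left ?_ (by positivity)
      refine div_le_div_of_nonneg_left hc.le (by positivity) ?_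
      exact pow_le_pow_left₀ (by positivity) (by linarith) 2
    have h4 : B / δ * u + C * (3 ^ C * u ^ C) + 1 ≤ (L / u) * (c / (3 * u) ^ 2) := by
      have e1 : (L / u) * (c / (3 * u) ^ 2) = c * L / (9 * u ^ 3) := by
        field_simp
        ring
      rw [e1, le_div_iff₀ (by positivity)]
      have e2 : (B / δ * u + C * (3 ^ C * u ^ C) + 1) * (9 * u ^ 3) =
          9 * (B / δ * u ^ 4 + C * 3 ^ C * u ^ (C + 3) + u ^ 3) := by
        rw [pow_add]
        ring
      rw [e2]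
      have h5 : B / δ * u ^ 4 ≤ B / δ * v :=
        mul_le_mul_of_nonneg_left (hupow 4 (by omega)) (by positivity)
      have h6 : C * 3 ^ C * u ^ (C + 3) ≤ C * 3 ^ C * v :=
        mul_le_mul_of_nonneg_left (hupow (C + 3) (by omega)) (by positivity)
      have h7 : u ^ 3 ≤ v := hupow 3 (by omega)
      have h8 : 9 * (B / δ * u ^ 4 + C * 3 ^ C * u ^ (C + 3) + u ^ 3) ≤ 9 * D₁ * v := by
        rw [hD₁]
        linarith
      refine h8.trans ?_
      rw [← hv2]
      have h9 : 9 * D₁ / c ≤ v := by linarith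
      rw [div_le_iff₀ hc] at h9
      nlinarith
    have h5 : (C : ℝ) * (1 + 2 * u) ^ C ≤ C * (3 ^ C * u ^ C) :=
      mul_le_mul_of_nonneg_left h2 hC0
    rw [mul_sub, h1]
    linarith
  · have h1 : Real.log (1 + 4 * L) ≤ 2 + Real.log L := by
      have h2 : Real.log (1 + 4 * L) ≤ Real.log (5 * L) :=
        Real.log_le_log (by linarith) (by linarith)
      rw [Real.log_mul (by norm_num) hL0.ne'] at h2
      have h3 : Real.log 5 ≤ 2 := by
        rw [Real.log_le_iff_le_exp (by norm_num)]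
        have h5 := Real.exp_one_gt_d9
        have h6 : Real.exp 2 = Real.exp 1 * Real.exp 1 := by
          rw [← Real.exp_add]; norm_num
        rw [h6]
        nlinarith
      linarith
    have h2 : 4 * L * L ^ (δ - 1) = 4 * u := by
      rw [← hwL]
      ring
    rw [h2, le_div_iff₀ (by positivity)]
    have h3 : B * Real.log L + Real.log (2 * C₂) + Real.log (1 + 4 * L) + 4 * u ≤ D₂ * u := by
      have e1 : D₂ * u = (B / δ * u) + u / δ + Real.log (2 * C₂) * u + 6 * u := by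
        rw [hD₂]
        ring
      rw [e1]
      have h4 : Real.log (2 * C₂) ≤ Real.log (2 * C₂) * u := le_mul_of_one_le_right hlogC hu1
      linarith
    have h4 : (B * Real.log L + Real.log (2 * C₂) + Real.log (1 + 4 * L) + 4 * u) * (6 * u) ≤
        (D₂ * u) * (6 * u) := mul_le_mul_of_nonneg_right h3 (by positivity)
    refine h4.trans ?_
    have h5 : u ^ 2 ≤ v := hupow 2 (by omega)
    have h6 : 6 * D₂ ≤ v := by
      have : 0 ≤ 9 * D₁ / c := by positivity
      linarith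
    calc D₂ * u * (6 * u) = 6 * D₂ * u ^ 2 := by ring
      _ ≤ 6 * D₂ * v := mul_le_mul_of_nonneg_left h5 (by positivity)
      _ ≤ v * v := mul_le_mul_of_nonneg_right h6 hv0.le
      _ = L := by rw [← hv2]; ring

/-- the zeta function at small heights -/
theorem zeta_small {s : ℂ} (h1 : 1 / 2 ≤ s.re) (h3 : s.re ≤ 3) (ht : 1 ≤ |s.im|) :
    ‖riemannZeta s‖ ≤ 8 + 2 * |s.im| := by
  have hs : 0 < s.re := by linarith
  have hne : s ≠ 1 := by
    rintro rfl
    simp at ht
    linarith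
  have hA : ∀ u : ℝ, ‖((Int.fract u : ℝ) : ℂ)‖ ≤ 1 := by
    intro u
    rw [Complex.norm_real, Real.norm_eq_abs, Int.abs_fract]
    exact (Int.fract_lt_one u).le
  rw [ZU.J_a1.zf_one s hs hne]
  have h4 := H370.DL.J_bound hA hs
  have h5 : (1 : ℝ) / s.re ≤ 2 := by
    rw [div_le_iff₀ hs]
    linarith
  have h6 : ‖1 / (s - 1)‖ ≤ 1 := by
    rw [norm_div, norm_one, div_le_one]
    · refine le_trans ?_ (Complex.abs_im_le_norm (s - 1))
      simpa using ht
    · rw [norm_pos_iff, sub_ne_zero]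
      exact hne
  have h8 : ‖s‖ ≤ 3 + |s.im| := by
    have h5 := Complex.norm_le_abs_re_add_abs_im s
    have h6 : |s.re| ≤ 3 := by
      rw [abs_le]
      constructor <;> linarith
    linarith
  have h7 : ‖s * ∫ u in Set.Ioi (1 : ℝ), ((Int.fract u : ℝ) : ℂ) * (u : ℂ) ^ (-s - 1)‖ ≤
      (3 + |s.im|) * 2 := by
    rw [norm_mul]
    exact mul_le_mul h8 (h4.trans h5) (norm_nonneg _) (by positivity)
  calc _ ≤ ‖1 + 1 / (s - 1)‖ + _ := norm_sub_le _ _
    _ ≤ (‖(1 : ℂ)‖ + ‖1 / (s - 1)‖) + (3 + |s.im|) * 2 := add_le_add (norm_add_le _ _) h7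
    _ ≤ (1 + 1) + (3 + |s.im|) * 2 := by
        rw [norm_one]
        gcongr
    _ ≤ 8 + 2 * |s.im| := by linarith

/-- the Euler factors at the primes dividing `q` -/
theorem prod_le (q : ℕ) [NeZero q] {s : ℂ} (hs : 0 ≤ s.re) :
    ‖∏ p ∈ q.primeFactors, (1 - (p : ℂ) ^ (-s))‖ ≤ q := by
  have h1 : ‖∏ p ∈ q.primeFactors, (1 - (p : ℂ) ^ (-s))‖ ≤ ∏ p ∈ q.primeFactors, (p : ℝ) := by
    rw [norm_prod]
    refine Finset.prod_le_prod (fun _ _ => norm_nonneg _) fun p hp => ?_
    have hp' : p.Prime := Nat.prime_of_mem_primeFactors hp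
    have h2 : ‖(p : ℂ) ^ (-s)‖ ≤ 1 := by
      rw [Complex.norm_natCast_cpow_of_pos hp'.pos, Complex.neg_re]
      exact Real.rpow_le_one_of_one_le_of_nonpos (by exact_mod_cast hp'.one_le) (by linarith)
    have h3 : (2 : ℝ) ≤ p := by exact_mod_cast hp'.two_le
    calc ‖1 - (p : ℂ) ^ (-s)‖ ≤ ‖(1 : ℂ)‖ + ‖(p : ℂ) ^ (-s)‖ := norm_sub_le _ _
      _ ≤ 1 + 1 := by rw [norm_one]; linarith
      _ ≤ p := by linarith
  refine h1.trans ?_
  have h2 : ∏ p ∈ q.primeFactors, p ≤ q :=
    Nat.le_of_dvd (NeZero.pos q) (Nat.prod_primeFactors_dvd q)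
  rw [← Nat.cast_prod]
  exact Nat.cast_le.2 h2

end Pool.Agent.H13V.LUP

namespace Pool.Agent.H13V.LUP

open Pool.Agent.Q236.CR (nt S_CHR S_LUP)

/-- **LUP** -/
theorem t (hC : S_CHR) : S_LUP := by
  obtain ⟨⟨C, c, hc, hc1, hC1⟩, ⟨C₂, hC₂, hC2⟩⟩ := hC
  intro B
  obtain ⟨δ₁, L₁, hδ₁, hδ₁1, hL₁, hnum⟩ := num (C := C) hc hC₂ B
  obtain ⟨δz, K₀, t₀, hδz, hδz1, hK₀, ht₀, hzeta⟩ := Pool.Agent.Y957.VK.zeta_all
  set δ : ℝ := min δ₁ (δz / 2) with hδ
  have hδ0 : 0 < δ := lt_min hδ₁ (by linarith)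
  have hδδ₁ : δ ≤ δ₁ := min_le_left _ _
  have hδδz : δ ≤ δz / 2 := min_le_right _ _
  set L₀ : ℝ := L₁ + 21 + 2 * K₀ + (8 + 2 * t₀) + (2 : ℝ) ^ (2 / δz) with hL₀
  have hpz : 0 < (2 : ℝ) ^ (2 / δz) := by positivity
  refine ⟨δ, (B : ℝ) + 2, Real.exp L₀, hδ0, by linarith, ?_, ?_, ?_⟩
  · have : (0 : ℝ) ≤ B := Nat.cast_nonneg B
    linarith
  · have := Real.add_one_le_exp L₀
    linarith
  intro T hT q _ hq χ s hχs ht hσ hσ3
  have hT0 : 0 < T := lt_of_lt_of_le (Real.exp_pos _) hT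
  set L : ℝ := Real.log T with hL
  have hLL : L₀ ≤ L := by
    rw [hL, ← Real.log_exp L₀]
    exact Real.log_le_log (Real.exp_pos _) hT
  have hN := hnum L (by linarith)
  have hL1 : 1 ≤ L := by linarith
  have hL0 : 0 < L := by linarith
  have hw : L ^ (δ - 1) ≤ L ^ (δ₁ - 1) := Real.rpow_le_rpow_of_exponent_le hL1 (by linarith)
  have hqR : (1 : ℝ) ≤ q := by exact_mod_cast NeZero.one_le
  have hlogq : Real.log q ≤ B * Real.log L := by
    rw [← Real.log_pow]
    exact Real.log_le_log (by linarith) hq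
  have hlogt : Real.log (|s.im| + 2) ≤ L + 2 := by
    have h1 : |s.im| + 2 ≤ Real.exp 2 * T := by
      have h5 := Real.exp_one_gt_d9
      have h6 : Real.exp 2 = Real.exp 1 * Real.exp 1 := by
        rw [← Real.exp_add]; norm_num
      have h7 : 5 ≤ Real.exp 2 := by rw [h6]; nlinarith
      have h8 : 1 ≤ T := by
        have h9 := Real.add_one_le_exp L₀
        linarith
      nlinarith
    have h2 := Real.log_le_log (by positivity) h1
    rw [Real.log_mul (Real.exp_pos _).ne' hT0.ne', Real.log_exp] at h2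
    linarith
  have hLpow : L ^ ((B : ℝ) + 2) = L ^ B * L ^ 2 := by
    rw [Real.rpow_add hL0, Real.rpow_natCast]
    norm_num
  have hLB : 1 ≤ L ^ B := one_le_pow₀ hL1
  rw [hLpow]
  by_cases hχ : χ = 1
  · subst hχ
    have hs1 : 1 ≤ |s.im| := by
      rcases hχs with h | h
      · exact absurd rfl h
      · exact h
    have hne : s ≠ 1 := by
      rintro rfl
      simp at hs1
      linarith
    have hre : 1 / 2 ≤ s.re := by
      have := hN.w2
      linarith
    have h1 := DirichletCharacter.LFunctionTrivChar_eq_mul_riemannZeta (N := q) hne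
    have h2 : DirichletCharacter.LFunction (1 : DirichletCharacter ℂ q) s =
      (∏ p ∈ q.primeFactors, (1 - (p : ℂ) ^ (-s))) * riemannZeta s := h1
    rw [h2, norm_mul]
    have h3 : ‖∏ p ∈ q.primeFactors, (1 - (p : ℂ) ^ (-s))‖ ≤ L ^ B :=
      (prod_le q (by linarith)).trans hq
    have h4 : ‖riemannZeta s‖ ≤ L ^ 2 := by
      rcases le_or_gt t₀ |s.im| with h5 | h5
      · have hti : 0 < |s.im| := by linarith
        have hlt1 : Real.log |s.im| ≤ 2 * L := by
          have h6 : Real.log |s.im| ≤ Real.log (|s.im| + 2) := Real.log_le_log hti (by linarith)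
          linarith
        have hlt0 : 0 < Real.log |s.im| := Real.log_pos (by linarith)
        have h6 : L ^ (δ - 1) ≤ (Real.log |s.im|) ^ (δz - 1) := by
          have h7 : (2 * L) ^ (δz - 1) ≤ (Real.log |s.im|) ^ (δz - 1) :=
            Real.rpow_le_rpow_of_nonpos hlt0 hlt1 (by linarith)
          refine le_trans ?_ h7
          rw [Real.mul_rpow (by norm_num) hL0.le]
          have h8 : (1 / 2 : ℝ) ≤ 2 ^ (δz - 1) := by
            have h9 : (2 : ℝ) ^ (-1 : ℝ) ≤ 2 ^ (δz - 1) :=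
              Real.rpow_le_rpow_of_exponent_le (by norm_num) (by linarith)
            rw [Real.rpow_neg_one] at h9
            linarith
          have h9 : L ^ (δ - 1) ≤ L ^ (δz / 2 - 1) :=
            Real.rpow_le_rpow_of_exponent_le hL1 (by linarith)
          have h10 : L ^ (δz - 1) = L ^ (δz / 2) * L ^ (δz / 2 - 1) := by
            rw [← Real.rpow_add hL0]
            congr 1
            ring
          have h11 : 2 ≤ L ^ (δz / 2) := by
            have h12 : ((2 : ℝ) ^ (2 / δz)) ^ (δz / 2) ≤ L ^ (δz / 2) :=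
              Real.rpow_le_rpow hpz.le (by linarith) (by linarith)
            rw [← Real.rpow_mul (by norm_num)] at h12
            have h13 : 2 / δz * (δz / 2) = 1 := by
              field_simp
            rw [h13, Real.rpow_one] at h12
            exact h12
          have h12 : 0 < L ^ (δz / 2 - 1) := by positivity
          rw [h10]
          calc L ^ (δ - 1) ≤ (1 / 2) * (2 * L ^ (δz / 2 - 1)) := by linarith
            _ ≤ 2 ^ (δz - 1) * (L ^ (δz / 2) * L ^ (δz / 2 - 1)) := by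
              refine mul_le_mul h8 ?_ (by positivity) (by positivity)
              exact mul_le_mul_of_nonneg_right h11 h12.le
        have h7 := hzeta s.re s.im h5 (by linarith) hσ3
        have h8 : (⟨s.re, s.im⟩ : ℂ) = s := rfl
        rw [h8] at h7
        refine h7.trans ?_
        have h9 : K₀ * Real.log |s.im| ≤ K₀ * (2 * L) :=
          mul_le_mul_of_nonneg_left hlt1 (by linarith)
        nlinarith
      · refine (zeta_small hre hσ3 hs1).trans ?_
        nlinarith
    exact mul_le_mul h3 h4 (norm_nonneg _) (by positivity)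
  · have h1 := main_le (C := C) (C₂ := C₂) (c := c) hχ (hC1 q ‹_› χ) (hC2 q ‹_› χ) hN hlogq
      (by linarith : 1 - L ^ (δ₁ - 1) ≤ s.re) hσ3 hlogt
    refine h1.trans ?_
    nlinarith

end Pool.Agent.H13V.LUP
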