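import Pool.Agent.W66.ZC
import Pool.Agent.Y333.VK.ZfA

/-!
Project BH (helper13), stub LZF: zero free region and bound for the inverse of Dirichlet L-functions to small moduli
from the upper bound: local lemmas (adapted by helper39 from `Pool/Agent/Y333/VK/ZfA.lean`, `Zf.lean`).
-/

set_option autoImplicit false

open Complex Filter Topology Set MeasureTheory Metric

namespace Pool.Agent.H13V.LZF

open DirichletCharacter (LFunction)

/-- the properties of the functions -/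
structure Nice (f : ℂ → ℂ) : Prop where
  diff : ∀ z : ℂ, z ≠ 1 → DifferentiableAt ℂ f z
  ne : ∀ z : ℂ, z ≠ 1 → 1 ≤ z.re → f z ≠ 0
  inv : ∀ z : ℂ, 1 < z.re → ‖(f z)⁻¹‖ ≤ 1 + 1 / (z.re - 1)

lemma nice {q : ℕ} [NeZero q] (χ : DirichletCharacter ℂ q) : Nice (LFunction χ) where
  diff z hz := DirichletCharacter.differentiableAt_LFunction χ z (Or.inl hz)
  ne z hz h := DirichletCharacter.LFunction_ne_zero_of_one_le_re χ (Or.inr hz) h
  inv w hw := by
    have h1 := DirichletCharacter.LSeries.mul_mu_eq_one χ hw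
    rw [DirichletCharacter.LFunction_eq_LSeries χ hw, inv_eq_of_mul_eq_one_right h1, LSeries]
    refine le_trans ?_ (Pool.Agent.Y333.VK.zeta_le hw)
    have hsum : Summable (fun n : ℕ => (n : ℝ) ^ (-w.re)) :=
      Real.summable_nat_rpow.mpr (by linarith)
    refine tsum_of_norm_bounded hsum.hasSum fun n => ?_
    rcases Nat.eq_zero_or_pos n with rfl | hn
    · rw [LSeries.term_zero, norm_zero]
      exact Real.rpow_nonneg (Nat.cast_nonneg 0) _
    · rw [LSeries.term_of_ne_zero hn.ne', norm_div, Complex.norm_natCast_cpow_of_pos hn,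
        Real.rpow_neg (Nat.cast_nonneg n), ← one_div]
      apply div_le_div_of_nonneg_right _ (Real.rpow_nonneg (Nat.cast_nonneg n) _)
      simp only [Pi.mul_apply, norm_mul]
      have a1 := DirichletCharacter.norm_le_one χ (n : ZMod q)
      have a2 : ‖((ArithmeticFunction.moebius n : ℤ) : ℂ)‖ ≤ 1 := by
        have := ArithmeticFunction.abs_moebius_le_one (n := n)
        rw [Complex.norm_intCast]
        exact_mod_cast this
      calc _ ≤ (1 : ℝ) * 1 := mul_le_mul a1 a2 (norm_nonneg _) zero_le_one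
        _ = 1 := one_mul 1

/-- the upper bound -/
def UB (f : ℂ → ℂ) (w T M : ℝ) : Prop := ∀ z : ℂ, 1 ≤ |z.im| → |z.im| ≤ 3 * T → 1 - 32 * w ≤ z.re →
  z.re ≤ 3 → ‖f z‖ ≤ M

/-- the local lemma -/
lemma loc {f : ℂ → ℂ} (hf : Nice f) {w T M : ℝ} (hw0 : 0 < w) (hw1 : w ≤ 1 / 32) (hT : 1 ≤ T)
    (hM1 : 1 ≤ M) (h : UB f w T M) {τ η : ℝ} (hτ1 : 3 / 2 ≤ |τ|) (hτ2 : |τ| ≤ 2 * T + 1 / 2)
    (hη0 : 0 < η) (hη : η ≤ w) :
    (-(12 * (Real.log (2 * M / η) + 1) / w) ≤ (deriv f ⟨1 + η, τ⟩ / f ⟨1 + η, τ⟩).re) ∧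
    (∀ ρ ∈ closedBall (⟨1 + η, τ⟩ : ℂ) (2 * w), f ρ = 0 →
      (1 / ((⟨1 + η, τ⟩ : ℂ) - ρ)).re - 12 * (Real.log (2 * M / η) + 1) / w ≤
        (deriv f ⟨1 + η, τ⟩ / f ⟨1 + η, τ⟩).re) ∧
    (∀ z ∈ closedBall (⟨1 + η, τ⟩ : ℂ) w, ∀ d : ℝ, 0 < d →
      (∀ ρ ∈ closedBall (⟨1 + η, τ⟩ : ℂ) (2 * w), f ρ = 0 → d ≤ ‖z - ρ‖) →
      f z ≠ 0 ∧ ‖deriv f z / f z‖ ≤ Real.log (2 * M / η) * (3 / 2) / d +
          12 * (Real.log (2 * M / η) + 1) / w) := by
  set c : ℂ := ⟨1 + η, τ⟩ with hc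
  have hcr : c.re = 1 + η := rfl
  have hci : c.im = τ := rfl
  have him : ∀ z ∈ closedBall c (4 * w), 1 ≤ |z.im| ∧ |z.im| ≤ 3 * T := by
    intro z hz
    rw [mem_closedBall, dist_eq_norm] at hz
    have h2 := (abs_im_le_norm (z - c)).trans hz
    rw [sub_im, hci] at h2
    have h3 : |τ| - |z.im| ≤ |z.im - τ| := by
      rw [abs_sub_comm]
      exact abs_sub_abs_le_abs_sub _ _
    have h4 : |z.im| - |τ| ≤ |z.im - τ| := abs_sub_abs_le_abs_sub _ _
    constructor <;> linarith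
  have hball : ∀ z ∈ closedBall c (4 * w), ‖f z‖ ≤ M := by
    intro z hz
    obtain ⟨i1, i2⟩ := him z hz
    rw [mem_closedBall, dist_eq_norm] at hz
    have h1 := (abs_re_le_norm (z - c)).trans hz
    rw [sub_re, hcr, abs_le] at h1
    exact h z i1 i2 (by linarith [h1.1]) (by linarith [h1.2])
  have hne1 : ∀ z : ℂ, 1 ≤ |z.im| → z ≠ 1 := by
    intro z hz he
    rw [he, one_im, abs_zero] at hz
    linarith
  have hne : ∀ z ∈ closedBall c (4 * w), z ≠ 1 := fun z hz => hne1 z (him z hz).1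
  have han : AnalyticOnNhd ℂ f (closedBall c (4 * w)) := by
    have h1 : DifferentiableOn ℂ f {1}ᶜ := fun z hz =>
      (hf.diff z hz).differentiableWithinAt
    exact (h1.analyticOnNhd isOpen_compl_singleton).mono fun z hz => hne z hz
  have hcm : c ∈ closedBall c (4 * w) := mem_closedBall_self (by linarith)
  have hcb := hball c hcm
  have hcre : 1 < c.re := by rw [hcr]; linarith
  have hc0 : f c ≠ 0 := hf.ne c (hne c hcm) hcre.le
  have hcpos : 0 < ‖f c‖ := norm_pos_iff.2 hc0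
  have hinv : ‖f c‖⁻¹ ≤ 2 / η := by
    have h1 := hf.inv c hcre
    rw [norm_inv] at h1
    have h2 : c.re - 1 = η := by rw [hcr]; ring
    rw [h2] at h1
    refine h1.trans ?_
    have h3 : 1 ≤ 1 / η := by rw [le_div_iff₀ hη0]; linarith
    have h4 : 2 / η = 1 / η + 1 / η := by ring
    linarith
  have hM0 : 0 < M := by linarith
  have hlog : Real.log (M / ‖f c‖) ≤ Real.log (2 * M / η) := by
    apply Real.log_le_log (by positivity)
    calc M / ‖f c‖ = M * ‖f c‖⁻¹ := div_eq_mul_inv _ _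
      _ ≤ M * (2 / η) := mul_le_mul_of_nonneg_left hinv (by positivity)
      _ = 2 * M / η := by ring
  have hlog0 : 0 ≤ Real.log (M / ‖f c‖) :=
    Real.log_nonneg (by rw [le_div_iff₀ hcpos]; linarith)
  have hq : Real.log (2 * w / (4 * w - 2 * w)) = 0 := by
    have h1 : 4 * w - 2 * w = 2 * w := by ring
    rw [h1, div_self (by positivity), Real.log_one]
  have herr : 2 * (Real.log (M / ‖f c‖) +
      Real.log (M / ‖f c‖) / Real.log (4 * w / (2 * w)) *
      Real.log (2 * w / (4 * w - 2 * w)) + 1) * (3 / 2 * w) / (2 * w - 3 / 2 * w) /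
      (3 / 2 * w - w) ≤ 12 * (Real.log (2 * M / η) + 1) / w := by
    rw [hq]
    have e1 : 2 * w - 3 / 2 * w = w / 2 := by ring
    have e2 : 3 / 2 * w - w = w / 2 := by ring
    rw [e1, e2, mul_zero, add_zero]
    have e3 : 2 * (Real.log (M / ‖f c‖) + 1) * (3 / 2 * w) / (w / 2) / (w / 2) =
        12 * (Real.log (M / ‖f c‖) + 1) / w := by
      field_simp
      ring
    rw [e3]
    gcongr
  have hzre : ∀ ρ ∈ closedBall c (4 * w), f ρ = 0 → ρ.re < 1 := by
    intro ρ hρ hρ0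
    by_contra hcon
    exact hf.ne ρ (hne ρ hρ) (not_lt.1 hcon) hρ0
  have h24 : closedBall c (2 * w) ⊆ closedBall c (4 * w) := closedBall_subset_closedBall (by linarith)
  obtain ⟨s, hs1, hs2, hs3⟩ := Pool.Agent.W66.landau_re (f := f) (c := c) (r := 2 * w)
    (r1 := 3 / 2 * w) (r2 := w) (R := 4 * w) (M := M) hw0 (by linarith) (by linarith)
    (by linarith) (by linarith) hM1 hcb han hc0 hball
  have hcne : ∀ ρ ∈ s, c ≠ ρ := by
    intro ρ hρ he
    have h1 := hzre ρ (h24 (hs1 ρ hρ).1) (hs1 ρ hρ).2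
    rw [← he] at h1
    linarith
  have h3 := (hs3 c (mem_closedBall_self hw0.le) hcne).trans herr
  obtain ⟨j1, j2⟩ := Pool.Agent.Y333.VK.sum_re hcre s fun ρ hρ => hzre ρ (h24 (hs1 ρ hρ).1) (hs1 ρ hρ).2
  have h4 := (Complex.abs_re_le_norm _).trans h3
  rw [sub_re, abs_le] at h4
  refine ⟨by linarith [h4.1], fun ρ hρ hρ0 => ?_, fun z hz d hd hdist => ?_⟩
  · have := j2 ρ (hs2 ρ hρ hρ0)
    linarith [h4.1]
  · obtain ⟨h5, h6⟩ := H370.Loc.landau (f := f) (c := c) (r := 2 * w)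
      (r1 := 3 / 2 * w) (r2 := w) (R := 4 * w) (M := M) hw0 (by linarith) (by linarith)
      (by linarith) (by linarith) hM1 hcb han hc0 hball z hz d hd hdist
    refine ⟨h5, h6.trans (add_le_add ?_ herr)⟩
    have e1 : 4 * w / (2 * w) = 2 := by
      field_simp
      norm_num
    rw [e1]
    have hl2 : 2 / 3 ≤ Real.log 2 := by
      have := Real.log_two_gt_d9
      linarith
    have e2 : Real.log (M / ‖f c‖) / Real.log 2 ≤ Real.log (2 * M / η) * (3 / 2) := by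
      rw [div_le_iff₀ (by linarith)]
      have h7 : 0 ≤ Real.log (2 * M / η) := hlog0.trans hlog
      nlinarith
    gcongr

/-- the 3-4-1 inequality -/
lemma three_four_one {q : ℕ} [NeZero q] (χ : DirichletCharacter ℂ q) {σ : ℝ} (hσ : 1 < σ) (t : ℝ) :
    0 ≤ 3 * (LSeries (fun n => (ArithmeticFunction.vonMangoldt n : ℂ)) (⟨σ, 0⟩ : ℂ)).re -
      4 * (deriv (LFunction χ) ⟨σ, t⟩ / LFunction χ ⟨σ, t⟩).re -
      (deriv (LFunction (χ ^ 2)) ⟨σ, 2 * t⟩ / LFunction (χ ^ 2) ⟨σ, 2 * t⟩).re := by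
  have hs0 : LSeriesSummable (fun n => (ArithmeticFunction.vonMangoldt n : ℂ)) (⟨σ, 0⟩ : ℂ) :=
    ArithmeticFunction.LSeriesSummable_vonMangoldt (by simpa using hσ)
  have hs1 : ∀ (ψ : DirichletCharacter ℂ q) (t : ℝ), LSeriesSummable
      ((fun n : ℕ => ψ (n : ZMod q)) * fun n => (ArithmeticFunction.vonMangoldt n : ℂ)) (⟨σ, t⟩ : ℂ) :=
    fun ψ t => DirichletCharacter.LSeriesSummable_twist_vonMangoldt ψ (by simpa using hσ)
  have hld : ∀ (ψ : DirichletCharacter ℂ q) (t : ℝ),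
      -(deriv (LFunction ψ) ⟨σ, t⟩ / LFunction ψ ⟨σ, t⟩) =
      LSeries ((fun n : ℕ => ψ (n : ZMod q)) * fun n => (ArithmeticFunction.vonMangoldt n : ℂ))
        (⟨σ, t⟩ : ℂ) := by
    intro ψ t
    have hst : 1 < (⟨σ, t⟩ : ℂ).re := hσ
    rw [DirichletCharacter.LSeries_twist_vonMangoldt_eq ψ hst,
      DirichletCharacter.deriv_LFunction_eq_deriv_LSeries ψ hst,
      DirichletCharacter.LFunction_eq_LSeries ψ hst, neg_div]
  have e1 : -(4 * (deriv (LFunction χ) ⟨σ, t⟩ / LFunction χ ⟨σ, t⟩).re) =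
      4 * (LSeries ((fun n : ℕ => χ (n : ZMod q)) * fun n => (ArithmeticFunction.vonMangoldt n : ℂ))
        (⟨σ, t⟩ : ℂ)).re := by
    rw [← hld χ t, neg_re]
    ring
  have e2 : -(deriv (LFunction (χ ^ 2)) ⟨σ, 2 * t⟩ / LFunction (χ ^ 2) ⟨σ, 2 * t⟩).re =
      (LSeries ((fun n : ℕ => (χ ^ 2) (n : ZMod q)) * fun n => (ArithmeticFunction.vonMangoldt n : ℂ))
        (⟨σ, 2 * t⟩ : ℂ)).re := by
    rw [← hld (χ ^ 2) (2 * t), neg_re]
  rw [sub_eq_add_neg, sub_eq_add_neg, e1, e2]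
  unfold LSeries
  rw [Complex.re_tsum hs0, Complex.re_tsum (hs1 χ t), Complex.re_tsum (hs1 (χ ^ 2) (2 * t))]
  have h0 := (Complex.reCLM.summable hs0)
  have h1 := (Complex.reCLM.summable (hs1 χ t))
  have h2 := (Complex.reCLM.summable (hs1 (χ ^ 2) (2 * t)))
  simp only [Complex.reCLM_apply] at h0 h1 h2
  rw [← tsum_mul_left, ← tsum_mul_left, ← Summable.tsum_add (h0.mul_left 3) (h1.mul_left 4),
    ← Summable.tsum_add ((h0.mul_left 3).add (h1.mul_left 4)) h2]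
  refine tsum_nonneg fun n => ?_
  rcases eq_or_ne n 0 with rfl | hn
  · simp
  have hn0 : (n : ℂ) ≠ 0 := by exact_mod_cast hn
  have hnr : (0 : ℝ) < n := by exact_mod_cast Nat.pos_of_ne_zero hn
  set w : ℂ := cexp (-(((t * Real.log n : ℝ) : ℂ) * I)) with hw
  have key : ∀ k : ℕ, ∀ x : ℂ, x * (ArithmeticFunction.vonMangoldt n : ℂ) /
      (n : ℂ) ^ (⟨σ, k * t⟩ : ℂ) =
      ((ArithmeticFunction.vonMangoldt n / (n : ℝ) ^ σ : ℝ) : ℂ) * (x * w ^ k) := by
    intro k x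
    have e : (⟨σ, k * t⟩ : ℂ) = (σ : ℂ) + ((k * t : ℝ) : ℂ) * I := by
      apply Complex.ext <;> simp
    rw [e, Complex.cpow_add _ _ hn0]
    have e2 : (n : ℂ) ^ (((k * t : ℝ) : ℂ) * I) = (w ^ k)⁻¹ := by
      rw [hw, ← Complex.exp_nat_mul, ← Complex.exp_neg, Complex.cpow_def_of_ne_zero hn0,
        ← Complex.natCast_log]
      congr 1
      push_cast
      ring
    rw [e2]
    have e3 : (n : ℂ) ^ (σ : ℂ) = (((n : ℝ) ^ σ : ℝ) : ℂ) := by
      rw [Complex.ofReal_cpow hnr.le]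
      simp
    rw [e3]
    push_cast
    rw [← div_div, div_inv_eq_mul]
    ring
  rw [LSeries.term_of_ne_zero hn, LSeries.term_of_ne_zero hn, LSeries.term_of_ne_zero hn]
  simp only [Pi.mul_apply]
  have k0 := key 0 1
  have k1 := key 1 (χ (n : ZMod q))
  have k2 := key 2 ((χ ^ 2) (n : ZMod q))
  simp only [Nat.cast_zero, zero_mul, pow_zero, mul_one, Nat.cast_one, one_mul, pow_one,
    Nat.cast_ofNat] at k0 k1 k2
  rw [k0, k1, k2]
  set A : ℝ := ArithmeticFunction.vonMangoldt n / (n : ℝ) ^ σ with hA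
  have hA0 : 0 ≤ A := div_nonneg ArithmeticFunction.vonMangoldt_nonneg (by positivity)
  have hx2 : (χ ^ 2) (n : ZMod q) = (χ (n : ZMod q)) ^ 2 := by
    rw [MulChar.pow_apply' χ (by norm_num)]
  rw [hx2, ← mul_pow]
  set y : ℂ := χ (n : ZMod q) * w with hy
  have hy1 : y.re ^ 2 + y.im ^ 2 ≤ 1 := by
    have h3 : ‖w‖ = 1 := by
      rw [hw, ← neg_mul, ← Complex.ofReal_neg, Complex.norm_exp_ofReal_mul_I]
    have h5 : ‖y‖ ≤ 1 := by
      rw [hy, norm_mul, h3, mul_one]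
      exact DirichletCharacter.norm_le_one χ _
    have h4 := Complex.sq_norm y
    rw [Complex.normSq_apply] at h4
    have h6 : ‖y‖ ^ 2 ≤ 1 := by
      have := norm_nonneg y
      nlinarith
    nlinarith
  have e4 : ((A : ℂ)).re = A := Complex.ofReal_re A
  have e5 : ((A : ℂ) * y).re = A * y.re := by simp
  have e6 : ((A : ℂ) * y ^ 2).re = A * (y.re ^ 2 - y.im ^ 2) := by
    rw [Complex.re_ofReal_mul, sq, Complex.mul_re]
    ring
  rw [e4, e5, e6]
  nlinarith [mul_nonneg hA0 (sq_nonneg (1 + y.re)), mul_nonneg hA0 (sub_nonneg.2 hy1)]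

end Pool.Agent.H13V.LZF
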