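import Pool.Agent.Q236.CR.Stm
import Pool.Agent.H13V.LZFA

/-!
Project BH (helper13), stub LZF: zero free region and bound for the inverse of Dirichlet L-functions to small moduli
from the upper bound (adapted by helper39 from `Pool/Agent/Y333/VK/ZfA.lean`, `Zf.lean`).
-/

set_option autoImplicit false

open Complex Filter Topology Set MeasureTheory Metric

namespace Pool.Agent.H13V.LZF

open DirichletCharacter (LFunction)

/-- no zeros near the line -/
lemma zfree : ∃ C0 : ℝ, 0 < C0 ∧ ∀ (q : ℕ) (_ : NeZero q) (χ : DirichletCharacter ℂ q) (w T M Q : ℝ),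
    0 < w → w ≤ 1 / 32 → 1 ≤ T → 1 ≤ M → 1 ≤ Q → C0 ≤ Q →
    Real.log (2 * M / (w / (602 * Q))) + 1 ≤ Q →
    UB (LFunction χ) w T M → UB (LFunction (χ ^ 2)) w T M →
    ∀ ρ : ℂ, LFunction χ ρ = 0 → 3 / 2 ≤ |ρ.im| → |ρ.im| ≤ T + 1 / 4 →
    ρ.re ≤ 1 - w / (4214 * Q) := by
  obtain ⟨K0, hK0, hD⟩ := Pool.Agent.W66.D_re
  have hell := Pool.Agent.W66.one_le_ell 0
  refine ⟨3 * (K0 * Pool.Agent.W66.ell 0), by positivity, ?_⟩
  intro q _ χ w T M Q hw0 hw1 hT hM1 hQ1 hQ3 hlam hU1 hU2 ρ hρ ht1 ht2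
  generalize ht' : ρ.im = t at *
  set η : ℝ := w / (602 * Q) with hη
  have hQ0 : 0 < Q := by linarith
  have hη0 : 0 < η := by positivity
  have hηw : η ≤ w := div_le_self hw0.le (by linarith)
  by_cases hre : ρ.re < 1 - w / 2
  · have h1 : w / (4214 * Q) ≤ w / 2 := div_le_div_of_nonneg_left hw0.le (by norm_num) (by linarith)
    linarith
  push Not at hre
  have hρ1 : ρ ≠ 1 := by
    intro he
    rw [he, one_im] at ht'
    rw [← ht', abs_zero] at ht1
    linarith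
  have hre1 : ρ.re < 1 := by
    by_contra hcon
    exact (nice χ).ne ρ hρ1 (not_lt.1 hcon) hρ
  have h341 := three_four_one χ (σ := 1 + η) (by linarith) t
  have hcr : ∀ v : ℝ, 1 < (⟨1 + η, v⟩ : ℂ).re := fun v => by
    show 1 < 1 + η
    linarith
  rw [Pool.Agent.W66.LSeries_eq_DD (hcr 0), sub_re] at h341
  have d0 := (hD 0 (1 + η) (by linarith) (by linarith)).1
  change _ ≤ (Pool.Agent.W66.DD _).re at d0
  have hball : ρ ∈ closedBall (⟨1 + η, t⟩ : ℂ) (2 * w) := by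
    rw [mem_closedBall, dist_eq_norm]
    have e : ρ - ⟨1 + η, t⟩ = ((ρ.re - (1 + η) : ℝ) : ℂ) := by
      apply Complex.ext <;> simp [ht']
    rw [e, Complex.norm_real, Real.norm_eq_abs, abs_le]
    constructor <;> linarith
  have d1 := (loc (nice χ) hw0 hw1 hT hM1 hU1 ht1 (by linarith) hη0 hηw).2.1 ρ hball hρ
  have h2t : |2 * t| = 2 * |t| := by rw [abs_mul]; norm_num
  have d2 := (loc (nice (χ ^ 2)) hw0 hw1 hT hM1 hU2 (τ := 2 * t) (by rw [h2t]; linarith)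
    (by rw [h2t]; linarith) hη0 hηw).1
  have e0 : (1 / ((⟨1 + η, 0⟩ : ℂ) - 1)).re = 1 / η := by
    have e : (⟨1 + η, 0⟩ : ℂ) - 1 = ((η : ℝ) : ℂ) := by
      apply Complex.ext <;> simp
    rw [e, ← Complex.ofReal_one, ← Complex.ofReal_div, Complex.ofReal_re]
  have e1 : (1 / ((⟨1 + η, t⟩ : ℂ) - ρ)).re = 1 / (1 + η - ρ.re) := by
    have e : (⟨1 + η, t⟩ : ℂ) - ρ = ((1 + η - ρ.re : ℝ) : ℂ) := by
      apply Complex.ext <;> simp [ht']
    rw [e, ← Complex.ofReal_one, ← Complex.ofReal_div, Complex.ofReal_re]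
  rw [e1] at d1
  rw [e0] at h341
  have hE : 12 * (Real.log (2 * M / η) + 1) / w ≤ 60 * (Q / w) := by
    calc 12 * (Real.log (2 * M / η) + 1) / w ≤ 12 * (5 * Q) / w := by
          apply div_le_div_of_nonneg_right _ hw0.le
          linarith
      _ = 60 * (Q / w) := by ring
  have h3η : 1 / η = 602 * (Q / w) := by
    rw [hη]
    field_simp
  have hQw : Q ≤ Q / w := by
    rw [le_div_iff₀ hw0]
    nlinarith
  have hD0 : 0 < 1 + η - ρ.re := by linarith
  have hm : 4 * (1 / (1 + η - ρ.re)) ≤ 2107 * (Q / w) := by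
    linarith
  have hm2 : 4 ≤ 2107 * (Q / w) * (1 + η - ρ.re) := by
    have h1 : 4 * (1 / (1 + η - ρ.re)) = 4 / (1 + η - ρ.re) := by ring
    rw [h1, div_le_iff₀ hD0] at hm
    exact hm
  have hm3 : 4 / 2107 * (w / Q) ≤ 1 + η - ρ.re := by
    have h1 : 2107 * (Q / w) * (4 / 2107 * (w / Q)) = 4 := by
      field_simp
    have h2 : 0 < 2107 * (Q / w) := by positivity
    by_contra hcon
    push Not at hcon
    have := mul_lt_mul_of_pos_left hcon h2
    linarith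
  have e3 : η = 1 / 602 * (w / Q) := by
    rw [hη]
    field_simp
  have e4 : w / (4214 * Q) = 1 / 4214 * (w / Q) := by
    field_simp
  rw [e4]
  have hwQ : 0 < w / Q := by positivity
  linarith

/-- growth along a horizontal segment -/
lemma grow {f : ℂ → ℂ} (hf : Nice f) {σ x1 t G : ℝ} (hσ : σ ≤ x1) (ht : t ≠ 0)
    (h : ∀ x ∈ Icc σ x1, f ⟨x, t⟩ ≠ 0 ∧ ‖deriv f ⟨x, t⟩ / f ⟨x, t⟩‖ ≤ G) :
    ‖f ⟨x1, t⟩‖ ≤ ‖f ⟨σ, t⟩‖ * Real.exp (G * (x1 - σ)) := by
  have hd : ∀ x : ℝ, HasDerivAt (fun x : ℝ => f ⟨x, t⟩) (deriv f ⟨x, t⟩) x := by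
    intro x
    have hne : (⟨x, t⟩ : ℂ) ≠ 1 := by
      intro he
      apply ht
      have := congrArg Complex.im he
      simpa using this
    have h1 := (hf.diff _ hne).hasDerivAt
    have h2 : HasDerivAt (fun x : ℝ => (⟨x, t⟩ : ℂ)) 1 x := by
      have h3 : (fun x : ℝ => (⟨x, t⟩ : ℂ)) = fun x : ℝ => (x : ℂ) + t * I := by
        ext x
        apply Complex.ext <;> simp
      rw [h3]
      exact (HasDerivAt.ofReal_comp (hasDerivAt_id x)).add_const _
    have h3 := HasDerivAt.comp x h1 h2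
    rw [mul_one] at h3
    exact h3
  have hg := norm_le_gronwallBound_of_norm_deriv_right_le (f := fun x : ℝ => f ⟨x, t⟩)
    (f' := fun x => deriv f ⟨x, t⟩) (δ := ‖f ⟨σ, t⟩‖) (K := G) (ε := 0)
    (a := σ) (b := x1) (fun x _ => (hd x).continuousAt.continuousWithinAt)
    (fun x _ => (hd x).hasDerivWithinAt) le_rfl (fun x hx => by
      obtain ⟨h1, h2⟩ := h x ⟨hx.1, hx.2.le⟩
      have h3 : deriv f ⟨x, t⟩ = deriv f ⟨x, t⟩ / f ⟨x, t⟩ * f ⟨x, t⟩ := by
        field_simp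
      rw [add_zero, h3, norm_mul]
      exact mul_le_mul_of_nonneg_right h2 (norm_nonneg _)) x1 ⟨hσ, le_rfl⟩
  rwa [gronwallBound_ε0] at hg

/-- bound at one height -/
lemma bd {f : ℂ → ℂ} (hf : Nice f) {w T M Q t : ℝ} (hw0 : 0 < w) (hw1 : w ≤ 1 / 32) (hT : 1 ≤ T)
    (hM1 : 1 ≤ M) (hU : UB f w T M) (hQ1 : 1 ≤ Q) (ht1 : 3 / 2 ≤ |t|) (ht2 : |t| ≤ 2 * T + 1 / 2)
    (hlam : Real.log (2 * M / (w / (20000 * Q))) + 1 ≤ Q)
    (hz : ∀ ρ : ℂ, f ρ = 0 → |ρ.im - t| ≤ 2 * w → ρ.re ≤ 1 - w / (20000 * Q)) {σ : ℝ}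
    (hσ : 1 - w / (20000 * Q) / 2 ≤ σ) :
    f ⟨σ, t⟩ ≠ 0 ∧ ‖(f ⟨σ, t⟩)⁻¹‖ ≤ Real.exp (6 * Q) * (40000 * Q / w) := by
  have ht0 : t ≠ 0 := by
    intro h0
    rw [h0, abs_zero] at ht1
    linarith
  have hQ0 : 0 < Q := by linarith
  set w1 : ℝ := w / (20000 * Q) with hw1def
  have hw10 : 0 < w1 := by positivity
  have hw1w : w1 ≤ w / 20000 := by
    rw [hw1def]
    exact div_le_div_of_nonneg_left hw0.le (by norm_num) (by linarith)
  have hinv1 : 2 / w1 = 40000 * Q / w := by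
    rw [hw1def]
    field_simp
    norm_num
  have hright : ∀ x : ℝ, 1 + w1 ≤ x → f ⟨x, t⟩ ≠ 0 ∧ ‖(f ⟨x, t⟩)⁻¹‖ ≤ 2 / w1 := by
    intro x hx
    have h1 : 1 < (⟨x, t⟩ : ℂ).re := by
      show 1 < x
      linarith
    have hne : (⟨x, t⟩ : ℂ) ≠ 1 := by
      intro he
      apply ht0
      have := congrArg Complex.im he
      simpa using this
    refine ⟨hf.ne _ hne h1.le, (hf.inv _ h1).trans ?_⟩
    show 1 + 1 / (x - 1) ≤ 2 / w1
    have h2 : 1 / (x - 1) ≤ 1 / w1 := one_div_le_one_div_of_le hw10 (by linarith)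
    have h3 : 1 ≤ 1 / w1 := by
      rw [le_div_iff₀ hw10]
      linarith
    have h4 : 2 / w1 = 1 / w1 + 1 / w1 := by ring
    linarith
  rw [← hinv1]
  have h2w : 0 < 2 / w1 := by positivity
  rcases le_or_gt (1 + w1) σ with hc | hc
  · obtain ⟨h1, h2⟩ := hright σ hc
    refine ⟨h1, h2.trans ?_⟩
    have h3 : 1 ≤ Real.exp (6 * Q) := Real.one_le_exp (by positivity)
    nlinarith
  have hseg : ∀ x ∈ Icc σ (1 + w1), f ⟨x, t⟩ ≠ 0 ∧
      ‖deriv f ⟨x, t⟩ / f ⟨x, t⟩‖ ≤ 4 * Q / w1 := by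
    intro x hx
    obtain ⟨h1, h2⟩ := (loc hf hw0 hw1 hT hM1 hU ht1 ht2 hw10 (by linarith)).2.2 ⟨x, t⟩ (by
      rw [mem_closedBall, dist_eq_norm]
      have e : (⟨x, t⟩ : ℂ) - ⟨1 + w1, t⟩ = ((x - (1 + w1) : ℝ) : ℂ) := by
        apply Complex.ext <;> simp
      rw [e, Complex.norm_real, Real.norm_eq_abs, abs_le]
      constructor <;> linarith [hx.1, hx.2]) (w1 / 2) (by linarith) (by
      intro ρ hρ hρ0
      rw [mem_closedBall, dist_eq_norm] at hρ
      have h2 := (abs_im_le_norm (ρ - ⟨1 + w1, t⟩)).trans hρ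
      rw [sub_im] at h2
      have h3 := hz ρ hρ0 h2
      have h4 := (le_abs_self _).trans (abs_re_le_norm ((⟨x, t⟩ : ℂ) - ρ))
      rw [sub_re] at h4
      have h5 : (⟨x, t⟩ : ℂ).re = x := rfl
      rw [h5] at h4
      linarith [hx.1])
    refine ⟨h1, h2.trans ?_⟩
    have e1 : Real.log (2 * M / w1) * (3 / 2) / (w1 / 2) ≤ 3 * Q / w1 := by
      have h3 : Real.log (2 * M / w1) ≤ Q := by linarith
      calc Real.log (2 * M / w1) * (3 / 2) / (w1 / 2) ≤ Q * (3 / 2) / (w1 / 2) := by gcongr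
        _ = 3 * Q / w1 := by
          field_simp
    have e2 : 12 * (Real.log (2 * M / w1) + 1) / w ≤ Q / w1 := by
      calc 12 * (Real.log (2 * M / w1) + 1) / w ≤ 12 * (1 * Q) / w := by
            apply div_le_div_of_nonneg_right _ hw0.le
            linarith
        _ ≤ 12 * (1 * Q) / (20000 * w1) := by
          apply div_le_div_of_nonneg_left (by positivity) (by positivity)
          linarith
        _ = 12 / 20000 * (Q / w1) := by
          field_simp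
        _ ≤ Q / w1 := by
          have : 0 < Q / w1 := by positivity
          linarith
    have e3 : 4 * Q / w1 = 3 * Q / w1 + Q / w1 := by ring
    rw [e3]
    exact add_le_add e1 e2
  have hg := grow hf hc.le ht0 hseg
  obtain ⟨k1, k2⟩ := hright (1 + w1) le_rfl
  have k3 := (hseg σ ⟨le_rfl, hc.le⟩).1
  refine ⟨k3, ?_⟩
  have hexp2 : Real.exp (4 * Q / w1 * (1 + w1 - σ)) ≤ Real.exp (6 * Q) := by
    apply Real.exp_le_exp.2
    have h1 : 4 * Q / w1 * (1 + w1 - σ) ≤ 4 * Q / w1 * (3 / 2 * w1) :=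
      mul_le_mul_of_nonneg_left (by linarith) (by positivity)
    have h2 : 4 * Q / w1 * (3 / 2 * w1) = 6 * Q := by
      field_simp
      norm_num
    linarith
  have k4 : 0 < ‖f ⟨σ, t⟩‖ := norm_pos_iff.2 k3
  have k5 : 0 < ‖f ⟨1 + w1, t⟩‖ := norm_pos_iff.2 k1
  have k6 : ‖f ⟨1 + w1, t⟩‖ ≤ ‖f ⟨σ, t⟩‖ * Real.exp (6 * Q) :=
    hg.trans (mul_le_mul_of_nonneg_left hexp2 (norm_nonneg _))
  rw [norm_inv] at k2 ⊢
  have k7 : ‖f ⟨σ, t⟩‖⁻¹ ≤ Real.exp (6 * Q) * ‖f ⟨1 + w1, t⟩‖⁻¹ := by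
    rw [inv_eq_one_div, div_le_iff₀ k4]
    have h1 : Real.exp (6 * Q) * ‖f ⟨1 + w1, t⟩‖⁻¹ * ‖f ⟨σ, t⟩‖ =
        (‖f ⟨σ, t⟩‖ * Real.exp (6 * Q)) / ‖f ⟨1 + w1, t⟩‖ := by
      ring
    rw [h1, le_div_iff₀ k5, one_mul]
    exact k6
  exact k7.trans (mul_le_mul_of_nonneg_left k2 (Real.exp_pos _).le)

/-- **LZF** -/
theorem t (h : Pool.Agent.Q236.CR.S_LUP) : Pool.Agent.Q236.CR.S_LZF := by
  intro B
  obtain ⟨δ, K, T₀, hδ0, hδ1, hK, hT₀, h⟩ := h B
  obtain ⟨C0, hC0, hzf⟩ := zfree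
  have hlt : Tendsto Real.log atTop atTop := Real.tendsto_log_atTop
  have hlo : ∀ᶠ L : ℝ in atTop, 1280000 * ((K + 4) * Real.log L) ≤ L ^ (δ / 2) := by
    have h1 := (isLittleO_log_rpow_atTop (half_pos hδ0)).bound
      (show (0 : ℝ) < 1 / (1280000 * (K + 4)) by positivity)
    filter_upwards [h1, eventually_ge_atTop 1] with L h2 h3
    rw [Real.norm_of_nonneg (Real.log_nonneg h3),
      Real.norm_of_nonneg (Real.rpow_nonneg (by linarith) _)] at h2
    have h4 : 1280000 * ((K + 4) * Real.log L) = (1280000 * (K + 4)) * Real.log L := by ring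
    rw [h4]
    calc (1280000 * (K + 4)) * Real.log L ≤
        (1280000 * (K + 4)) * (1 / (1280000 * (K + 4)) * L ^ (δ / 2)) :=
          mul_le_mul_of_nonneg_left h2 (by positivity)
      _ = L ^ (δ / 2) := by
        field_simp
  have hev : ∀ᶠ L : ℝ in atTop, 1280000 ≤ L ∧ 1 ≤ Real.log L ∧
      Real.log 1280000 + 1 ≤ 2 * Real.log L ∧ C0 ≤ Real.log L ∧
      1280000 * ((K + 4) * Real.log L) ≤ L ^ (δ / 2) := by
    filter_upwards [eventually_ge_atTop 1280000, hlt.eventually_ge_atTop 1,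
      hlt.eventually_ge_atTop ((Real.log 1280000 + 1) / 2), hlt.eventually_ge_atTop C0,
      hlo] with L h1 h2 h3 h4 h5
    refine ⟨h1, h2, ?_, h4, h5⟩
    linarith
  obtain ⟨L0, hL0⟩ := eventually_atTop.1 hev
  refine ⟨δ / 2, 6 * (K + 4) + 3, max T₀ (Real.exp L0), by linarith, by linarith, by linarith,
    hT₀.trans (le_max_left _ _), ?_⟩
  intro T hT q _ hq χ s hs1 hs2 hs3 hs4
  have hTT₀ : T₀ ≤ T := (le_max_left _ _).trans hT
  have hT3 : 3 ≤ T := hT₀.trans hTT₀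
  have hLT : L0 ≤ Real.log T := by
    rw [Real.le_log_iff_exp_le (by linarith)]
    exact (le_max_right _ _).trans hT
  obtain ⟨h1, h2, h3, h4, h5⟩ := hL0 _ hLT
  set L : ℝ := Real.log T with hL
  have hL0' : 0 < L := by linarith
  have hL1 : 1 ≤ L := by linarith
  set Q : ℝ := (K + 4) * Real.log L with hQ
  set w : ℝ := L ^ (δ - 1) / 32 with hw
  have hp0 : 0 < L ^ (δ - 1) := Real.rpow_pos_of_pos hL0' _
  have hp1 : L ^ (δ - 1) ≤ 1 := Real.rpow_le_one_of_one_le_of_nonpos hL1 (by linarith)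
  have hw0 : 0 < w := by rw [hw]; linarith
  have hw1 : w ≤ 1 / 32 := by rw [hw]; linarith
  have hM1 : 1 ≤ L ^ K := Real.one_le_rpow hL1 (by linarith)
  have hQlog : Real.log L ≤ Q := by
    rw [hQ]
    nlinarith
  have hQ1 : 1 ≤ Q := by linarith
  have hQC : C0 ≤ Q := by linarith
  have hQ0 : 0 < Q := by linarith
  have hLδ : L ^ (δ / 2) ≤ L := by
    calc L ^ (δ / 2) ≤ L ^ (1 : ℝ) := Real.rpow_le_rpow_of_exponent_le hL1 (by linarith)
      _ = L := Real.rpow_one L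
  have hQL : Q ≤ L := by linarith
  have hlam : Real.log (2 * L ^ K / (w / (20000 * Q))) + 1 ≤ Q := by
    have e : 2 * L ^ K / (w / (20000 * Q)) = 1280000 * Q * L ^ K / L ^ (δ - 1) := by
      rw [hw]
      field_simp
      norm_num
    rw [e, Real.log_div (by positivity) (by positivity), Real.log_mul (by positivity) (by positivity),
      Real.log_mul (by norm_num) (by positivity), Real.log_rpow hL0', Real.log_rpow hL0']
    have h6 : Real.log Q ≤ Real.log L := Real.log_le_log hQ0 hQL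
    have h7 : Q = K * Real.log L + 4 * Real.log L := by rw [hQ]; ring
    have h8 : (δ - 1) * Real.log L ≥ - Real.log L := by nlinarith
    linarith
  have hlam2 : Real.log (2 * L ^ K / (w / (602 * Q))) + 1 ≤ Q := by
    refine le_trans ?_ hlam
    have h6 : Real.log (2 * L ^ K / (w / (602 * Q))) ≤ Real.log (2 * L ^ K / (w / (20000 * Q))) := by
      apply Real.log_le_log (by positivity)
      apply div_le_div_of_nonneg_left (by positivity) (by positivity)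
      apply div_le_div_of_nonneg_left hw0.le (by positivity)
      nlinarith
    linarith
  have hUB : ∀ ψ : DirichletCharacter ℂ q, UB (LFunction ψ) w T (L ^ K) := by
    intro ψ z z1 z2 z3 z4
    refine h T hTT₀ q inferInstance hq ψ z (Or.inr z1) z2 ?_ z4
    have e : 32 * w = L ^ (δ - 1) := by rw [hw]; ring
    rw [e] at z3
    exact z3
  have hz : ∀ ρ : ℂ, LFunction χ ρ = 0 → |ρ.im - s.im| ≤ 2 * w → ρ.re ≤ 1 - w / (20000 * Q) := by
    intro ρ hρ hρt
    have a1 : |s.im| - |ρ.im| ≤ |ρ.im - s.im| := by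
      rw [abs_sub_comm]
      exact abs_sub_abs_le_abs_sub _ _
    have a2 : |ρ.im| - |s.im| ≤ |ρ.im - s.im| := abs_sub_abs_le_abs_sub _ _
    have h6 := hzf q inferInstance χ w T (L ^ K) Q hw0 hw1 (by linarith) hM1 hQ1 hQC hlam2 (hUB χ)
      (hUB (χ ^ 2)) ρ hρ (by linarith) (by linarith)
    refine h6.trans ?_
    have h7 : w / (20000 * Q) ≤ w / (4214 * Q) := by
      apply div_le_div_of_nonneg_left hw0.le (by positivity)
      nlinarith
    linarith
  have hσ : 1 - w / (20000 * Q) / 2 ≤ s.re := by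
    have q1 : L ^ (δ / 2 - 1) ≤ w / (20000 * Q) / 2 := by
      have q2 : w / (20000 * Q) / 2 = L ^ (δ - 1) / (1280000 * Q) := by
        rw [hw]
        field_simp
        norm_num
      rw [q2, le_div_iff₀ (by positivity)]
      have q3 : L ^ (δ - 1) = L ^ (δ / 2 - 1) * L ^ (δ / 2) := by
        rw [← Real.rpow_add hL0']
        congr 1
        ring
      rw [q3]
      exact mul_le_mul_of_nonneg_left h5 (Real.rpow_nonneg hL0'.le _)
    linarith
  obtain ⟨r1, r2⟩ := bd (nice χ) hw0 hw1 (by linarith : (1 : ℝ) ≤ T) hM1 (hUB χ) hQ1 (t := s.im)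
    (by linarith) (by linarith) hlam hz hσ
  have hs : (⟨s.re, s.im⟩ : ℂ) = s := rfl
  rw [hs] at r1 r2
  refine ⟨r1, r2.trans ?_⟩
  have r3 : Real.exp (6 * Q) = L ^ (6 * (K + 4)) := by
    rw [Real.rpow_def_of_pos hL0', hQ]
    congr 1
    ring
  have r4 : 40000 * Q / w ≤ L ^ (3 : ℝ) := by
    rw [div_le_iff₀ hw0]
    have r5 : L ^ (3 : ℝ) * w = L ^ (2 + δ : ℝ) / 32 := by
      rw [hw, mul_div_assoc', ← Real.rpow_add hL0']
      congr 2
      ring
    have r6 : L ^ (2 : ℝ) ≤ L ^ (2 + δ : ℝ) := Real.rpow_le_rpow_of_exponent_le hL1 (by linarith)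
    have r7 : L ^ (2 : ℝ) = L * L := by
      rw [Real.rpow_two]
      ring
    rw [r5]
    rw [r7] at r6
    have r8 : 1280000 * Q ≤ L * L := by nlinarith
    linarith
  calc Real.exp (6 * Q) * (40000 * Q / w) ≤ L ^ (6 * (K + 4)) * L ^ (3 : ℝ) := by
        rw [r3]
        exact mul_le_mul_of_nonneg_left r4 (Real.rpow_nonneg hL0'.le _)
    _ = L ^ (6 * (K + 4) + 3) := by rw [← Real.rpow_add hL0']

end Pool.Agent.H13V.LZF
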