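import Pool.Agent.H13V.StmV
import Pool.Agent.Y957.VK.Fin1

/-!
# Project BH, stub TNB: the bilinear sums with an additional linear phase are small
-/

set_option autoImplicit false

namespace Pool.Agent.H13V.TNB

open Pool.Agent.Y957.VK Finset
open Pool.Agent.Q236.CR (alb S_TNB)
open Pool.Agent.Y70.VK (TT_le pow_le_exp card_good sum_two_mul log_one_add final consts)

/-- the factors for the changed coefficients -/
def TWB : Prop := ∃ C : ℕ, ∀ (N n j r s M : ℕ) (t κ β : ℝ), 2 ≤ N → n ∈ Finset.Icc N (2 * N) → 1 ≤ κ →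
  |t| = (N : ℝ) ^ κ → r = ⌈5 * κ⌉₊ + 5 → s = 9 * r ^ 2 → M = ⌊(N : ℝ) ^ (2 / 5 : ℝ)⌋₊ → j ∈ Finset.Icc 1 r →
  WJ s M j (alb β t n j) ≤ (M : ℝ) ^ (2 * j) * Real.exp (C * (1 + κ) ^ C) ∧
  ((s : ℝ) ≤ 3 * (N : ℝ) ^ (κ / 5) → 2 * κ ≤ j → (j : ℝ) ≤ 3 * κ + 1 / 2 →
    WJ s M j (alb β t n j) ≤ (M : ℝ) ^ (2 * j) *
      (Real.exp (C * (1 + κ) ^ C) * (1 + Real.log N) * (N : ℝ) ^ (-(κ / 5) : ℝ)))

theorem twb (hwb : S_WB) (htw : S_TW) : TWB := by
  obtain ⟨C₀, h⟩ := htw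
  obtain ⟨C, hC⟩ : ∃ C : ℕ, C = C₀ + 1000000 := ⟨_, rfl⟩
  have hCr : (1000000 : ℝ) ≤ C := by
    rw [hC]
    push_cast
    have := Nat.cast_nonneg (α := ℝ) C₀
    linarith
  have hC0 : C ≠ 0 := by omega
  refine ⟨C, ?_⟩
  intro N n j r s M t κ β hN hn hκ ht hr hs hM hj
  have hexp : Real.exp (C₀ * (1 + κ) ^ C₀) ≤ Real.exp (C * (1 + κ) ^ C) := by
    apply Real.exp_le_exp.2
    have h1 : (1 : ℝ) ≤ 1 + κ := by linarith
    have h2 : (C₀ : ℝ) ≤ C := by
      have : C₀ ≤ C := by omega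
      exact_mod_cast this
    have h3 : (1 + κ) ^ C₀ ≤ (1 + κ) ^ C := pow_le_pow_right₀ h1 (by omega)
    exact mul_le_mul h2 h3 (by positivity) (by positivity)
  by_cases hj1 : j = 1
  · subst hj1
    constructor
    · have hNr : (2 : ℝ) ≤ N := by exact_mod_cast hN
      have hx1 : (1 : ℝ) ≤ (N : ℝ) ^ (2 / 5 : ℝ) := Real.one_le_rpow (by linarith) (by norm_num)
      have hM1 : 1 ≤ M := by
        rw [hM]
        exact Nat.le_floor (by exact_mod_cast hx1)
      have hM0 : (1 : ℝ) ≤ M := by exact_mod_cast hM1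
      have hr5 : 5 ≤ r := by omega
      have hs1 : 1 ≤ s := by rw [hs]; nlinarith
      obtain ⟨k, hk⟩ : ∃ k : ℝ, k = 1 + κ := ⟨_, rfl⟩
      rw [← hk]
      have hk1 : 1 ≤ k := by rw [hk]; linarith
      have hrk : (r : ℝ) ≤ 6 * k := by
        have h1 := Nat.ceil_lt_add_one (a := 5 * κ) (by linarith)
        rw [hr]
        push_cast
        rw [hk]
        linarith
      have hr0 : (0 : ℝ) ≤ r := Nat.cast_nonneg r
      have hsr : (s : ℝ) = 9 * (r : ℝ) ^ 2 := by rw [hs]; push_cast; ring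
      have hsk : (s : ℝ) ≤ 324 * k ^ 2 := by rw [hsr]; nlinarith
      have hs0 : (1 : ℝ) ≤ s := by exact_mod_cast hs1
      have hW1 := (hwb s M 1 (alb β t n 1) hs1 hM1).1
      have hVcast : ((s * M ^ 1 : ℕ) : ℝ) = s * (M : ℝ) := by push_cast; ring
      rw [hVcast] at hW1
      have hV1 : 1 ≤ s * (M : ℝ) := one_le_mul_of_one_le_of_one_le hs0 hM0
      have h9 : 9 * (s : ℝ) ^ 2 ≤ Real.exp (C * k ^ C) := by
        have e1 : 9 * (s : ℝ) ^ 2 ≤ 944784 * k ^ 4 := by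
          calc 9 * (s : ℝ) ^ 2 ≤ 9 * (324 * k ^ 2) ^ 2 := by gcongr
            _ = 944784 * k ^ 4 := by ring
        have e2 : k ^ 4 ≤ Real.exp (4 * k) := by
          have h4 : k ≤ Real.exp k := by
            have := Real.add_one_le_exp k
            linarith
          have h5 : Real.exp (4 * k) = Real.exp k ^ 4 := by
            rw [← Real.exp_nat_mul]
            norm_num
          rw [h5]
          exact pow_le_pow_left₀ (by linarith) h4 4
        have e3 : (944784 : ℝ) ≤ Real.exp (944784 * k) := by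
          have := Real.add_one_le_exp (944784 * k)
          nlinarith
        have e4 : 944784 * k ^ 4 ≤ Real.exp (944788 * k) := by
          calc 944784 * k ^ 4 ≤ Real.exp (944784 * k) * Real.exp (4 * k) :=
                mul_le_mul e3 e2 (by positivity) (by positivity)
            _ = Real.exp (944788 * k) := by rw [← Real.exp_add]; ring_nf
        refine e1.trans (e4.trans (Real.exp_le_exp.2 ?_))
        have e5 : k ≤ k ^ C := le_self_pow₀ hk1 hC0
        exact mul_le_mul (by linarith) e5 (by linarith) (by linarith)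
      calc WJ s M 1 (alb β t n 1) ≤ (2 * (s * (M : ℝ)) + 1) ^ 2 := hW1
        _ ≤ (3 * (s * (M : ℝ))) ^ 2 := pow_le_pow_left₀ (by linarith) (by linarith) 2
        _ = (M : ℝ) ^ (2 * 1) * (9 * (s : ℝ) ^ 2) := by ring
        _ ≤ _ := mul_le_mul_of_nonneg_left h9 (by positivity)
    · intro _ h2 _
      push_cast at h2
      linarith
  · have hab : alb β t n j = al t n j := by
      unfold alb
      rw [if_neg hj1, add_zero]
    rw [hab]
    obtain ⟨k1, k2⟩ := h N n j r s M t κ hN hn (by linarith) ht hr hs hM hj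
    have hlog : 0 ≤ Real.log (N : ℝ) := by
      apply Real.log_nonneg
      have : (2 : ℝ) ≤ N := by exact_mod_cast hN
      linarith
    refine ⟨k1.trans (mul_le_mul_of_nonneg_left hexp (by positivity)), fun a1 a2 a3 => (k2 a1 a2 a3).trans ?_⟩
    refine mul_le_mul_of_nonneg_left ?_ (by positivity)
    refine mul_le_mul_of_nonneg_right ?_ (by positivity)
    exact mul_le_mul_of_nonneg_right hexp (by linarith)

theorem tnb (h1 : S_VMVT) (h2 : S_DBL) (h3 : TWB) : S_TNB := by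
  obtain ⟨C1, hV⟩ := h1
  obtain ⟨C0, hW⟩ := h3
  refine ⟨2 * C1 * 153 ^ C1 + 17 * C0 + 28900 + C1 + C0 + 1, 1 / 10 ^ 10, by norm_num,
    by norm_num, ?_⟩
  intro N n t κ β hN hn hκ1 ht
  have hκ : 1 / 2 ≤ κ := by linarith
  obtain ⟨r, hr⟩ : ∃ r : ℕ, r = ⌈5 * κ⌉₊ + 5 := ⟨_, rfl⟩
  obtain ⟨M, hM⟩ : ∃ M : ℕ, M = ⌊(N : ℝ) ^ (2 / 5 : ℝ)⌋₊ := ⟨_, rfl⟩
  rw [← hr, ← hM]
  have hκ0 : 0 < κ := by linarith
  have hNr : (2 : ℝ) ≤ N := by exact_mod_cast hN
  have hN0 : (0 : ℝ) < N := by linarith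
  have hr1 : 5 * κ + 5 ≤ (r : ℝ) := by
    rw [hr]
    push_cast
    have := Nat.le_ceil (5 * κ)
    linarith
  have hr2 : (r : ℝ) ≤ 5 * κ + 6 := by
    rw [hr]
    push_cast
    have := Nat.ceil_lt_add_one (a := 5 * κ) (by linarith)
    linarith
  have hr17 : (r : ℝ) ≤ 17 * κ := by linarith
  have hr0 : (0 : ℝ) ≤ r := Nat.cast_nonneg _
  have hrN : 2 ≤ r := by omega
  have hM1 : 1 ≤ M := by
    rw [hM, Nat.one_le_floor_iff]
    exact Real.one_le_rpow (by linarith) (by norm_num)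
  have hM1r : (1 : ℝ) ≤ M := by exact_mod_cast hM1
  have hMle : (M : ℝ) ≤ (N : ℝ) ^ (2 / 5 : ℝ) := by
    rw [hM]
    exact Nat.floor_le (by positivity)
  obtain ⟨L, hL⟩ : ∃ L : ℝ, L = Real.log N := ⟨_, rfl⟩
  obtain ⟨l, hl⟩ : ∃ l : ℝ, l = Real.log M := ⟨_, rfl⟩
  have hL0 : 0 ≤ L := by rw [hL]; exact Real.log_nonneg (by linarith)
  have hl0 : 0 ≤ l := by rw [hl]; exact Real.log_nonneg hM1r
  have hlL : l ≤ 2 / 5 * L := by
    rw [hl, hL, ← Real.log_rpow hN0]
    exact Real.log_le_log (by linarith) hMle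
  have hexpN : ∀ a : ℝ, (N : ℝ) ^ a = Real.exp (a * L) := by
    intro a
    rw [Real.rpow_def_of_pos hN0, hL, mul_comm]
  have hexpM : (M : ℝ) ^ 2 = Real.exp (2 * l) := by
    rw [hl, mul_comm, Real.exp_mul, Real.exp_log (by linarith)]
    norm_cast
  obtain ⟨C, hC⟩ : ∃ C : ℕ, C = 2 * C1 * 153 ^ C1 + 17 * C0 + 28900 + C1 + C0 + 1 := ⟨_, rfl⟩
  have hcon := consts C0 C1 hκ hr0 hr17
  rw [← hC] at hcon ⊢
  rcases (norm_nonneg (TT r M (alb β t n))).eq_or_lt with hT | hT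
  · rw [← hT]
    positivity
  suffices hmain : Real.log ‖TT r M (alb β t n)‖ ≤
      2 * l + C * (1 + κ) ^ C - 1 / 10 ^ 10 / (1 + κ) ^ 2 * L by
    rw [hexpM, hexpN, ← Real.exp_add, ← Real.exp_add, ← Real.exp_log hT]
    apply Real.exp_le_exp.2
    linarith
  by_cases hs : ((9 * r ^ 2 : ℕ) : ℝ) ≤ 3 * (N : ℝ) ^ (κ / 5)
  · -- main case
    have hJ := hV r (8 * r) M hrN hM1
    have hD := h2 (9 * r ^ 2) r M (alb β t n) (by
      have : 0 < r ^ 2 := by positivity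
      omega) (by omega) hM1
    have hrs : r ^ 2 + r * (8 * r) = 9 * r ^ 2 := by ring
    rw [hrs] at hJ
    obtain ⟨e, he⟩ : ∃ e : ℝ, e = 2 * ((r : ℝ) ^ 2 + r * (8 * r)) - r * (r + 1) / 2 +
      r * (r + 1) / 2 * (1 - 1 / (r : ℝ)) ^ (8 * r) := ⟨_, rfl⟩
    have hJ' : (J (9 * r ^ 2) r M : ℝ) ≤ Real.exp (C1 * ((r : ℝ) + 8 * r) ^ C1) * (M : ℝ) ^ e := by
      rw [he]
      refine hJ.trans (le_of_eq ?_)
      push_cast
      rfl
    have hTpow : 0 < ‖TT r M (alb β t n)‖ ^ (4 * (9 * r ^ 2) ^ 2) := pow_pos hT _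
    have hprod : 0 < (M : ℝ) ^ (8 * (9 * r ^ 2) ^ 2 - 4 * (9 * r ^ 2)) *
        (J (9 * r ^ 2) r M : ℝ) ^ 2 * ∏ j ∈ Finset.Icc 1 r, WJ (9 * r ^ 2) M j (alb β t n j) :=
      hTpow.trans_le hD
    have hJpos : (0 : ℝ) < J (9 * r ^ 2) r M := by
      rcases (Nat.cast_nonneg (α := ℝ) (J (9 * r ^ 2) r M)).eq_or_lt with h | h
      · rw [← h] at hprod
        simp at hprod
      · exact h
    have hWnn : ∀ j, 0 ≤ WJ (9 * r ^ 2) M j (alb β t n j) := by
      intro j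
      unfold WJ
      refine Finset.sum_nonneg fun u _ => ?_
      unfold mn dz
      split_ifs
      · positivity
      · refine le_min (by positivity) ?_
        have := abs_nonneg (alb β t n j * u - round (alb β t n j * u))
        positivity
    have hWpos : ∀ j ∈ Finset.Icc 1 r, 0 < WJ (9 * r ^ 2) M j (alb β t n j) := by
      intro j hj
      rcases (hWnn j).eq_or_lt with h | h
      · rw [Finset.prod_eq_zero hj h.symm, mul_zero] at hprod
        exact absurd hprod (lt_irrefl _)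
      · exact h
    have hlogJ : Real.log (J (9 * r ^ 2) r M : ℝ) ≤ C1 * ((r : ℝ) + 8 * r) ^ C1 + e * l := by
      refine (Real.log_le_log hJpos hJ').trans (le_of_eq ?_)
      rw [Real.log_mul (Real.exp_pos _).ne' (Real.rpow_pos_of_pos (by linarith) _).ne',
        Real.log_exp, Real.log_rpow (by linarith), hl]
    have hlog1L : 0 ≤ Real.log (1 + L) := Real.log_nonneg (by linarith)
    have hlogW : ∀ j ∈ Finset.Icc 1 r, Real.log (WJ (9 * r ^ 2) M j (alb β t n j)) ≤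
        2 * (j : ℝ) * l + C0 * (1 + κ) ^ C0 + Real.log (1 + L) -
          (if 2 * κ ≤ j ∧ (j : ℝ) ≤ 3 * κ + 1 / 2 then κ / 5 * L else 0) := by
      intro j hj
      obtain ⟨k1, k2⟩ := hW N n j r (9 * r ^ 2) M t κ β hN hn hκ1 ht hr rfl hM hj
      have hM2j : Real.log ((M : ℝ) ^ (2 * j)) = 2 * (j : ℝ) * l := by
        rw [Real.log_pow, hl]
        push_cast
        ring
      have hMp : (0 : ℝ) < (M : ℝ) ^ (2 * j) := by positivity
      split_ifs with hg
      · have k3 := k2 hs hg.1 hg.2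
        refine (Real.log_le_log (hWpos j hj) k3).trans (le_of_eq ?_)
        have k4 : (0 : ℝ) < 1 + Real.log N := by rw [← hL]; linarith
        rw [Real.log_mul hMp.ne' (by positivity), Real.log_mul (by positivity) (by positivity),
          Real.log_mul (Real.exp_pos _).ne' k4.ne', Real.log_exp, hM2j, Real.log_rpow hN0, ← hL]
        ring
      · refine (Real.log_le_log (hWpos j hj) k1).trans ?_
        rw [Real.log_mul hMp.ne' (Real.exp_pos _).ne', Real.log_exp, hM2j]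
        linarith
    obtain ⟨g, hg⟩ : ∃ g : ℝ, g = (((Finset.Icc 1 r).filter fun j : ℕ =>
      2 * κ ≤ j ∧ (j : ℝ) ≤ 3 * κ + 1 / 2).card : ℝ) := ⟨_, rfl⟩
    have hsum : ∑ j ∈ Finset.Icc 1 r, Real.log (WJ (9 * r ^ 2) M j (alb β t n j)) ≤
        r * (r + 1) * l + r * (C0 * (1 + κ) ^ C0) + r * Real.log (1 + L) - g * (κ / 5 * L) := by
      refine (Finset.sum_le_sum hlogW).trans (le_of_eq ?_)
      rw [Finset.sum_sub_distrib, Finset.sum_add_distrib, Finset.sum_add_distrib,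
        ← Finset.sum_mul, sum_two_mul, Finset.sum_const, Finset.sum_const, Nat.card_Icc,
        ← Finset.sum_filter, Finset.sum_const, hg]
      simp only [Nat.add_sub_cancel, nsmul_eq_mul]
    have hlogD : ((4 * (9 * r ^ 2) ^ 2 : ℕ) : ℝ) * Real.log ‖TT r M (alb β t n)‖ ≤
        ((8 * (9 * r ^ 2) ^ 2 - 4 * (9 * r ^ 2) : ℕ) : ℝ) * l +
          2 * Real.log (J (9 * r ^ 2) r M : ℝ) +
          ∑ j ∈ Finset.Icc 1 r, Real.log (WJ (9 * r ^ 2) M j (alb β t n j)) := by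
      have k1 := Real.log_le_log hTpow hD
      have k2 : (0 : ℝ) < ∏ j ∈ Finset.Icc 1 r, WJ (9 * r ^ 2) M j (alb β t n j) :=
        Finset.prod_pos hWpos
      rw [Real.log_mul (by positivity) k2.ne', Real.log_mul (by positivity) (by positivity),
        Real.log_pow, Real.log_pow, Real.log_pow, Real.log_prod (fun j hj => (hWpos j hj).ne'),
        ← hl] at k1
      exact_mod_cast k1
    have hcast1 : ((4 * (9 * r ^ 2) ^ 2 : ℕ) : ℝ) = 4 * (9 * (r : ℝ) ^ 2) ^ 2 := by push_cast; ring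
    have hcast2 : ((8 * (9 * r ^ 2) ^ 2 - 4 * (9 * r ^ 2) : ℕ) : ℝ) =
        8 * (9 * (r : ℝ) ^ 2) ^ 2 - 4 * (9 * (r : ℝ) ^ 2) := by
      rw [Nat.cast_sub]
      · push_cast
        ring
      · have k1 : 1 ≤ 9 * r ^ 2 := by
          have : 0 < r ^ 2 := by positivity
          omega
        nlinarith
    rw [hcast1, hcast2] at hlogD
    have hη : r * (r + 1) / 2 * (1 - 1 / (r : ℝ)) ^ (8 * r) ≤ (r : ℝ) * (r + 1) / 2 / 2937 := by
      have k1 := pow_le_exp (r := r) (by omega)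
      calc (r : ℝ) * (r + 1) / 2 * (1 - 1 / (r : ℝ)) ^ (8 * r) ≤
          (r : ℝ) * (r + 1) / 2 * (1 / 2937) := by gcongr
        _ = _ := by ring
    have hfin := final (κ := κ) (L := L) (l := l) (r := r)
      (η := r * (r + 1) / 2 * (1 - 1 / (r : ℝ)) ^ (8 * r)) (g := g)
      (A0 := C0 * (1 + κ) ^ C0) (A1 := C1 * ((r : ℝ) + 8 * r) ^ C1)
      (y := Real.log ‖TT r M (alb β t n)‖) hκ hL0 hl0 hlL hr1 hr2 hη
      (by rw [hg]; exact card_good hκ hr1) (by positivity) (by positivity) (by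
        rw [← he]
        linarith)
    linarith
  · -- small `N`
    push Not at hs
    have k1 : κ / 5 * L ≤ (N : ℝ) ^ (κ / 5) := by
      rw [hexpN]
      have := Real.add_one_le_exp (κ / 5 * L)
      linarith
    have k2 : κ / 5 * L ≤ 9 * (r : ℝ) ^ 2 := by
      push_cast at hs
      have k3 : (0 : ℝ) < (N : ℝ) ^ (κ / 5) := by positivity
      linarith
    have k3 : (r : ℝ) ^ 2 ≤ 289 * κ ^ 2 := by
      calc (r : ℝ) ^ 2 ≤ (17 * κ) ^ 2 := by gcongr
        _ = 289 * κ ^ 2 := by ring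
    have k4 : L ≤ 26010 * (1 + κ) ^ 2 := by
      have k5 : κ / 5 * L ≤ κ / 5 * (13005 * κ) := by
        calc κ / 5 * L ≤ 9 * (289 * κ ^ 2) := by linarith
          _ = κ / 5 * (13005 * κ) := by ring
      have k6 : L ≤ 13005 * κ := le_of_mul_le_mul_left k5 (by positivity)
      nlinarith
    have k5 : 1 / 10 ^ 10 / (1 + κ) ^ 2 * L ≤ 1 := by
      have k6 : (0 : ℝ) < (1 + κ) ^ 2 := by positivity
      rw [div_div, div_mul_eq_mul_div, div_le_one (by positivity)]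
      nlinarith
    have k6 : Real.log ‖TT r M (alb β t n)‖ ≤ 2 * l := by
      refine (Real.log_le_log hT (TT_le _ _ _)).trans (le_of_eq ?_)
      rw [Real.log_pow, hl]
      norm_num
    have k7 : (1 : ℝ) ≤ C * (1 + κ) ^ C := by
      have k8 : (1 : ℝ) ≤ C := by
        have : 1 ≤ C := by omega
        exact_mod_cast this
      have k9 : (1 : ℝ) ≤ (1 + κ) ^ C := one_le_pow₀ (by linarith)
      nlinarith
    linarith


/-- **TNB** -/
theorem t : S_TNB :=
  tnb vmvt_all dbl_all (twb Pool.Agent.Y331.VK.wb (Pool.Agent.Y288.VK.tw Pool.Agent.Y331.VK.wb))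

end Pool.Agent.H13V.TNB
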