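import Pool.Agent.H13V.StmV

/-!
# LAM: twisted sums over primes for characters to small moduli (project BH of helper13)
-/

set_option autoImplicit false

namespace Pool.Agent.H13V.LAM

open Finset
open Pool.Agent.Q236.CR (nt S_CHR S_MOC)

lemma nt_mul (τ : ℝ) (m n : ℕ) : nt τ (m * n) = nt τ m * nt τ n := by
  unfold nt
  rw [Nat.cast_mul, Complex.natCast_mul_natCast_cpow]

lemma norm_nt (τ : ℝ) (n : ℕ) (hn : 1 ≤ n) : ‖nt τ n‖ = 1 := by
  unfold nt
  rw [Complex.norm_natCast_cpow_of_pos hn]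
  simp

/-- powers of the logarithm are small -/
lemma ev (m : ℕ) (c D : ℝ) (hc : 0 < c) : ∃ X₀ : ℕ, ∀ X : ℕ, X₀ ≤ X →
    D * Real.log X ^ m ≤ (X : ℝ) ^ c := by
  have h1 := isLittleO_log_rpow_rpow_atTop (m : ℝ) hc
  have h2 := (h1.bound (show (0 : ℝ) < 1 / (|D| + 1) by positivity))
  have h3 := tendsto_natCast_atTop_atTop (R := ℝ)
  have h4 := h3.eventually h2
  obtain ⟨X₀, h5⟩ := Filter.eventually_atTop.mp h4
  refine ⟨X₀ + 1, fun X hX => ?_⟩
  have h6 := h5 X (by omega)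
  have hX1 : (1 : ℝ) ≤ X := by exact_mod_cast (show 1 ≤ X by omega)
  have hL : 0 ≤ Real.log X := Real.log_nonneg hX1
  rw [Real.rpow_natCast, Real.norm_of_nonneg (pow_nonneg hL m),
    Real.norm_of_nonneg (Real.rpow_nonneg (by linarith) c)] at h6
  have h7 : D * Real.log X ^ m ≤ (|D| + 1) * Real.log X ^ m :=
    mul_le_mul_of_nonneg_right (by linarith [le_abs_self D]) (pow_nonneg hL m)
  have h8 : (|D| + 1) * Real.log X ^ m ≤ (|D| + 1) * (1 / (|D| + 1) * (X : ℝ) ^ c) :=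
    mul_le_mul_of_nonneg_left h6 (by positivity)
  have h9 : (|D| + 1) * (1 / (|D| + 1) * (X : ℝ) ^ c) = (X : ℝ) ^ c := by
    have : (|D| + 1) ≠ 0 := by positivity
    field_simp
  linarith

/-- the logarithm is large -/
lemma evL (D : ℝ) : ∃ X₀ : ℕ, ∀ X : ℕ, X₀ ≤ X → D ≤ Real.log X := by
  have h1 := Real.tendsto_log_atTop.comp (tendsto_natCast_atTop_atTop (R := ℝ))
  have h2 := h1.eventually (Filter.eventually_ge_atTop D)
  exact Filter.eventually_atTop.mp h2

/-- blocks -/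
lemma block (hCHR : S_CHR) (A B K : ℕ) : ∃ C₀ X₀ : ℕ, ∀ X : ℕ, X₀ ≤ X → ∀ (q : ℕ) (_ : NeZero q)
    (χ : DirichletCharacter ℂ q) (τ : ℝ), (q : ℝ) ≤ Real.log X ^ B → Real.log X ^ C₀ ≤ |τ| →
    |τ| ≤ (X : ℝ) ^ A → ∀ N N' : ℕ, (X : ℝ) ^ (2 / 5 : ℝ) ≤ N → N ≤ X → N ≤ N' → N' ≤ 2 * N →
    ‖∑ n ∈ Ioc N N', χ (n : ZMod q) * nt τ n‖ ≤ N / Real.log X ^ K := by
  obtain ⟨⟨C1, c, hc0, hc1, h1⟩, ⟨C2, hC2, h2⟩⟩ := hCHR
  have hA : (0 : ℝ) ≤ A := Nat.cast_nonneg A
  set e1 : ℝ := c / (1 + 3 * A) ^ 2 with he1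
  have he1p : 0 < e1 := by positivity
  obtain ⟨X1, hX1⟩ := ev (B + K) (2 / 5 * e1) (Real.exp (C1 * (1 + 3 * A) ^ C1)) (by positivity)
  obtain ⟨X2, hX2⟩ := evL (4 * C2)
  obtain ⟨X3, hX3⟩ := evL 2
  refine ⟨2 * (B + K + 2), X1 + X2 + X3 + 6, ?_⟩
  intro X hX q hq χ τ hqL hτ1 hτ2 N N' hN hNX hNN hN2
  have hL1 := hX1 X (by omega)
  have hL2 := hX2 X (by omega)
  have hL3 := hX3 X (by omega)
  set L := Real.log X with hL
  have hX0 : (6 : ℝ) ≤ X := by exact_mod_cast (show 6 ≤ X by omega)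
  have hXp : (0 : ℝ) < X := by linarith
  have hLp : (0 : ℝ) < L := by linarith
  have hN2r : (2 : ℝ) ≤ N := by
    have h3 : (2 : ℝ) ≤ (X : ℝ) ^ (2 / 5 : ℝ) := by
      have h4 : (2 : ℝ) = ((2 : ℝ) ^ (5 / 2 : ℝ)) ^ (2 / 5 : ℝ) := by
        rw [← Real.rpow_mul (by norm_num)]
        norm_num
      have h5 : (2 : ℝ) ^ (5 / 2 : ℝ) ≤ 6 := by
        have h6 : (2 : ℝ) ^ (5 / 2 : ℝ) = 4 * √2 := by
          rw [show (5 / 2 : ℝ) = 2 + 1 / 2 by norm_num, Real.rpow_add (by norm_num),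
            ← Real.sqrt_eq_rpow]
          norm_num
        rw [h6]
        have h7 : √(2 : ℝ) ≤ 3 / 2 := by
          rw [Real.sqrt_le_left (by norm_num)]
          norm_num
        linarith
      calc (2 : ℝ) = ((2 : ℝ) ^ (5 / 2 : ℝ)) ^ (2 / 5 : ℝ) := h4
        _ ≤ (X : ℝ) ^ (2 / 5 : ℝ) :=
            Real.rpow_le_rpow (by positivity) (by linarith) (by norm_num)
    linarith
  have hN2n : 2 ≤ N := by exact_mod_cast hN2r
  have hNp : (0 : ℝ) < N := by linarith
  have hlogN : 0 < Real.log N := Real.log_pos (by linarith)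
  have hlogN2 : 2 / 5 * L ≤ Real.log N := by
    have h3 := Real.log_le_log (Real.rpow_pos_of_pos hXp _) hN
    rwa [Real.log_rpow hXp] at h3
  have hlogN3 : Real.log N ≤ L := Real.log_le_log hNp (by exact_mod_cast hNX)
  have hτL : (1 : ℝ) ≤ |τ| := le_trans (one_le_pow₀ (by linarith)) hτ1
  have hτp : (0 : ℝ) < |τ| := by linarith
  have hLK : (0 : ℝ) < L ^ K := pow_pos hLp K
  have hq0 : (0 : ℝ) ≤ q := Nat.cast_nonneg q
  rcases le_or_gt (N : ℝ) |τ| with hcase | hcase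
  · set κ : ℝ := Real.log |τ| / Real.log N with hκ
    have hκ1 : 1 ≤ κ := by
      rw [hκ, le_div_iff₀ hlogN, one_mul]
      exact Real.log_le_log hNp hcase
    have hκ2 : κ ≤ 3 * A := by
      rw [hκ, div_le_iff₀ hlogN]
      have h3 : Real.log |τ| ≤ A * L := by
        have h4 := Real.log_le_log hτp hτ2
        rwa [Real.log_pow] at h4
      have h4 : (A : ℝ) * L ≤ A * (5 / 2 * Real.log N) :=
        mul_le_mul_of_nonneg_left (by linarith) hA
      have h5 : 0 ≤ (A : ℝ) * Real.log N := mul_nonneg hA hlogN.le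
      nlinarith
    have hκ3 : |τ| = (N : ℝ) ^ κ := by
      rw [Real.rpow_def_of_pos hNp, hκ, mul_div_cancel₀ _ hlogN.ne', Real.exp_log hτp]
    have h3 := h1 q hq χ N N' τ κ hN2n hNN hN2 hκ1 hκ3
    refine h3.trans ?_
    have h4 : Real.exp (C1 * (1 + κ) ^ C1) ≤ Real.exp (C1 * (1 + 3 * A) ^ C1) := by
      apply Real.exp_le_exp.mpr
      apply mul_le_mul_of_nonneg_left _ (Nat.cast_nonneg _)
      exact pow_le_pow_left₀ (by linarith) (by linarith) _
    have h5 : (N : ℝ) ^ (1 - c / (1 + κ) ^ 2 : ℝ) ≤ (N : ℝ) ^ (1 - e1 : ℝ) := by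
      apply Real.rpow_le_rpow_of_exponent_le (by linarith)
      have h6 : e1 ≤ c / (1 + κ) ^ 2 := by
        rw [he1]
        apply div_le_div_of_nonneg_left hc0.le (by positivity)
        exact pow_le_pow_left₀ (by linarith) (by linarith) _
      linarith
    have h6 : (N : ℝ) ^ (1 - e1 : ℝ) = N / (N : ℝ) ^ e1 := by
      rw [Real.rpow_sub hNp, Real.rpow_one]
    have h7 : (X : ℝ) ^ (2 / 5 * e1) ≤ (N : ℝ) ^ e1 := by
      rw [Real.rpow_mul hXp.le]
      exact Real.rpow_le_rpow (by positivity) hN he1p.le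
    have hXe : (0 : ℝ) < (X : ℝ) ^ (2 / 5 * e1) := Real.rpow_pos_of_pos hXp _
    have hNe : (0 : ℝ) < (N : ℝ) ^ e1 := Real.rpow_pos_of_pos hNp _
    calc (q : ℝ) * (Real.exp (C1 * (1 + κ) ^ C1) * (N : ℝ) ^ (1 - c / (1 + κ) ^ 2 : ℝ))
        ≤ L ^ B * (Real.exp (C1 * (1 + 3 * A) ^ C1) * (N / (N : ℝ) ^ e1)) := by
          rw [← h6]
          gcongr
      _ ≤ L ^ B * (Real.exp (C1 * (1 + 3 * A) ^ C1) * (N / (X : ℝ) ^ (2 / 5 * e1))) := by
          gcongr
      _ ≤ N / L ^ K := by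
          rw [le_div_iff₀ hLK]
          have h8 : L ^ B * (Real.exp (C1 * (1 + 3 * A) ^ C1) * (N / (X : ℝ) ^ (2 / 5 * e1))) * L ^ K
              = (N / (X : ℝ) ^ (2 / 5 * e1)) * (Real.exp (C1 * (1 + 3 * A) ^ C1) * L ^ (B + K)) := by
            rw [pow_add]; ring
          rw [h8]
          calc (N / (X : ℝ) ^ (2 / 5 * e1)) * (Real.exp (C1 * (1 + 3 * A) ^ C1) * L ^ (B + K))
              ≤ (N / (X : ℝ) ^ (2 / 5 * e1)) * (X : ℝ) ^ (2 / 5 * e1) := by gcongr
            _ = N := by field_simp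
  · have h3 := h2 q hq χ N N' τ (by omega) hNN hN2 hτL
    refine h3.trans ?_
    have hs : 0 < √|τ| := Real.sqrt_pos.mpr hτp
    have h4 : √|τ| ≤ N / √|τ| := by
      rw [le_div_iff₀ hs, Real.mul_self_sqrt hτp.le]
      exact hcase.le
    have h5 : L ^ (B + K + 2) ≤ √|τ| := by
      apply Real.le_sqrt_of_sq_le
      rw [← pow_mul, mul_comm (B + K + 2) 2]
      exact hτ1
    have h6 : 1 + Real.log N ≤ 2 * L := by linarith
    have h7 : C2 * (√|τ| + N / √|τ|) * (1 + Real.log N) ≤ C2 * (2 * (N / L ^ (B + K + 2))) * (2 * L) := by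
      have h8 : (N : ℝ) / √|τ| ≤ N / L ^ (B + K + 2) :=
        div_le_div_of_nonneg_left hNp.le (pow_pos hLp _) h5
      have h9 : √|τ| + N / √|τ| ≤ 2 * (N / L ^ (B + K + 2)) := by linarith
      have h10 : 0 ≤ √|τ| + N / √|τ| := by positivity
      gcongr
    calc (q : ℝ) * (C2 * (√|τ| + N / √|τ|) * (1 + Real.log N))
        ≤ L ^ B * (C2 * (2 * (N / L ^ (B + K + 2))) * (2 * L)) := by gcongr
      _ = (4 * C2) * (N / L ^ (K + 1)) := by
          have : L ≠ 0 := hLp.ne'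
          field_simp
          ring
      _ ≤ L * (N / L ^ (K + 1)) := by gcongr
      _ = N / L ^ K := by
          have : L ≠ 0 := hLp.ne'
          field_simp
          ring

/-- hyperbola rearrangement -/
lemma hyp (N' : ℕ) (g : ℕ → ℕ → ℂ) :
    ∑ n ∈ Icc 1 N', ∑ i ∈ n.divisorsAntidiagonal, g i.1 i.2 =
      ∑ m ∈ Icc 1 N', ∑ l ∈ Icc 1 (N' / m), g m l := by
  rw [sum_sigma', sum_sigma']
  apply sum_nbij' (fun p => (⟨p.2.1, p.2.2⟩ : (_ : ℕ) × ℕ))
    (fun q => (⟨q.1 * q.2, (q.1, q.2)⟩ : (_ : ℕ) × (ℕ × ℕ)))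
  · rintro ⟨n, a, b⟩ h
    simp only [mem_sigma, mem_Icc, Nat.mem_divisorsAntidiagonal] at h
    obtain ⟨⟨h1, h2⟩, h3, h4⟩ := h
    have ha : 0 < a := Nat.pos_of_ne_zero (by rintro rfl; simp at h3; omega)
    have hb : 0 < b := Nat.pos_of_ne_zero (by rintro rfl; simp at h3; omega)
    simp only [mem_sigma, mem_Icc]
    rw [Nat.le_div_iff_mul_le ha]
    have h5 : a ≤ a * b := Nat.le_mul_of_pos_right _ hb
    refine ⟨⟨ha, by omega⟩, hb, ?_⟩
    rw [mul_comm, h3]; exact h2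
  · rintro ⟨a, b⟩ h
    simp only [mem_sigma, mem_Icc] at h
    obtain ⟨⟨h1, h2⟩, h3, h4⟩ := h
    have ha : 0 < a := by omega
    rw [Nat.le_div_iff_mul_le ha] at h4
    simp only [mem_sigma, mem_Icc, Nat.mem_divisorsAntidiagonal]
    have h5 : 0 < a * b := Nat.mul_pos ha (by omega)
    refine ⟨⟨h5, by rw [mul_comm]; exact h4⟩, trivial, h5.ne'⟩
  · rintro ⟨n, a, b⟩ h
    simp only [mem_sigma, mem_Icc, Nat.mem_divisorsAntidiagonal] at h
    obtain ⟨_, h3, _⟩ := h
    simp [h3]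
  · rintro ⟨a, b⟩ _
    rfl
  · rintro ⟨n, a, b⟩ _
    rfl

/-- harmonic sums -/
lemma harm (y : ℕ) (P : ℝ) (hP : 0 ≤ P) : ∑ m ∈ Icc 1 y, P / (m : ℝ) ≤ P * (1 + Real.log y) := by
  have h1 := harmonic_le_one_add_log y
  simp_rw [harmonic_eq_sum_Icc, Rat.cast_sum, Rat.cast_inv, Rat.cast_natCast] at h1
  calc ∑ m ∈ Icc 1 y, P / (m : ℝ) = P * ∑ m ∈ Icc 1 y, (m : ℝ)⁻¹ := by
        rw [Finset.mul_sum]
        exact Finset.sum_congr rfl (fun m _ => div_eq_mul_inv _ _)
    _ ≤ P * (1 + Real.log y) := mul_le_mul_of_nonneg_left h1 hP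

lemma hypb (F H : ℕ → ℂ) (y Z : ℕ) (P Q : ℝ) (hP0 : 0 ≤ P) (hQ0 : 0 ≤ Q)
    (hP : ∀ b, 1 ≤ b → b ≤ Z → b ≤ y → ‖H b‖ * ‖∑ a ∈ Icc 1 (y / b), F a‖ ≤ P / b)
    (hF : ∀ a, 1 ≤ a → ‖F a‖ ≤ 1)
    (hQ : ∀ a, 1 ≤ a → a ≤ y → ‖∑ b ∈ Ioc Z (y / a), H b‖ ≤ Q / a) :
    ‖∑ n ∈ Icc 1 y, ∑ i ∈ n.divisorsAntidiagonal, F i.1 * H i.2‖ ≤ (P + Q) * (1 + Real.log y) := by
  have h1 : ∑ n ∈ Icc 1 y, ∑ i ∈ n.divisorsAntidiagonal, F i.1 * H i.2 =
      ∑ n ∈ Icc 1 y, ∑ i ∈ n.divisorsAntidiagonal, (if i.2 ≤ Z then F i.1 * H i.2 else 0) +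
      ∑ n ∈ Icc 1 y, ∑ i ∈ n.divisorsAntidiagonal, (if Z < i.2 then F i.1 * H i.2 else 0) := by
    rw [← sum_add_distrib]
    refine sum_congr rfl fun n _ => ?_
    rw [← sum_add_distrib]
    refine sum_congr rfl fun i _ => ?_
    by_cases h : i.2 ≤ Z
    · rw [if_pos h, if_neg (by omega), add_zero]
    · rw [if_neg h, if_pos (by omega), zero_add]
  have h2 : ∑ n ∈ Icc 1 y, ∑ i ∈ n.divisorsAntidiagonal, (if i.2 ≤ Z then F i.1 * H i.2 else 0) =
      ∑ m ∈ Icc 1 y, ∑ l ∈ Icc 1 (y / m), (if m ≤ Z then F l * H m else 0) := by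
    rw [← hyp y (fun m l => if m ≤ Z then F l * H m else 0)]
    refine sum_congr rfl fun n _ => ?_
    conv_lhs => rw [← Nat.map_swap_divisorsAntidiagonal, sum_map]
    rfl
  have h3 : ∑ n ∈ Icc 1 y, ∑ i ∈ n.divisorsAntidiagonal, (if Z < i.2 then F i.1 * H i.2 else 0) =
      ∑ m ∈ Icc 1 y, ∑ l ∈ Icc 1 (y / m), (if Z < l then F m * H l else 0) :=
    hyp y (fun m l => if Z < l then F m * H l else 0)
  rw [h1, h2, h3]
  have h4 : ‖∑ m ∈ Icc 1 y, ∑ l ∈ Icc 1 (y / m), (if m ≤ Z then F l * H m else 0)‖ ≤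
      P * (1 + Real.log y) := by
    refine (norm_sum_le _ _).trans ((sum_le_sum fun m hm => ?_).trans (harm y P hP0))
    rw [mem_Icc] at hm
    by_cases h : m ≤ Z
    · simp only [if_pos h]
      rw [← sum_mul, norm_mul, mul_comm]
      exact hP m hm.1 h hm.2
    · simp only [if_neg h, sum_const_zero, norm_zero]
      positivity
  have h5 : ‖∑ m ∈ Icc 1 y, ∑ l ∈ Icc 1 (y / m), (if Z < l then F m * H l else 0)‖ ≤
      Q * (1 + Real.log y) := by
    refine (norm_sum_le _ _).trans ((sum_le_sum fun m hm => ?_).trans (harm y Q hQ0))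
    rw [mem_Icc] at hm
    rw [← sum_filter, ← mul_sum, norm_mul]
    have h6 : (Icc 1 (y / m)).filter (fun l => Z < l) = Ioc Z (y / m) := by
      ext l
      simp only [mem_filter, mem_Icc, mem_Ioc]
      omega
    rw [h6]
    have h7 := hQ m hm.1 hm.2
    have h8 := hF m hm.1
    calc ‖F m‖ * ‖∑ b ∈ Ioc Z (y / m), H b‖ ≤ 1 * ‖∑ b ∈ Ioc Z (y / m), H b‖ :=
          mul_le_mul_of_nonneg_right h8 (norm_nonneg _)
      _ ≤ Q / m := by rw [one_mul]; exact h7
  calc _ ≤ P * (1 + Real.log y) + Q * (1 + Real.log y) := (norm_add_le _ _).trans (add_le_add h4 h5)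
    _ = (P + Q) * (1 + Real.log y) := by ring

/-- partial summation with increasing weights (as in `H373R2/T3/TypeI.lean`) -/
lemma abel_Ioc (a b : ℕ) (hab : a ≤ b) (w : ℕ → ℝ) (z : ℕ → ℂ) (B : ℝ) (hw : Monotone w) (hw0 : ∀ n, 0 ≤ w n)
    (hB : ∀ b', a ≤ b' → b' ≤ b → ‖∑ l ∈ Ioc a b', z l‖ ≤ B) : ‖∑ l ∈ Ioc a b, (w l : ℂ) * z l‖ ≤ 2 * w b * B := by
  have hB0 : 0 ≤ B := le_trans (norm_nonneg _) (hB a le_rfl hab)
  have key : ∀ b', a ≤ b' → b' ≤ b → ‖∑ l ∈ Ioc a b', (w l : ℂ) * z l - (w b' : ℂ) * ∑ l ∈ Ioc a b', z l‖ ≤ (w b' - w a) * B := by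
    intro b' hb'
    induction b', hb' using Nat.le_induction with
    | base => intro _; simp
    | succ c hc ih =>
      intro hcb
      have h1 := ih (by omega)
      rw [sum_Ioc_succ_top hc, sum_Ioc_succ_top hc]
      have h2 : ∑ l ∈ Ioc a c, (w l : ℂ) * z l + (w (c + 1) : ℂ) * z (c + 1) - (w (c + 1) : ℂ) * (∑ l ∈ Ioc a c, z l + z (c + 1)) =
          (∑ l ∈ Ioc a c, (w l : ℂ) * z l - (w c : ℂ) * ∑ l ∈ Ioc a c, z l) - ((w (c + 1) - w c : ℝ) : ℂ) * ∑ l ∈ Ioc a c, z l := by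
        push_cast; ring
      rw [h2]
      refine (norm_sub_le _ _).trans ?_
      rw [norm_mul, Complex.norm_real, Real.norm_of_nonneg (sub_nonneg.2 (hw (Nat.le_succ c)))]
      have h3 : (w (c + 1) - w c) * ‖∑ l ∈ Ioc a c, z l‖ ≤ (w (c + 1) - w c) * B :=
        mul_le_mul_of_nonneg_left (hB c hc (by omega)) (sub_nonneg.2 (hw (Nat.le_succ c)))
      linarith
  have h1 := key b hab le_rfl
  have h2 := hB b hab le_rfl
  have h3 : ‖(w b : ℂ) * ∑ l ∈ Ioc a b, z l‖ ≤ w b * B := by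
    rw [norm_mul, Complex.norm_real, Real.norm_of_nonneg (hw0 b)]
    exact mul_le_mul_of_nonneg_left h2 (hw0 b)
  have h4 : ∑ l ∈ Ioc a b, (w l : ℂ) * z l = (∑ l ∈ Ioc a b, (w l : ℂ) * z l - (w b : ℂ) * ∑ l ∈ Ioc a b, z l) + (w b : ℂ) * ∑ l ∈ Ioc a b, z l := by ring
  rw [h4]
  refine (norm_add_le _ _).trans ?_
  have h5 := mul_nonneg (hw0 a) hB0
  nlinarith

/-- from blocks to long intervals -/
lemma dyad (g : ℕ → ℂ) (Z X : ℕ) (ε : ℝ) (hε : 0 ≤ ε) (hZ : 3 ≤ Z)
    (h : ∀ N N', Z ≤ N → N ≤ X → N ≤ N' → N' ≤ 2 * N → ‖∑ n ∈ Ioc N N', g n‖ ≤ N * ε) :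
    ∀ m, Z ≤ m → m ≤ X → ‖∑ n ∈ Ioc Z m, g n‖ ≤ 2 * m * ε := by
  intro m
  induction m using Nat.strong_induction_on with
  | _ m ih =>
    intro hZm hmX
    have hZr : (Z : ℝ) ≤ m := by exact_mod_cast hZm
    have hmr : (0 : ℝ) ≤ m := Nat.cast_nonneg m
    rcases le_or_gt m (2 * Z) with h1 | h1
    · refine (h Z m le_rfl (by omega) hZm h1).trans ?_
      have : (Z : ℝ) * ε ≤ m * ε := mul_le_mul_of_nonneg_right hZr hε
      have h3 : 0 ≤ (m : ℝ) * ε := mul_nonneg hmr hε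
      linarith
    · set N := (m + 1) / 2 with hN
      have h2 := ih N (by omega) (by omega) (by omega)
      have h3 := h N m (by omega) (by omega) (by omega) (by omega)
      rw [← sum_Ioc_consecutive g (show Z ≤ N by omega) (show N ≤ m by omega)]
      refine (norm_add_le _ _).trans ?_
      have h4 : (3 : ℝ) * N ≤ 2 * m := by
        exact_mod_cast (show 3 * N ≤ 2 * m by omega)
      have h5 : 3 * (N : ℝ) * ε ≤ 2 * m * ε := mul_le_mul_of_nonneg_right h4 hε
      linarith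

/-- the convolution identity with the twist -/
lemma conv {q : ℕ} (χ : DirichletCharacter ℂ q) (τ : ℝ) (n : ℕ) :
    χ (n : ZMod q) * (ArithmeticFunction.vonMangoldt n : ℂ) * nt τ n =
      ∑ i ∈ n.divisorsAntidiagonal,
        (((ArithmeticFunction.moebius i.1 : ℤ) : ℂ) * (χ (i.1 : ZMod q) * nt τ i.1)) *
          ((Real.log i.2 : ℂ) * (χ (i.2 : ZMod q) * nt τ i.2)) := by
  have h1 : (ArithmeticFunction.vonMangoldt n : ℂ) =
      ∑ i ∈ n.divisorsAntidiagonal, ((ArithmeticFunction.moebius i.1 : ℤ) : ℂ) * (Real.log i.2 : ℂ) := by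
    rw [← ArithmeticFunction.moebius_mul_log_eq_vonMangoldt, ArithmeticFunction.mul_apply]
    push_cast
    refine sum_congr rfl fun i _ => ?_
    rw [ArithmeticFunction.log_apply, ArithmeticFunction.intCoe_apply]
    push_cast
    rfl
  rw [h1, mul_sum, sum_mul]
  refine sum_congr rfl fun i hi => ?_
  rw [Nat.mem_divisorsAntidiagonal] at hi
  rw [← hi.1, nt_mul, Nat.cast_mul, map_mul]
  ring

theorem t : S_CHR → S_MOC → S_LAM := by
  intro hCHR hMOC A B K
  obtain ⟨C1, X1, hblock⟩ := block hCHR A B (K + 3)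
  obtain ⟨C2, Cm, hM⟩ := hMOC (3 * A) (B + 1) (K + 3)
  obtain ⟨X2, hX2⟩ := ev (K + 1) (1 / 10) 2 (by norm_num)
  obtain ⟨X3, hX3⟩ := evL (16 + (5 / 2) ^ (B + 1) + 4 * |Cm| * (5 / 2) ^ (K + 3))
  refine ⟨C1 + C2, X1 + X2 + X3 + 100, ?_⟩
  intro X hX q hq χ τ y hqL hτ1 hτ2 hy
  have hL2 := hX2 X (by omega)
  have hL3 := hX3 X (by omega)
  set L := Real.log X with hL
  have hXr : (100 : ℝ) ≤ X := by exact_mod_cast (show 100 ≤ X by omega)
  have hXp : (0 : ℝ) < X := by linarith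
  have hB1 : (0 : ℝ) < (5 / 2) ^ (B + 1) := by positivity
  have hB2 : (0 : ℝ) ≤ 4 * |Cm| * (5 / 2) ^ (K + 3) := by positivity
  have hL16 : 16 ≤ L := by linarith
  have hLB : (5 / 2 : ℝ) ^ (B + 1) ≤ L := by linarith
  have hLC : 4 * |Cm| * (5 / 2) ^ (K + 3) ≤ L := by linarith
  have hLp : 0 < L := by linarith
  have hL1 : 1 ≤ L := by linarith
  have hyX : (y : ℝ) ≤ X := by exact_mod_cast hy
  have hlogy : ∀ n : ℕ, n ≤ X → Real.log n ≤ L := by
    intro n hn
    rcases Nat.eq_zero_or_pos n with h | h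
    · rw [h, Nat.cast_zero, Real.log_zero]; exact hLp.le
    · exact Real.log_le_log (by exact_mod_cast h) (by exact_mod_cast hn)
  have hg1 : ∀ n : ℕ, 1 ≤ n → ‖χ (n : ZMod q) * nt τ n‖ ≤ 1 := by
    intro n hn
    rw [norm_mul, norm_nt τ n hn, mul_one]
    exact DirichletCharacter.norm_le_one χ _
  rcases le_or_gt (y : ℝ) (X / L ^ (K + 1)) with hcase | hcase
  · -- trivial bound
    calc ‖∑ n ∈ Icc 1 y, χ (n : ZMod q) * (ArithmeticFunction.vonMangoldt n : ℂ) * nt τ n‖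
        ≤ ∑ n ∈ Icc 1 y, L := by
          refine (norm_sum_le _ _).trans (sum_le_sum fun n hn => ?_)
          rw [mem_Icc] at hn
          have h1 : χ (n : ZMod q) * (ArithmeticFunction.vonMangoldt n : ℂ) * nt τ n =
              (χ (n : ZMod q) * nt τ n) * (ArithmeticFunction.vonMangoldt n : ℂ) := by ring
          rw [h1, norm_mul, Complex.norm_real,
            Real.norm_of_nonneg ArithmeticFunction.vonMangoldt_nonneg]
          calc ‖χ (n : ZMod q) * nt τ n‖ * ArithmeticFunction.vonMangoldt n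
              ≤ 1 * ArithmeticFunction.vonMangoldt n :=
                mul_le_mul_of_nonneg_right (hg1 n hn.1) ArithmeticFunction.vonMangoldt_nonneg
            _ = ArithmeticFunction.vonMangoldt n := one_mul _
            _ ≤ Real.log n := ArithmeticFunction.vonMangoldt_le_log
            _ ≤ L := hlogy n (by omega)
      _ = y * L := by rw [sum_const, Nat.card_Icc, nsmul_eq_mul, Nat.add_sub_cancel]
      _ ≤ X / L ^ (K + 1) * L := mul_le_mul_of_nonneg_right hcase hLp.le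
      _ = X / L ^ K := by
          have : L ≠ 0 := hLp.ne'
          field_simp
          ring
  · -- the hyperbola method
    set Z := Nat.sqrt X with hZ
    have hsX : √(X : ℝ) = (X : ℝ) ^ (1 / 2 : ℝ) := Real.sqrt_eq_rpow _
    have hsplit : (X : ℝ) ^ (1 / 2 : ℝ) = (X : ℝ) ^ (2 / 5 : ℝ) * (X : ℝ) ^ (1 / 10 : ℝ) := by
      rw [← Real.rpow_add hXp]; norm_num
    have hX25 : 1 ≤ (X : ℝ) ^ (2 / 5 : ℝ) := Real.one_le_rpow (by linarith) (by norm_num)
    have hLK1 : (1 : ℝ) ≤ L ^ (K + 1) := one_le_pow₀ hL1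
    have hLKp : (0 : ℝ) < L ^ (K + 1) := by linarith
    have hX10 : 2 ≤ (X : ℝ) ^ (1 / 10 : ℝ) := by linarith
    have hZ1 : (X : ℝ) ^ (2 / 5 : ℝ) ≤ Z := by
      have h1 : (X : ℝ) < (Z + 1) ^ 2 := by
        have h2 := Nat.lt_succ_sqrt X
        rw [← hZ] at h2
        have h3 : X < (Z + 1) ^ 2 := by rw [sq]; exact h2
        exact_mod_cast h3
      have h2 : √(X : ℝ) ≤ Z + 1 := by
        rw [Real.sqrt_le_left (by positivity)]
        exact h1.le
      rw [hsX, hsplit] at h2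
      nlinarith
    have hZ2 : (Z : ℝ) ≤ √(X : ℝ) := by
      apply Real.le_sqrt_of_sq_le
      have h2 := Nat.sqrt_le' X
      rw [← hZ] at h2
      exact_mod_cast h2
    have hZ3 : 3 ≤ Z := by
      rw [hZ, Nat.le_sqrt]
      omega
    have hZX : Z ≤ X := Nat.sqrt_le_self X
    have hCt : (1 : ℝ) ≤ L := hL1
    have hτC1 : L ^ C1 ≤ |τ| := le_trans (pow_le_pow_right₀ hL1 (by omega)) hτ1
    have hτC2 : L ^ C2 ≤ |τ| := le_trans (pow_le_pow_right₀ hL1 (by omega)) hτ1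
    set g : ℕ → ℂ := fun n => χ (n : ZMod q) * nt τ n with hg
    have hsum : ∑ n ∈ Icc 1 y, χ (n : ZMod q) * (ArithmeticFunction.vonMangoldt n : ℂ) * nt τ n =
        ∑ n ∈ Icc 1 y, ∑ i ∈ n.divisorsAntidiagonal,
          (((ArithmeticFunction.moebius i.1 : ℤ) : ℂ) * g i.1) * ((Real.log i.2 : ℂ) * g i.2) :=
      sum_congr rfl fun n _ => conv χ τ n
    rw [hsum]
    set P : ℝ := |Cm| * (5 / 2) ^ (K + 3) * X / L ^ (K + 2) with hP
    set Q : ℝ := 4 * X / L ^ (K + 2) with hQ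
    have hP0 : 0 ≤ P := by positivity
    have hQ0 : 0 ≤ Q := by positivity
    have hmain := hypb (fun a => ((ArithmeticFunction.moebius a : ℤ) : ℂ) * g a)
      (fun b => (Real.log b : ℂ) * g b) y Z P Q hP0 hQ0 ?_ ?_ ?_
    · refine hmain.trans ?_
      have h1 : 1 + Real.log y ≤ 2 * L := by linarith [hlogy y hy]
      have h2 : P + Q = (|Cm| * (5 / 2) ^ (K + 3) + 4) * (X / L ^ (K + 2)) := by
        rw [hP, hQ]; ring
      calc (P + Q) * (1 + Real.log y) ≤ (P + Q) * (2 * L) :=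
            mul_le_mul_of_nonneg_left h1 (by positivity)
        _ = (2 * |Cm| * (5 / 2) ^ (K + 3) + 8) * (X / L ^ (K + 1)) := by
            rw [h2]
            have : L ≠ 0 := hLp.ne'
            field_simp
            ring
        _ ≤ L * (X / L ^ (K + 1)) := by
            apply mul_le_mul_of_nonneg_right _ (by positivity)
            linarith
        _ = X / L ^ K := by
            have : L ≠ 0 := hLp.ne'
            field_simp
            ring
    · -- small second variable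
      intro b hb1 hbZ hby
      have hbp : (0 : ℝ) < b := by exact_mod_cast hb1
      set N := y / b with hN
      have hNy : N ≤ y := Nat.div_le_self _ _
      have hN1 : (X : ℝ) ^ (2 / 5 : ℝ) ≤ N := by
        have h1 : (y : ℝ) / b < N + 1 := by
          rw [div_lt_iff₀ hbp]
          have h2 : y < (N + 1) * b := by
            rw [hN]
            have := Nat.lt_div_mul_add (a := y) (b := b) (by omega)
            rw [add_mul, one_mul]
            exact this
          exact_mod_cast h2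
        have h2 : (X : ℝ) ^ (1 / 2 : ℝ) / L ^ (K + 1) ≤ y / b := by
          rw [div_le_div_iff₀ hLKp hbp]
          have h3 : (X : ℝ) ≤ y * L ^ (K + 1) := by
            rw [div_lt_iff₀ hLKp] at hcase
            exact hcase.le
          have h4 : (b : ℝ) ≤ (X : ℝ) ^ (1 / 2 : ℝ) := by
            rw [← hsX]
            exact le_trans (by exact_mod_cast hbZ) hZ2
          have h5 : (X : ℝ) ^ (1 / 2 : ℝ) * (X : ℝ) ^ (1 / 2 : ℝ) = X := by
            rw [← Real.rpow_add hXp]; norm_num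
          calc (X : ℝ) ^ (1 / 2 : ℝ) * b ≤ (X : ℝ) ^ (1 / 2 : ℝ) * (X : ℝ) ^ (1 / 2 : ℝ) := by
                gcongr
            _ = X := h5
            _ ≤ y * L ^ (K + 1) := h3
        have h3 : 2 * (X : ℝ) ^ (2 / 5 : ℝ) ≤ (X : ℝ) ^ (1 / 2 : ℝ) / L ^ (K + 1) := by
          rw [le_div_iff₀ hLKp, hsplit]
          nlinarith
        linarith
      have hN2r : (2 : ℝ) ≤ N := by
        have h3 : (2 : ℝ) ≤ (X : ℝ) ^ (2 / 5 : ℝ) := by
          have h4 : (X : ℝ) ^ (1 / 10 : ℝ) ≤ (X : ℝ) ^ (2 / 5 : ℝ) :=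
            Real.rpow_le_rpow_of_exponent_le (by linarith) (by norm_num)
          linarith
        linarith
      have hNp : (0 : ℝ) < N := by linarith
      have hlogN2 : 2 / 5 * L ≤ Real.log N := by
        have h3 := Real.log_le_log (Real.rpow_pos_of_pos hXp _) hN1
        rwa [Real.log_rpow hXp] at h3
      have hlogN3 : Real.log N ≤ L := hlogy N (by omega)
      have hlogNp : 0 < Real.log N := by linarith
      have hMN := hM N q hq χ τ (by exact_mod_cast hN2r) ?_ ?_ ?_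
      · have h1 : ‖(Real.log b : ℂ) * g b‖ ≤ L := by
          rw [norm_mul, Complex.norm_real, Real.norm_of_nonneg (Real.log_nonneg (by exact_mod_cast hb1))]
          calc Real.log b * ‖g b‖ ≤ Real.log b * 1 :=
                mul_le_mul_of_nonneg_left (hg1 b hb1) (Real.log_nonneg (by exact_mod_cast hb1))
            _ = Real.log b := mul_one _
            _ ≤ L := hlogy b (by omega)
        have h2 : ‖∑ a ∈ Icc 1 N, ((ArithmeticFunction.moebius a : ℤ) : ℂ) * g a‖ ≤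
            |Cm| * (5 / 2) ^ (K + 3) * (N / L ^ (K + 3)) := by
          refine hMN.trans ?_
          have h3 : Cm * N / Real.log N ^ (K + 3) ≤ |Cm| * N / Real.log N ^ (K + 3) := by
            gcongr
            exact le_abs_self Cm
          refine h3.trans ?_
          have h4 : (2 / 5 * L) ^ (K + 3) ≤ Real.log N ^ (K + 3) :=
            pow_le_pow_left₀ (by positivity) hlogN2 _
          calc |Cm| * N / Real.log N ^ (K + 3) ≤ |Cm| * N / (2 / 5 * L) ^ (K + 3) := by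
                gcongr
            _ = |Cm| * (5 / 2) ^ (K + 3) * (N / L ^ (K + 3)) := by
                rw [mul_pow, div_pow, div_pow]
                field_simp
        have h5 : (N : ℝ) ≤ X / b := by
          rw [le_div_iff₀ hbp]
          have : N * b ≤ y := Nat.div_mul_le_self y b
          have h6 : (N : ℝ) * b ≤ y := by exact_mod_cast this
          linarith
        calc ‖(Real.log b : ℂ) * g b‖ * ‖∑ a ∈ Icc 1 N, ((ArithmeticFunction.moebius a : ℤ) : ℂ) * g a‖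
            ≤ L * (|Cm| * (5 / 2) ^ (K + 3) * (N / L ^ (K + 3))) := by gcongr
          _ ≤ L * (|Cm| * (5 / 2) ^ (K + 3) * (X / b / L ^ (K + 3))) := by gcongr
          _ = P / b := by
              rw [hP]
              have : L ≠ 0 := hLp.ne'
              field_simp
              ring
      · refine hqL.trans ?_
        calc L ^ B ≤ (L / (5 / 2) ^ (B + 1)) * L ^ B := by
              have h1 : 1 ≤ L / (5 / 2) ^ (B + 1) := by
                rw [one_le_div hB1]; exact hLB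
              have h2 : 0 ≤ L ^ B := by positivity
              nlinarith
          _ = (2 / 5 * L) ^ (B + 1) := by
              rw [mul_pow, div_pow, div_pow]
              field_simp
              ring
          _ ≤ Real.log N ^ (B + 1) := pow_le_pow_left₀ (by positivity) hlogN2 _
      · exact le_trans (pow_le_pow_left₀ hlogNp.le hlogN3 _) hτC2
      · refine hτ2.trans ?_
        have h1 : (X : ℝ) ≤ (N : ℝ) ^ 3 := by
          have h2 : ((X : ℝ) ^ (2 / 5 : ℝ)) ^ 3 ≤ (N : ℝ) ^ 3 := pow_le_pow_left₀ (by positivity) hN1 _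
          have h3 : (X : ℝ) ≤ ((X : ℝ) ^ (2 / 5 : ℝ)) ^ 3 := by
            rw [← Real.rpow_natCast, ← Real.rpow_mul hXp.le]
            calc (X : ℝ) = (X : ℝ) ^ (1 : ℝ) := (Real.rpow_one _).symm
              _ ≤ _ := Real.rpow_le_rpow_of_exponent_le (by linarith) (by norm_num)
          linarith
        calc (X : ℝ) ^ A ≤ ((N : ℝ) ^ 3) ^ A := pow_le_pow_left₀ hXp.le h1 _
          _ = (N : ℝ) ^ (3 * A) := by rw [← pow_mul]
    · -- bound for the Moebius factor
      intro a ha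
      rw [norm_mul]
      have h1 : ‖((ArithmeticFunction.moebius a : ℤ) : ℂ)‖ ≤ 1 := by
        rw [Complex.norm_intCast]
        exact_mod_cast ArithmeticFunction.abs_moebius_le_one
      calc _ ≤ 1 * 1 := mul_le_mul h1 (hg1 a ha) (norm_nonneg _) (by norm_num)
        _ = 1 := one_mul 1
    · -- large second variable
      intro a ha1 hay
      have hap : (0 : ℝ) < a := by exact_mod_cast ha1
      set N := y / a with hN
      have hNy : N ≤ y := Nat.div_le_self _ _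
      rcases Nat.lt_or_ge N Z with hNZ | hNZ
      · rw [Ioc_eq_empty (by omega), sum_empty, norm_zero]
        positivity
      have hd := dyad g Z X (1 / L ^ (K + 3)) (by positivity) hZ3 (by
        intro M M' h1 h2 h3 h4
        have h5 := hblock X (by omega) q hq χ τ hqL hτC1 hτ2 M M'
          (hZ1.trans (by exact_mod_cast h1)) h2 h3 h4
        rw [mul_one_div]
        exact h5)
      have h1 := abel_Ioc Z N hNZ (fun n => Real.log n) g (2 * N * (1 / L ^ (K + 3))) ?_ ?_ ?_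
      · refine h1.trans ?_
        have h5 : (N : ℝ) ≤ X / a := by
          rw [le_div_iff₀ hap]
          have : N * a ≤ y := Nat.div_mul_le_self y a
          have h6 : (N : ℝ) * a ≤ y := by exact_mod_cast this
          linarith
        have h6 : Real.log N ≤ L := hlogy N (by omega)
        have h7 : 0 ≤ Real.log N := Real.log_natCast_nonneg N
        calc 2 * Real.log N * (2 * N * (1 / L ^ (K + 3)))
            ≤ 2 * L * (2 * (X / a) * (1 / L ^ (K + 3))) := by gcongr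
          _ = Q / a := by
              rw [hQ]
              have : L ≠ 0 := hLp.ne'
              field_simp
              ring
      · intro m n hmn
        rcases Nat.eq_zero_or_pos m with h | h
        · simp only [h, Nat.cast_zero, Real.log_zero]
          exact Real.log_natCast_nonneg n
        · exact Real.log_le_log (by exact_mod_cast h) (by exact_mod_cast hmn)
      · intro n
        exact Real.log_natCast_nonneg n
      · intro b' hb1 hb2
        refine (hd b' hb1 (by omega)).trans ?_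
        have : (b' : ℝ) ≤ N := by exact_mod_cast hb2
        gcongr

end Pool.Agent.H13V.LAM
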