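import Pool.Agent.H13V.StmV
import Pool.Agent.Q53.CR.SDB

/-! **RGH**: rough numbers twisted by `n^{-iτ}`, large heights (project BH, helper13). -/

set_option autoImplicit false

namespace Pool.Agent.H13V.RGH

open Finset
open Pool.Agent.Q236.CR (nt)
open Pool.Agent.H469R2.NK (e norm_e)
open Pool.Agent.H373R2.T7

theorem nt_mul (τ : ℝ) (a b : ℕ) : nt τ (a * b) = nt τ a * nt τ b := by
  unfold nt
  rw [Nat.cast_mul]
  exact Complex.natCast_mul_natCast_cpow a b _

theorem norm_term (β τ : ℝ) (n : ℕ) (hn : 1 ≤ n) : ‖e (β * n) * nt τ n‖ = 1 := by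
  rw [norm_mul, norm_e, Pool.Agent.Q53.CR.norm_nt τ n hn, one_mul]

theorem dyad {C : ℝ} (hC : 1 ≤ C) (h : ∀ (N N' : ℕ) (t β : ℝ), 1 ≤ N → N ≤ N' → N' ≤ 2 * N → 1 ≤ |t| →
    ‖∑ n ∈ Finset.Ioc N N', e (β * n) * nt t n‖ ≤ C * (√|t| + N / √|t|) * (1 + Real.log N))
    (β τ : ℝ) (hτ : 1 ≤ |τ|) (W : ℕ) (k : ℕ) : ∀ Y : ℕ, Y ≤ W → Y ≤ 2 ^ k →
    ‖∑ n ∈ Icc 1 Y, e (β * n) * nt τ n‖ ≤ 1 + k * (C * (√|τ| + W / √|τ|) * (1 + Real.log W)) := by
  have hlW : 0 ≤ Real.log W := Real.log_natCast_nonneg W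
  have hD : 0 ≤ C * (√|τ| + W / √|τ|) * (1 + Real.log W) := by positivity
  have small : ∀ Y : ℕ, Y ≤ 1 → ‖∑ n ∈ Icc 1 Y, e (β * n) * nt τ n‖ ≤ 1 := by
    intro Y hY
    rcases Nat.lt_or_ge Y 1 with h1 | h1
    · have : Y = 0 := by omega
      subst this
      simp
    · have : Y = 1 := by omega
      subst this
      rw [Icc_self, sum_singleton, norm_term β τ 1 le_rfl]
  induction k with
  | zero =>
    intro Y _ hY
    rw [pow_zero] at hY
    have := small Y hY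
    simpa using this
  | succ k ih =>
    intro Y hYW hY
    rcases Nat.lt_or_ge 1 Y with h1 | h1
    · set N := (Y + 1) / 2 with hN
      have hN1 : 1 ≤ N := by omega
      have hNY : N ≤ Y := by omega
      have hYN : Y ≤ 2 * N := by omega
      have hNk : N ≤ 2 ^ k := by
        rw [pow_succ] at hY
        omega
      have e1 : ∑ n ∈ Icc 1 Y, e (β * n) * nt τ n =
          ∑ n ∈ Icc 1 N, e (β * n) * nt τ n + ∑ n ∈ Ioc N Y, e (β * n) * nt τ n := by
        have h2 : ∀ y : ℕ, Icc 1 y = Ioc 0 y := fun y => by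
          ext a; simp only [mem_Icc, mem_Ioc]; omega
        rw [h2, h2]
        exact (sum_Ioc_consecutive _ (Nat.zero_le _) hNY).symm
      rw [e1]
      refine (norm_add_le _ _).trans ?_
      have h2 := ih N (hNY.trans hYW) hNk
      have h3 := h N Y τ β hN1 hNY hYN hτ
      have hNW : (N : ℝ) ≤ W := by exact_mod_cast hNY.trans hYW
      have hN0 : (0 : ℝ) < N := by exact_mod_cast hN1
      have h4 : C * (√|τ| + N / √|τ|) * (1 + Real.log N) ≤ C * (√|τ| + W / √|τ|) * (1 + Real.log W) := by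
        have h5 : Real.log N ≤ Real.log W := Real.log_le_log hN0 hNW
        have h6 : 0 ≤ Real.log N := Real.log_natCast_nonneg N
        gcongr
      push_cast
      linarith
    · have := small Y h1
      have h2 : 0 ≤ ((k + 1 : ℕ) : ℝ) * (C * (√|τ| + W / √|τ|) * (1 + Real.log W)) := by positivity
      linarith

theorem sum_dvd {M : Type*} [AddCommMonoid M] (y P : ℕ) (hP : 1 ≤ P) (w : ℕ → M) :
    ∑ n ∈ Icc 1 y, (if P ∣ n then w n else 0) = ∑ m ∈ Icc 1 (y / P), w (P * m) := by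
  rw [← sum_filter]
  symm
  apply sum_nbij' (fun m => P * m) (fun n => n / P)
  · intro m hm
    rw [mem_Icc] at hm
    rw [mem_filter, mem_Icc]
    refine ⟨⟨?_, ?_⟩, dvd_mul_right _ _⟩
    · exact Nat.mul_pos hP hm.1
    · rw [mul_comm]; exact (Nat.le_div_iff_mul_le hP).1 hm.2
  · intro n hn
    rw [mem_filter, mem_Icc] at hn
    rw [mem_Icc]
    obtain ⟨⟨h1, h2⟩, m, rfl⟩ := hn
    rw [Nat.mul_div_cancel_left _ hP]
    refine ⟨?_, ?_⟩
    · rcases Nat.eq_zero_or_pos m with h | h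
      · rw [h] at h1; omega
      · exact h
    · rw [Nat.le_div_iff_mul_le hP, mul_comm]; exact h2
  · intro m _
    exact Nat.mul_div_cancel_left _ hP
  · intro n hn
    rw [mem_filter] at hn
    exact Nat.mul_div_cancel' hn.2
  · intro m _
    rfl

theorem bonf_sum (y z r : ℕ) (w : ℕ → ℂ) (hw : ∀ n ∈ Icc 1 y, ‖w n‖ ≤ 1) :
    ‖∑ n ∈ Icc 1 y, (if ∀ p ∈ pz z, ¬ p ∣ n then w n else 0)‖ ≤
      ∑ j ∈ range r, ∑ S ∈ (pz z).powersetCard j, ‖∑ n ∈ Icc 1 y, if (∏ p ∈ S, p) ∣ n then w n else 0‖ +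
      ∑ S ∈ (pz z).powersetCard r, ((y / ∏ p ∈ S, p : ℕ) : ℝ) := by
  classical
  set T := pz z with hT
  have hprime : ∀ j, ∀ S ∈ T.powersetCard j, ∀ p ∈ S, p.Prime := fun j S hS p hp =>
    (mem_pz.1 ((mem_powersetCard.1 hS).1 hp)).2
  have key : ∀ n : ℕ, |(if ∀ p ∈ T, ¬ p ∣ n then (1 : ℝ) else 0) -
      ∑ j ∈ range r, (-1 : ℝ) ^ j * ∑ S ∈ T.powersetCard j, if (∏ p ∈ S, p) ∣ n then (1 : ℝ) else 0| ≤
      ∑ S ∈ T.powersetCard r, if (∏ p ∈ S, p) ∣ n then (1 : ℝ) else 0 := by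
    intro n
    have h := bonf_ind (fun p n => p ∣ n) T r n
    have h2 : ∀ j, ∑ S ∈ T.powersetCard j, (if ∀ p ∈ S, p ∣ n then (1 : ℝ) else 0) =
        ∑ S ∈ T.powersetCard j, if (∏ p ∈ S, p) ∣ n then (1 : ℝ) else 0 := by
      intro j
      apply sum_congr rfl
      intro S hS
      have := prod_dvd_iff S (hprime j S hS) n
      simp only [this]
    rw [← h2 r, ← sum_congr rfl (fun j _ => by rw [h2 j] :
      ∀ j ∈ range r, (-1 : ℝ) ^ j * ∑ S ∈ T.powersetCard j, (if ∀ p ∈ S, p ∣ n then (1 : ℝ) else 0) =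
        (-1 : ℝ) ^ j * ∑ S ∈ T.powersetCard j, if (∏ p ∈ S, p) ∣ n then (1 : ℝ) else 0)]
    convert h
  set J : Finset ℕ → ℕ → ℝ := fun S n => if (∏ p ∈ S, p) ∣ n then (1 : ℝ) else 0 with hJ
  set A : ℕ → ℝ := fun n => (if ∀ p ∈ T, ¬ p ∣ n then (1 : ℝ) else 0) with hA
  set B : ℕ → ℝ := fun n => ∑ j ∈ range r, (-1 : ℝ) ^ j * ∑ S ∈ T.powersetCard j, J S n with hB
  have e1 : ∑ n ∈ Icc 1 y, (if ∀ p ∈ T, ¬ p ∣ n then w n else 0) =
      ∑ n ∈ Icc 1 y, ((A n - B n : ℝ) : ℂ) * w n + ∑ n ∈ Icc 1 y, (B n : ℂ) * w n := by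
    rw [← sum_add_distrib]
    apply sum_congr rfl
    intro n _
    rw [← add_mul, ← Complex.ofReal_add, sub_add_cancel, hA]
    dsimp only
    split_ifs <;> simp
  rw [e1]
  refine (norm_add_le _ _).trans ?_
  rw [add_comm]
  apply add_le_add
  · have e2 : ∑ n ∈ Icc 1 y, (B n : ℂ) * w n =
        ∑ j ∈ range r, (-1 : ℂ) ^ j * ∑ S ∈ T.powersetCard j, ∑ n ∈ Icc 1 y, if (∏ p ∈ S, p) ∣ n then w n else 0 := by
      have h1 : ∀ n ∈ Icc 1 y, (B n : ℂ) * w n =
          ∑ j ∈ range r, (-1 : ℂ) ^ j * ∑ S ∈ T.powersetCard j, (if (∏ p ∈ S, p) ∣ n then w n else 0) := by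
        intro n _
        rw [hB]
        dsimp only
        rw [Complex.ofReal_sum, sum_mul]
        apply sum_congr rfl
        intro j _
        rw [Complex.ofReal_mul, Complex.ofReal_sum, mul_assoc, sum_mul]
        congr 1
        · push_cast; ring
        · apply sum_congr rfl
          intro S _
          rw [hJ]
          dsimp only
          split_ifs <;> simp
      rw [sum_congr rfl h1, sum_comm]
      apply sum_congr rfl
      intro j _
      rw [← mul_sum, sum_comm]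
    rw [e2]
    refine (norm_sum_le _ _).trans (sum_le_sum fun j _ => ?_)
    rw [norm_mul, norm_pow, norm_neg, norm_one, one_pow, one_mul]
    exact norm_sum_le _ _
  · refine (norm_sum_le _ _).trans ?_
    have h1 : ∀ n ∈ Icc 1 y, ‖((A n - B n : ℝ) : ℂ) * w n‖ ≤ ∑ S ∈ T.powersetCard r, J S n := by
      intro n hn
      rw [norm_mul, Complex.norm_real, Real.norm_eq_abs]
      calc |A n - B n| * ‖w n‖ ≤ |A n - B n| * 1 := by
            apply mul_le_mul_of_nonneg_left (hw n hn) (abs_nonneg _)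
        _ = |A n - B n| := mul_one _
        _ ≤ _ := key n
    refine (sum_le_sum h1).trans ?_
    rw [sum_comm]
    apply le_of_eq
    apply sum_congr rfl
    intro S hS
    have hP : 1 ≤ ∏ p ∈ S, p := Nat.one_le_iff_ne_zero.2 (prod_ne_zero_iff.2 fun p hp => (hprime r S hS p hp).ne_zero)
    have h2 := sum_dvd y (∏ p ∈ S, p) hP (fun _ => (1 : ℝ))
    rw [hJ]
    dsimp only
    rw [h2]
    simp

theorem sum_small_le (T : Finset ℕ) (r : ℕ) (f : Finset ℕ → ℝ) (hf : ∀ S, 0 ≤ f S) :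
    ∑ j ∈ range r, ∑ S ∈ T.powersetCard j, f S ≤ ∑ S ∈ T.powerset, f S := by
  classical
  rw [← sum_biUnion]
  · apply sum_le_sum_of_subset_of_nonneg
    · intro S hS
      rw [mem_biUnion] at hS
      obtain ⟨j, _, hj⟩ := hS
      exact mem_powerset.2 (mem_powersetCard.1 hj).1
    · intro S _ _
      exact hf S
  · intro i _ j _ hij
    exact T.pairwise_disjoint_powersetCard hij

theorem sum_inv_le (z r : ℕ) :
    ∑ j ∈ range r, ∑ S ∈ (pz z).powersetCard j, ∏ p ∈ S, (1 / (p : ℝ)) ≤ 3 * (z + 1) := by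
  have h1 : ∑ j ∈ range r, ∑ S ∈ (pz z).powersetCard j, ∏ p ∈ S, (1 / (p : ℝ)) ≤
      ∑ S ∈ (pz z).powerset, ∏ p ∈ S, (1 / (p : ℝ)) :=
    sum_small_le (pz z) r (fun S => ∏ p ∈ S, (1 / (p : ℝ))) (fun S => prod_nonneg fun p _ => by positivity)
  refine h1.trans ?_
  rw [← prod_one_add]
  have h2 : ∏ p ∈ pz z, (1 + 1 / (p : ℝ)) ≤ Real.exp (∑ p ∈ pz z, 1 / (p : ℝ)) := by
    rw [Real.exp_sum]
    apply prod_le_prod
    · intro p _; positivity
    · intro p _
      have := Real.add_one_le_exp (1 / (p : ℝ))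
      linarith
  refine h2.trans ((Real.exp_le_exp.2 (sum_pz_le z)).trans ?_)
  rw [Real.exp_add]
  have h3 : Real.exp 1 ≤ 3 := by linarith [Real.exp_one_lt_d9]
  have h4 : Real.exp (Real.log z) ≤ z + 1 := by
    rcases Nat.eq_zero_or_pos z with h | h
    · rw [h]; simp
    · rw [Real.exp_log (by exact_mod_cast h)]; linarith
  exact mul_le_mul h3 h4 (Real.exp_pos _).le (by norm_num)

theorem t : S_RGH := by
  intro E K
  obtain ⟨C, hC, hS⟩ := Pool.Agent.Q53.CR.sdb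
  obtain ⟨N0, h0⟩ := choice 1 E (E + K + 1) 4
  obtain ⟨n1, h1⟩ := ev_log' (2 * (E + K + 2)) ((21 * C) ^ 2)
  obtain ⟨n2, h2⟩ := ev_L' (108 * C + 3)
  refine ⟨2 * (2 * E + K + 3), max (max N0 n1) (max n2 1), fun X hX z hz β τ hτ1 hτ2 y hy => ?_⟩
  have a0 := h0 X (le_trans (le_trans (le_max_left _ _) (le_max_left _ _)) hX) z hz
  have a1 := h1 X (le_trans (le_trans (le_max_right _ _) (le_max_left _ _)) hX)
  have hL := h2 X (le_trans (le_trans (le_max_left _ _) (le_max_right _ _)) hX)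
  have hX1 : 1 ≤ X := le_trans (le_trans (le_max_right _ _) (le_max_right _ _)) hX
  have hX0 : (0 : ℝ) < X := by exact_mod_cast hX1
  set L := Real.log X with hLd
  have hL3 : 3 ≤ L := by linarith
  have hL0 : 0 < L := by linarith
  have hL1 : 1 ≤ L := by linarith
  obtain ⟨r, hr1, hr2, -⟩ := a0
  -- the number of dyadic steps
  set k := ⌈2 * L⌉₊ with hk
  have hkL : (k : ℝ) ≤ 3 * L := by
    have := (Nat.ceil_lt_add_one (show 0 ≤ 2 * L by positivity)).le
    linarith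
  have hXk : X ≤ 2 ^ k := by
    have h3 : (X : ℝ) ≤ 2 ^ k := by
      have h4 : 2 * L ≤ (k : ℝ) := Nat.le_ceil _
      have h5 : (1 : ℝ) / 2 ≤ Real.log 2 := by have := Real.log_two_gt_d9; linarith
      rw [← Real.log_le_log_iff hX0 (by positivity), Real.log_pow]
      have h6 : L ≤ (k : ℝ) * (1 / 2) := by linarith
      refine h6.trans ?_
      gcongr
    exact_mod_cast h3
  -- the height
  have hτ3 : 1 ≤ |τ| := le_trans (one_le_pow₀ hL1) hτ1
  have hs0 : 0 < √|τ| := Real.sqrt_pos.2 (by linarith)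
  have hs1 : L ^ (2 * E + K + 3) ≤ √|τ| := by
    apply Real.le_sqrt_of_sq_le
    rw [← pow_mul, mul_comm (2 * E + K + 3) 2]
    exact hτ1
  have hs2 : √|τ| ≤ √X := Real.sqrt_le_sqrt hτ2
  have hyX : (y : ℝ) ≤ X := by exact_mod_cast hy
  -- weight
  set w : ℕ → ℂ := fun n => e (β * n) * nt τ n with hwd
  have hw : ∀ n ∈ Icc 1 y, ‖w n‖ ≤ 1 := by
    intro n hn
    rw [hwd]
    exact (norm_term β τ n (mem_Icc.1 hn).1).le
  have e1 : ∑ n ∈ Icc 1 y, (lamz z n : ℂ) * e (β * n) * nt τ n =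
      (((Vz z)⁻¹ : ℝ) : ℂ) * ∑ n ∈ Icc 1 y, (if ∀ p ∈ pz z, ¬ p ∣ n then w n else 0) := by
    rw [mul_sum]
    apply sum_congr rfl
    intro n _
    unfold lamz
    rw [hwd]
    dsimp only
    split_ifs
    · ring
    · simp
  rw [e1, norm_mul, Complex.norm_real, Real.norm_of_nonneg (inv_pos.2 (Vz_pos z)).le]
  have hV : (Vz z)⁻¹ ≤ L ^ E := by
    rcases Nat.eq_zero_or_pos z with h | h
    · have : Vz z = 1 := by
        have h3 : pz z = ∅ := by
          rw [h]; rfl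
        unfold Vz
        rw [h3, prod_empty]
      rw [this, inv_one]
      exact one_le_pow₀ hL1
    · exact (Vz_inv_le z h).trans hz
  have hb := bonf_sum y z r w hw
  -- the tail
  have ht : ∑ S ∈ (pz z).powersetCard r, ((y / ∏ p ∈ S, p : ℕ) : ℝ) ≤ X / L ^ (E + K + 1) := by
    have h3 : ∑ S ∈ (pz z).powersetCard r, ((y / ∏ p ∈ S, p : ℕ) : ℝ) ≤
        X * es (fun p => 1 / (p : ℝ)) (pz z) r := by
      unfold es
      rw [mul_sum]
      apply sum_le_sum
      intro S _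
      refine Nat.cast_div_le.trans ?_
      rw [prod_div_distrib, prod_const_one, Nat.cast_prod, mul_one_div]
      gcongr
    refine h3.trans ?_
    have h4 := es_le (x := fun p : ℕ => 1 / (p : ℝ)) (T := pz z) (fun p _ => by positivity) r
    have h5 : Real.exp (3 * ∑ p ∈ pz z, 1 / (p : ℝ) - r) ≤ 1 / L ^ (E + K + 1) := by
      refine le_trans (Real.exp_le_exp.2 ?_) hr1
      have := sum_pz_le z
      push_cast
      linarith
    calc (X : ℝ) * es (fun p => 1 / (p : ℝ)) (pz z) r ≤ X * (1 / L ^ (E + K + 1)) :=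
          mul_le_mul_of_nonneg_left (h4.trans h5) hX0.le
      _ = _ := by rw [mul_one_div]
  -- the main part
  set D : ℝ := 6 * C * L ^ 2 with hD
  have hD0 : 0 ≤ D := by positivity
  have hinner : ∀ j, ∀ S ∈ (pz z).powersetCard j,
      ‖∑ n ∈ Icc 1 y, if (∏ p ∈ S, p) ∣ n then w n else 0‖ ≤
        (1 + D * √X) + D * (X / √|τ|) * ∏ p ∈ S, (1 / (p : ℝ)) := by
    intro j S hSj
    set P := ∏ p ∈ S, p with hP
    have hP1 : 1 ≤ P := Nat.one_le_iff_ne_zero.2 (prod_ne_zero_iff.2 fun p hp =>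
      (mem_pz.1 ((mem_powersetCard.1 hSj).1 hp)).2.ne_zero)
    have hP0 : (0 : ℝ) < P := by exact_mod_cast hP1
    rw [sum_dvd y P hP1 w]
    have h3 : ∑ m ∈ Icc 1 (y / P), w (P * m) = nt τ P * ∑ m ∈ Icc 1 (y / P), e ((β * P) * m) * nt τ m := by
      rw [mul_sum]
      apply sum_congr rfl
      intro m _
      rw [hwd]
      dsimp only
      rw [nt_mul]
      push_cast
      rw [← mul_assoc β]
      ring
    rw [h3, norm_mul, Pool.Agent.Q53.CR.norm_nt τ P hP1, one_mul]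
    have hWX : y / P ≤ X := (Nat.div_le_self _ _).trans hy
    have h4 := dyad hC hS (β * P) τ hτ3 (y / P) k (y / P) le_rfl (hWX.trans hXk)
    refine h4.trans ?_
    have h5 : ((y / P : ℕ) : ℝ) ≤ X / P := by
      refine Nat.cast_div_le.trans ?_
      gcongr
    have h6 : Real.log ((y / P : ℕ) : ℝ) ≤ L := by
      rcases Nat.eq_zero_or_pos (y / P) with h | h
      · rw [h]; simp; exact hL0.le
      · exact Real.log_le_log (by exact_mod_cast h) (by exact_mod_cast hWX)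
    have h7 : 0 ≤ Real.log ((y / P : ℕ) : ℝ) := Real.log_natCast_nonneg _
    have h8 : ∏ p ∈ S, (1 / (p : ℝ)) = 1 / P := by
      rw [prod_div_distrib, prod_const_one, hP, Nat.cast_prod]
    rw [h8]
    have h9 : (k : ℝ) * (C * (√|τ| + ((y / P : ℕ) : ℝ) / √|τ|) * (1 + Real.log ((y / P : ℕ) : ℝ))) ≤
        (3 * L) * (C * (√X + (X / P) / √|τ|) * (L + L)) := by
      gcongr
    refine (add_le_add_right h9 1).trans ?_
    apply le_of_eq
    rw [hD]
    field_simp
    ring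
  have hcount : ∑ j ∈ range r, ∑ S ∈ (pz z).powersetCard j, (1 : ℝ) ≤ ((z : ℝ) + 1) ^ r := by
    have h3 : ∑ j ∈ range r, ∑ S ∈ (pz z).powersetCard j, (1 : ℝ) ≤
        ∑ j ∈ range (r + 1), ∑ S ∈ (pz z).powersetCard j, (1 : ℝ) := by
      rw [sum_range_succ]
      have : 0 ≤ ∑ S ∈ (pz z).powersetCard r, (1 : ℝ) := sum_nonneg fun _ _ => zero_le_one
      linarith
    have h4 : ∑ j ∈ range (r + 1), ∑ S ∈ (pz z).powersetCard j, (1 : ℝ) =
        ((∑ j ∈ range (r + 1), ((pz z).powersetCard j).card : ℕ) : ℝ) := by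
      push_cast
      apply sum_congr rfl
      intro j _
      rw [sum_const, nsmul_eq_mul, mul_one]
    rw [h4] at h3
    refine h3.trans ((card_small (pz z) r).trans ?_)
    have h7 : ((pz z).card : ℝ) ≤ z := by exact_mod_cast card_pz_le z
    gcongr
  have hmain : ∑ j ∈ range r, ∑ S ∈ (pz z).powersetCard j, ‖∑ n ∈ Icc 1 y, if (∏ p ∈ S, p) ∣ n then w n else 0‖ ≤
      ((z : ℝ) + 1) ^ r * (1 + D * √X) + D * (X / √|τ|) * (3 * (z + 1)) := by
    refine (sum_le_sum fun j _ => sum_le_sum fun S hSj => hinner j S hSj).trans ?_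
    have h3 : ∑ j ∈ range r, ∑ S ∈ (pz z).powersetCard j,
        ((1 + D * √X) + D * (X / √|τ|) * ∏ p ∈ S, (1 / (p : ℝ))) =
        (1 + D * √X) * ∑ j ∈ range r, ∑ S ∈ (pz z).powersetCard j, (1 : ℝ) +
        D * (X / √|τ|) * ∑ j ∈ range r, ∑ S ∈ (pz z).powersetCard j, ∏ p ∈ S, (1 / (p : ℝ)) := by
      simp only [sum_add_distrib, mul_sum, mul_one]
    rw [h3]
    have h4 := sum_inv_le z r
    have h5 : 0 ≤ 1 + D * √X := by positivity
    have h6 : 0 ≤ D * (X / √|τ|) := by positivity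
    have h7 := mul_le_mul_of_nonneg_left hcount h5
    have h8 := mul_le_mul_of_nonneg_left h4 h6
    rw [mul_comm (((z : ℝ) + 1) ^ r)]
    exact add_le_add h7 h8
  -- final estimates
  have hsX : 1 ≤ √(X : ℝ) := by
    rw [Real.one_le_sqrt]
    exact_mod_cast hX1
  have hXX : √(X : ℝ) * √(X : ℝ) = X := Real.mul_self_sqrt hX0.le
  have f1 : L ^ E * (((z : ℝ) + 1) ^ r * (1 + D * √X)) ≤ X / L ^ K / 3 := by
    have g1 : 1 + D * √X ≤ 7 * C * L ^ 2 * √X := by
      have : 1 ≤ C * L ^ 2 * √X := by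
        have := one_le_pow₀ (n := 2) hL1
        calc (1 : ℝ) = 1 * 1 * 1 := by norm_num
          _ ≤ C * L ^ 2 * √X := by gcongr
      rw [hD]
      nlinarith
    have g2 : 21 * C * L ^ (E + K + 2) * ((z : ℝ) + 1) ^ r ≤ √X := by
      apply Real.le_sqrt_of_sq_le
      have g3 : (((z : ℝ) + 1) ^ r) ^ 2 ≤ √X := by
        apply Real.le_sqrt_of_sq_le
        rw [← pow_mul]
        exact hr2
      calc (21 * C * L ^ (E + K + 2) * ((z : ℝ) + 1) ^ r) ^ 2 =
          ((21 * C) ^ 2 * L ^ (2 * (E + K + 2))) * (((z : ℝ) + 1) ^ r) ^ 2 := by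
            rw [mul_pow, mul_pow, ← pow_mul L, mul_comm (E + K + 2) 2]
        _ ≤ √X * √X := by gcongr
        _ = X := hXX
    rw [div_div, le_div_iff₀ (by positivity)]
    calc L ^ E * (((z : ℝ) + 1) ^ r * (1 + D * √X)) * (L ^ K * 3)
        ≤ L ^ E * (((z : ℝ) + 1) ^ r * (7 * C * L ^ 2 * √X)) * (L ^ K * 3) := by gcongr
      _ = (21 * C * L ^ (E + K + 2) * ((z : ℝ) + 1) ^ r) * √X := by ring
      _ ≤ √X * √X := by gcongr
      _ = X := hXX
  have f2 : L ^ E * (D * (X / √|τ|) * (3 * (z + 1))) ≤ X / L ^ K / 3 := by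
    have g1 : (z : ℝ) + 1 ≤ 2 * L ^ E := by
      have := one_le_pow₀ (n := E) hL1
      linarith
    have g2 : (X : ℝ) / √|τ| ≤ X / L ^ (2 * E + K + 3) := by gcongr
    have g3 : 108 * C ≤ L := by linarith
    rw [div_div, le_div_iff₀ (by positivity)]
    calc L ^ E * (D * (X / √|τ|) * (3 * (z + 1))) * (L ^ K * 3)
        ≤ L ^ E * (D * (X / L ^ (2 * E + K + 3)) * (3 * (2 * L ^ E))) * (L ^ K * 3) := by gcongr
      _ = (108 * C) * X / L := by
          rw [hD]
          field_simp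
          ring
      _ ≤ L * X / L := by gcongr
      _ = X := by field_simp
  have f3 : L ^ E * (X / L ^ (E + K + 1)) ≤ X / L ^ K / 3 := by
    rw [div_div, le_div_iff₀ (by positivity)]
    calc L ^ E * (X / L ^ (E + K + 1)) * (L ^ K * 3) = 3 * X / L := by
          field_simp
          ring
      _ ≤ L * X / L := by gcongr
      _ = X := by field_simp
  calc (Vz z)⁻¹ * ‖∑ n ∈ Icc 1 y, (if ∀ p ∈ pz z, ¬ p ∣ n then w n else 0)‖
      ≤ L ^ E * ((((z : ℝ) + 1) ^ r * (1 + D * √X) + D * (X / √|τ|) * (3 * (z + 1))) + X / L ^ (E + K + 1)) := by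
        apply mul_le_mul hV _ (norm_nonneg _) (by positivity)
        exact hb.trans (add_le_add hmain ht)
    _ = L ^ E * (((z : ℝ) + 1) ^ r * (1 + D * √X)) + L ^ E * (D * (X / √|τ|) * (3 * (z + 1))) +
        L ^ E * (X / L ^ (E + K + 1)) := by ring
    _ ≤ X / L ^ K := by linarith

end Pool.Agent.H13V.RGH
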