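import Pool.Agent.H13V.StmV

/-!
# Project BH, stub TWI (helper20)
-/

set_option autoImplicit false

namespace Pool.Agent.H13V.TWI

theorem t : S_TWL → S_TWH → S_TWI := by
  intro hL hH E V
  obtain ⟨C₀, X₁, h1⟩ := hH E V
  obtain ⟨X₂, h2⟩ := hL E V C₀
  refine ⟨max X₁ X₂, fun X hX z q b hq hqz hz τ hτ y hy => ?_⟩
  by_cases h : Real.log X ^ C₀ ≤ |τ|
  · exact h1 X ((le_max_left _ _).trans hX) z q b hq hqz hz τ h hτ y hy
  · exact h2 X ((le_max_right _ _).trans hX) z q b hq hqz hz τ (not_le.1 h).le y hy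

end Pool.Agent.H13V.TWI
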