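import Pool.Agent.H13V.AbelW
import Pool.Agent.H373R2.T7.LamMaj

/-!
# Project BH, stub TWL (helper20)
-/

set_option autoImplicit false

namespace Pool.Agent.H13V.TWL

open Finset
open Pool.Agent.Q236.CR (nt)
open Pool.Agent.H469R2.NK (e)
open Pool.Agent.H373R2.T7 (lamz)
open Pool.Agent.H13V.AbelW

theorem e_add (x : ℝ) (k : ℕ) : e (x + k) = e x := by
  unfold e
  have := (Complex.exp_periodic.nat_mul k) (((2 * Real.pi * x : ℝ) : ℂ) * Complex.I)
  rw [← this]
  congr 1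
  push_cast
  ring

theorem norm_e (x : ℝ) : ‖e x‖ = 1 := by
  unfold e
  rw [Complex.norm_exp_ofReal_mul_I]

theorem e_mod (b n q : ℕ) (hq : 1 ≤ q) : e ((b : ℝ) * n / q) = e ((b : ℝ) * (n % q : ℕ) / q) := by
  have h : (b : ℝ) * n / q = (b : ℝ) * (n % q : ℕ) / q + ((b * (n / q) : ℕ) : ℝ) := by
    have hq0 : (q : ℝ) ≠ 0 := by
      have : (0 : ℝ) < q := by exact_mod_cast hq
      exact this.ne'
    have h1 : (n : ℝ) = (q : ℝ) * (n / q : ℕ) + (n % q : ℕ) := by
      exact_mod_cast (Nat.div_add_mod n q).symm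
    rw [eq_comm]
    push_cast
    field_simp
    rw [h1]
    push_cast
    ring
  rw [h, e_add]

/-- sums over the classes -/
theorem classes (F : ℕ → ℝ) {M : ℝ} {m q b : ℕ} (hq : 1 ≤ q)
    (hM : ∀ c : ℕ, |∑ n ∈ (Icc 1 m).filter (fun n => n ≡ c [MOD q]), F n| ≤ M) :
    ‖∑ n ∈ Icc 1 m, (F n : ℂ) * e ((b : ℝ) * n / q)‖ ≤ q * M := by
  have h1 : ∑ n ∈ Icc 1 m, (F n : ℂ) * e ((b : ℝ) * n / q) =
      ∑ c ∈ range q, e ((b : ℝ) * (c : ℕ) / q) *
        ((∑ n ∈ (Icc 1 m).filter (fun n => n ≡ c [MOD q]), F n : ℝ) : ℂ) := by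
    rw [← Finset.sum_fiberwise_of_maps_to (g := fun n => n % q) (t := range q)
      (fun n _ => mem_range.2 (Nat.mod_lt _ (by omega)))]
    refine Finset.sum_congr rfl fun c hc => ?_
    rw [mem_range] at hc
    push_cast
    rw [Finset.mul_sum]
    have e1 : (Icc 1 m).filter (fun n => n % q = c) = (Icc 1 m).filter (fun n => n ≡ c [MOD q]) := by
      refine Finset.filter_congr fun n _ => ?_
      unfold Nat.ModEq
      rw [Nat.mod_eq_of_lt hc]
    rw [← e1]
    refine Finset.sum_congr rfl fun n hn => ?_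
    rw [mem_filter] at hn
    rw [e_mod b n q hq, hn.2, mul_comm]
  rw [h1]
  refine (norm_sum_le _ _).trans ?_
  calc ∑ c ∈ range q, ‖e ((b : ℝ) * (c : ℕ) / q) *
        ((∑ n ∈ (Icc 1 m).filter (fun n => n ≡ c [MOD q]), F n : ℝ) : ℂ)‖ ≤ ∑ _c ∈ range q, M := by
        refine Finset.sum_le_sum fun c _ => ?_
        rw [norm_mul, norm_e, one_mul, Complex.norm_real, Real.norm_eq_abs]
        exact hM c
    _ = q * M := by rw [sum_const, card_range, nsmul_eq_mul]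

/-- the weight of the primes -/
noncomputable def lp (n : ℕ) : ℝ := if n.Prime then Real.log n else 0

theorem lam_sub_lp (m : ℕ) (f : ℕ → ℂ) (hf : ∀ n, ‖f n‖ ≤ 1) {X : ℕ} (hm : m ≤ X) (hX : 1 ≤ X) :
    ‖∑ n ∈ Icc 1 m, ((ArithmeticFunction.vonMangoldt n - lp n : ℝ) : ℂ) * f n‖ ≤
      2 * √(X : ℝ) * Real.log X := by
  have h0 := Chebyshev.psi_sub_theta_le (x := (X : ℝ)) (by exact_mod_cast hX)
  rw [Chebyshev.psi_sub_theta_eq_sum_not_prime, Nat.floor_natCast] at h0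
  refine le_trans ?_ h0
  refine (norm_sum_le _ _).trans ?_
  have h1 : ∀ n ∈ Icc 1 m, ‖((ArithmeticFunction.vonMangoldt n - lp n : ℝ) : ℂ) * f n‖ ≤
      if ¬ n.Prime then ArithmeticFunction.vonMangoldt n else 0 := by
    intro n _
    rw [norm_mul, Complex.norm_real, Real.norm_eq_abs]
    unfold lp
    by_cases hp : n.Prime
    · rw [if_pos hp, if_neg (not_not.2 hp), ArithmeticFunction.vonMangoldt_apply_prime hp, sub_self,
        abs_zero, zero_mul]
    · rw [if_neg hp, if_pos hp, sub_zero, abs_of_nonneg ArithmeticFunction.vonMangoldt_nonneg]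
      exact mul_le_of_le_one_right ArithmeticFunction.vonMangoldt_nonneg (hf n)
  refine (Finset.sum_le_sum h1).trans ?_
  rw [← Finset.sum_filter]
  refine Finset.sum_le_sum_of_subset_of_nonneg (fun n hn => ?_)
    fun _ _ _ => ArithmeticFunction.vonMangoldt_nonneg
  rw [mem_filter, mem_Icc] at hn
  rw [mem_filter, mem_Ioc]
  exact ⟨⟨by omega, by omega⟩, hn.2⟩

theorem fz_eq (z n : ℕ) (x : ℂ) : (fz z n : ℂ) * x =
    if 2 ≤ n then ((lp n - lamz z n : ℝ) : ℂ) * x / (Real.log n : ℂ) else 0 := by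
  unfold fz lp
  by_cases h2 : 2 ≤ n
  · rw [if_pos h2, if_pos h2]
    have hl : Real.log (n : ℝ) ≠ 0 := by
      have := log_ge h2
      linarith
    generalize Real.log (n : ℝ) = l at hl ⊢
    have hl' : (l : ℂ) ≠ 0 := by exact_mod_cast hl
    by_cases hp : n.Prime
    · rw [if_pos hp, if_pos hp]
      push_cast
      field_simp
    · rw [if_neg hp, if_neg hp]
      push_cast
      field_simp
      ring
  · rw [if_neg h2, if_neg h2]
    have : ¬ n.Prime := fun h => h2 h.two_le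
    rw [if_neg this]
    simp

theorem lamz_nonneg (z n : ℕ) : 0 ≤ lamz z n := by
  unfold lamz
  split_ifs
  · exact (inv_pos.2 (Pool.Agent.H373R2.T7.Vz_pos z)).le
  · exact le_rfl

theorem lamz_le (z n : ℕ) (hz : 1 ≤ z) : lamz z n ≤ z := by
  unfold lamz
  split_ifs
  · exact Pool.Agent.H373R2.T7.Vz_inv_le z hz
  · positivity

theorem t : S_TWL := by
  intro E V C₀
  obtain ⟨U, hU⟩ : ∃ U, U = V + E + C₀ + 5 := ⟨_, rfl⟩
  obtain ⟨N1, h1⟩ := Pool.Agent.H373R2.T7.lam_ap E U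
  obtain ⟨N2, h2⟩ := Pool.Agent.H373R2.T7.lamz_ap E U
  obtain ⟨N3, h3⟩ := Pool.Agent.H373R2.T7.ev_log' (C₀ + 2 + V) 56
  obtain ⟨N4, h4⟩ := Pool.Agent.H373R2.T7.ev_log' (E + C₀ + 1 + V) 28
  obtain ⟨N5, h5⟩ := Pool.Agent.H373R2.T7.ev_L' 4
  refine ⟨max (max N1 N2) (max (max N3 N4) (max N5 1)), fun X hX z q b hq hqz hz τ hτ y hy => ?_⟩
  have hX1 := h1 X (by omega)
  have hX2 := h2 X (by omega)
  have a3 := h3 X (by omega)
  have a4 := h4 X (by omega)
  have hL := h5 X (by omega)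
  have hXpos : 1 ≤ X := by omega
  have hXr : (1 : ℝ) ≤ X := by exact_mod_cast hXpos
  obtain ⟨L, hLd⟩ : ∃ L, L = Real.log X := ⟨_, rfl⟩
  rw [← hLd] at hz hτ a3 a4 hL hX1 hX2 ⊢
  have hL0 : 0 < L := by linarith
  have hqE : (q : ℝ) ≤ L ^ E := le_trans (by exact_mod_cast hqz) hz
  have hz1 : 1 ≤ z := by omega
  -- the sums without weight
  have hB : ∀ m ≤ y, ‖∑ n ∈ Icc 1 m, ((lp n - lamz z n : ℝ) : ℂ) * e ((b : ℝ) * n / q)‖ ≤
      L ^ E * (2 * (X / L ^ U)) + 2 * √(X : ℝ) * L := by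
    intro m hm
    have hmX : m ≤ X := hm.trans hy
    have c1 := classes (fun n => ArithmeticFunction.vonMangoldt n - lamz z n) (M := 2 * (X / L ^ U))
      (m := m) (b := b) hq (fun c => by
        have d1 := hX1 q hq hqE c m hmX
        have d2 := hX2 z hz1 hz q hq hqz c m hmX
        rw [Finset.sum_sub_distrib]
        rw [abs_le] at d1 d2 ⊢
        constructor <;> linarith [d1.1, d1.2, d2.1, d2.2])
    have c2 := lam_sub_lp m (fun n => e ((b : ℝ) * n / q)) (fun n => (norm_e _).le) hmX hXpos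
    rw [← hLd] at c2
    have e1 : ∑ n ∈ Icc 1 m, ((lp n - lamz z n : ℝ) : ℂ) * e ((b : ℝ) * n / q) =
        ∑ n ∈ Icc 1 m, ((ArithmeticFunction.vonMangoldt n - lamz z n : ℝ) : ℂ) * e ((b : ℝ) * n / q) -
        ∑ n ∈ Icc 1 m, ((ArithmeticFunction.vonMangoldt n - lp n : ℝ) : ℂ) * e ((b : ℝ) * n / q) := by
      rw [← Finset.sum_sub_distrib]
      refine Finset.sum_congr rfl fun n _ => ?_
      push_cast
      ring
    rw [e1]
    refine (norm_sub_le _ _).trans (add_le_add (c1.trans ?_) c2)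
    exact mul_le_mul_of_nonneg_right hqE (by positivity)
  have hab := abel_log (fun n => ((lp n - lamz z n : ℝ) : ℂ) * e ((b : ℝ) * n / q)) τ hB
  have e1 : ∑ n ∈ Icc 1 y, (fz z n : ℂ) * e ((b : ℝ) * n / q) * nt τ n =
      ∑ n ∈ Icc 1 y, (if 2 ≤ n then ((lp n - lamz z n : ℝ) : ℂ) * e ((b : ℝ) * n / q) * nt τ n /
        (Real.log n : ℂ) else 0) := by
    refine Finset.sum_congr rfl fun n _ => ?_
    rw [mul_assoc, fz_eq]
    split_ifs
    · ring
    · rfl
  rw [e1]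
  refine hab.trans ?_
  have hg1 : ‖((lp 1 - lamz z 1 : ℝ) : ℂ) * e ((b : ℝ) * (1 : ℕ) / q)‖ ≤ L ^ E := by
    rw [norm_mul, norm_e, mul_one, Complex.norm_real, Real.norm_eq_abs]
    have : lp 1 = 0 := by
      unfold lp
      rw [if_neg Nat.not_prime_one]
    rw [this, zero_sub, abs_neg, abs_of_nonneg (lamz_nonneg z 1)]
    exact (lamz_le z 1 hz1).trans hz
  have hly : Real.log y ≤ L := by
    rcases Nat.eq_zero_or_pos y with h0 | h0
    · rw [h0]
      simp
      exact hL0.le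
    · rw [hLd]
      exact Real.log_le_log (by exact_mod_cast h0) (by exact_mod_cast hy)
  have hly0 : 0 ≤ Real.log (y : ℝ) := Real.log_natCast_nonneg y
  have hC1 : (1 : ℝ) ≤ L ^ C₀ := one_le_pow₀ (by linarith)
  have hfac : 4 + 2 * |τ| * (1 + Real.log y) ≤ 7 * L ^ (C₀ + 1) := by
    have i1 : 2 * |τ| * (1 + Real.log y) ≤ 2 * L ^ C₀ * (1 + L) := by gcongr
    have i2 : L ^ (C₀ + 1) = L ^ C₀ * L := pow_succ _ _
    rw [i2]
    nlinarith
  have hfac0 : 0 ≤ 4 + 2 * |τ| * (1 + Real.log y) := by positivity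
  have hsX : √(X : ℝ) * √(X : ℝ) = X := Real.mul_self_sqrt (by linarith)
  have hs1 : 1 ≤ √(X : ℝ) := Real.one_le_sqrt.2 hXr
  rw [le_div_iff₀ (by positivity)]
  calc (L ^ E * (2 * (X / L ^ U)) + 2 * √(X : ℝ) * L + ‖((lp 1 - lamz z 1 : ℝ) : ℂ) *
        e ((b : ℝ) * (1 : ℕ) / q)‖) * (4 + 2 * |τ| * (1 + Real.log y)) * L ^ V ≤
      (L ^ E * (2 * (X / L ^ U)) + 2 * √(X : ℝ) * L + L ^ E) * (7 * L ^ (C₀ + 1)) * L ^ V := by
        refine mul_le_mul_of_nonneg_right ?_ (by positivity)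
        refine mul_le_mul (by linarith) hfac hfac0 (by positivity)
    _ = 14 * X * (L ^ E * L ^ (C₀ + 1) * L ^ V / L ^ U) +
        (14 * √(X : ℝ) * L ^ (C₀ + 2 + V) + 7 * L ^ (E + C₀ + 1 + V)) := by
        have : L ^ (C₀ + 2 + V) = L * L ^ (C₀ + 1) * L ^ V := by ring
        rw [this]
        have : L ^ (E + C₀ + 1 + V) = L ^ E * L ^ (C₀ + 1) * L ^ V := by ring
        rw [this]
        ring
    _ ≤ 14 * X * (1 / 256) + (X / 4 + X / 4) := by
        refine add_le_add ?_ (add_le_add ?_ ?_)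
        · refine mul_le_mul_of_nonneg_left ?_ (by positivity)
          have : L ^ U = L ^ E * L ^ (C₀ + 1) * L ^ V * L ^ 4 := by
            rw [hU]
            ring
          rw [this, div_mul_cancel_left₀ (by positivity), one_div]
          refine inv_anti₀ (by norm_num) ?_
          calc (256 : ℝ) = 4 ^ 4 := by norm_num
            _ ≤ L ^ 4 := pow_le_pow_left₀ (by norm_num) hL 4
        · nlinarith
        · nlinarith
    _ ≤ X := by nlinarith

end Pool.Agent.H13V.TWL
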