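import Pool.Agent.Q236.CR.Stm
import Pool.Agent.H373R2.T7.LamZ

/-!
# Project BH (helper13): the Bateman-Horn formula for almost all systems of polynomials at all scales
`(log H)^B ≤ N ≤ H / (log H)^B`. Part V: twisted sums over primes, in the Vinogradov-Korobov range, for characters to
small moduli.

The statements `S_TNB, S_ZSB, S_CHR, S_LUP, S_LZF, S_MOC` are in `Pool/Agent/Q236/CR/Stm.lean` (with proofs in the
docstrings and the names of the files to adapt: the same statements for the zeta function are proved there).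
`S_SHB` and `S_SDB` are proved: `Pool.Agent.Q53.CR.shb`, `Pool.Agent.Q53.CR.sdb`.

Stubs (file `Pool/Agent/H13V/<Stub>.lean`, theorem `Pool.Agent.H13V.<Stub>.t`):
* `TNB.t : S_TNB`
* `ZSB.t : S_TNB → S_ZSB`
* `CHR.t : S_ZSB → S_CHR`
* `LUP.t : S_CHR → S_LUP`
* `LZF.t : S_LUP → S_LZF`
* `MOC.t : S_LZF → S_MOC`
* `LAM.t : S_CHR → S_MOC → S_LAM`
* `RGH.t : S_RGH`
* `TWL.t : S_TWL`
* `TWH.t : S_LAM → S_RGH → S_TWH`
* `TWI.t : S_TWL → S_TWH → S_TWI`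
-/

set_option autoImplicit false

namespace Pool.Agent.H13V

open Finset
open Pool.Agent.Q236.CR (nt)
open Pool.Agent.H469R2.NK (e)
open Pool.Agent.H373R2.T7 (lamz)

/-- **LAM** (from CHR and MOC). Proof. `L = log X`, `g(n) = χ(n) n^{-iτ}` is completely multiplicative, `Λ = μ * log`.
If `y ≤ X / L^{K+2}` the trivial bound suffices. Otherwise, hyperbola method with `Z = ⌊X^{1/2}⌋`:
`∑_{n ≤ y} Λ(n) g(n) = ∑_{b ≤ Z} g(b) log b · M(y/b) + ∑_{a ≤ y/Z} μ(a) g(a) (T(y/a) - T(Z))`,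
`M(u) = ∑_{a ≤ u} μ(a) g(a)`, `T(u) = ∑_{b ≤ u} g(b) log b` (pairs `(a, b)`, `ab ≤ y`, split by `b ≤ Z` or `b > Z`).
First part: `y / b ≥ X^{2/5}`, so MOC with `N = ⌊y/b⌋` (`|τ| ≤ X^A ≤ N^{3A}`, `(log N)^{C₀'} ≤ L^{C₀} ≤ |τ|`,
`q ≤ L^B ≤ (log N)^{B+1}`), exponent `K + 4`: total `≤ C y L^2 · 3^{K+4} / L^{K+4}`.
Second part: `a ≤ X^{1/2} · 2`, dyadic blocks `(N, N'] ⊂ (Z, y/a]`, `N ≥ Z`. Weight `log b`: partial summation, factor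
`≤ 2 L`. Without the weight: if `|τ| ≥ N`: first part of CHR with `κ = log |τ| / log N ∈ [1, 3 A]`: bound
`q exp(C (1+3A)^C) N^{1 - c/(1+3A)^2} ≤ N / L^{K+5}`. If `|τ| < N`: second part of CHR: `≤ q C (2 N / √|τ|) (1 + log N)` and
`√|τ| ≥ L^{C₀/2}`. Sum over the blocks and over `a`: `≤ ∑_a (y/a) L^{-K-3} ≤ X / L^{K+1}`. -/
def S_LAM : Prop := ∀ A B K : ℕ, ∃ C₀ X₀ : ℕ, ∀ X : ℕ, X₀ ≤ X → ∀ (q : ℕ) (_ : NeZero q)
  (χ : DirichletCharacter ℂ q) (τ : ℝ) (y : ℕ), (q : ℝ) ≤ Real.log X ^ B → Real.log X ^ C₀ ≤ |τ| →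
  |τ| ≤ (X : ℝ) ^ A → y ≤ X →
  ‖∑ n ∈ Icc 1 y, χ (n : ZMod q) * (ArithmeticFunction.vonMangoldt n : ℂ) * nt τ n‖ ≤ X / Real.log X ^ K

/-- **RGH**: rough numbers twisted by `n^{-iτ}`, large heights (uses `Pool.Agent.Q53.CR.sdb`). Proof. Brun's sieve as in
`rough_ap` (`Pool/Agent/H373R2/T7/LamZ.lean`, look at its proof and the lemma it uses; the truncated inclusion-exclusion):
for every `r`, with `Pr(z)` the set of primes `≤ z`,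
`|1[no p ≤ z divides n] - ∑_{S ⊆ Pr(z), |S| ≤ r, ∏S ∣ n} (-1)^{|S|}| ≤ #{S ⊆ Pr(z) : |S| = r + 1, ∏ S ∣ n}`, and the
sum of the right side over `n ≤ y` is at most `y (∑ 1/p)^{r+1} / (r+1)! ≤ y exp (3 (1 + log z) - r)`. Take
`r = ⌊log X / (10 log (z + 2))⌋`, so `(z+1)^r ≤ X^{1/10}`, and `exp(-r)` is smaller than every power of `log X`.
Main part: `∑_{|S| ≤ r} (-1)^{|S|} ∑_{m ≤ y/P} e(β P m) nt τ (P m)`, `P = ∏ S ≤ X^{1/10}`, `nt τ (P m) = nt τ P · nt τ m`;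
the inner sum is `≤ C (2 + log X)^2 (√|τ| + (y/P)/√|τ|)` by SDB on dyadic blocks. The number of `S` with `|S| ≤ r` is at
most `X^{1/10}` (injective `S ↦ ∏ S ≤ (z+1)^r`), `∑_S 1/∏S ≤ ∏_{p ≤ z}(1 + 1/p) ≤ z + 1`; total
`≤ C L^2 (X^{3/5} + X (z+1) / √|τ|)`; multiply by `(Vz z)⁻¹ ≤ z ≤ L^E`; `√|τ| ≥ L^{C₀/2}`. (`z = 0`: then `lamz z n = 1`.) -/
def S_RGH : Prop := ∀ E K : ℕ, ∃ C₀ X₀ : ℕ, ∀ X : ℕ, X₀ ≤ X → ∀ z : ℕ, (z : ℝ) ≤ Real.log X ^ E → ∀ β τ : ℝ,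
  Real.log X ^ C₀ ≤ |τ| → |τ| ≤ X → ∀ y : ℕ, y ≤ X →
  ‖∑ n ∈ Icc 1 y, (lamz z n : ℂ) * e (β * n) * nt τ n‖ ≤ X / Real.log X ^ K

/-- primes minus the sieve model (with the weight `1 / log n`) -/
noncomputable def fz (z n : ℕ) : ℝ :=
  (if n.Prime then 1 else 0) - (if 2 ≤ n then lamz z n / Real.log n else 0)

/-- **TWL**: small heights. Proof. `Pool.Agent.H373R2.T7.lam_ap` (`LamMaj.lean`) and `lamz_ap` (`LamZ.lean`) have the same main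
terms, so for all classes `|∑_{n ≤ y, n ≡ c (q)} (Λ(n) - lamz z n)| ≤ 2 X / L^U`. Sum over the `q ≤ z ≤ L^E` classes with
`e(bc/q)`: `|∑_{n ≤ y} (Λ(n) - lamz z n) e(bn/q)| ≤ 2 X L^E / L^U`. Replace `Λ(n)` by `1_{n prime} log n`: error
`≤ ∑_{n ≤ X, n not prime} Λ(n) ≤ 3 √X log^2 X` (or any bound `X / L^U`). Abel summation with the weight `n^{-iτ} / log n`,
`n ≥ 2`, of total variation `≤ 4 (1 + |τ|) (1 + log X)` (consecutive differences `≤ (1 + |τ|) 4 / n`). The term `n = 1` of `fz` is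
`0` and `n = 1` is harmless. Choose `U = V + E + C₀ + 5`. -/
def S_TWL : Prop := ∀ E V C₀ : ℕ, ∃ X₀ : ℕ, ∀ X : ℕ, X₀ ≤ X → ∀ z q b : ℕ, 1 ≤ q → q ≤ z →
  (z : ℝ) ≤ Real.log X ^ E → ∀ τ : ℝ, |τ| ≤ Real.log X ^ C₀ → ∀ y : ℕ, y ≤ X →
  ‖∑ n ∈ Icc 1 y, (fz z n : ℂ) * e ((b : ℝ) * n / q) * nt τ n‖ ≤ X / Real.log X ^ V

/-- **TWH**: large heights (from LAM and RGH). Proof. Primes: for `(n, q) = 1`,
`e(bn/q) = (1/φ(q)) ∑_χ (∑_{c} χ̄(c) e(bc/q)) χ(n)` (orthogonality of the characters modulo `q`; the coefficient of each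
`χ`, with the factor `1/φ(q)`, has absolute value `≤ 1`). At most `q` primes divide `q`. So
`∑_{n ≤ y} Λ'(n) e(bn/q) n^{-iτ}`, `Λ'(n) = log n` for primes, differs from `∑_χ coeff_χ ∑_{n ≤ y} χ(n) Λ(n) n^{-iτ}` by at most
`q log X + 3 √X log² X`, and LAM (`A = 1`) bounds it by `q X / L^{K}`. Abel summation with the monotone weight `1 / log n`,
`n ≥ 2` (bounded by 2). Rough numbers: RGH with `β = b/q` and the same Abel summation. -/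
def S_TWH : Prop := ∀ E V : ℕ, ∃ C₀ X₀ : ℕ, ∀ X : ℕ, X₀ ≤ X → ∀ z q b : ℕ, 1 ≤ q → q ≤ z →
  (z : ℝ) ≤ Real.log X ^ E → ∀ τ : ℝ, Real.log X ^ C₀ ≤ |τ| → |τ| ≤ X → ∀ y : ℕ, y ≤ X →
  ‖∑ n ∈ Icc 1 y, (fz z n : ℂ) * e ((b : ℝ) * n / q) * nt τ n‖ ≤ X / Real.log X ^ V

/-- **TWI**: all heights up to `X` (take `C₀` from TWH and insert it in TWL). -/
def S_TWI : Prop := ∀ E V : ℕ, ∃ X₀ : ℕ, ∀ X : ℕ, X₀ ≤ X → ∀ z q b : ℕ, 1 ≤ q → q ≤ z →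
  (z : ℝ) ≤ Real.log X ^ E → ∀ τ : ℝ, |τ| ≤ X → ∀ y : ℕ, y ≤ X →
  ‖∑ n ∈ Icc 1 y, (fz z n : ℂ) * e ((b : ℝ) * n / q) * nt τ n‖ ≤ X / Real.log X ^ V

end Pool.Agent.H13V
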