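import Pool.Agent.H13V.StmV
import Pool.Agent.H370R2.DirGood
import Pool.Agent.Y957.VK.Fin1

/-!
# Project BH, stub LUP, first part: truncation of the `L`-function, numerical conditions
-/

set_option autoImplicit false

namespace Pool.Agent.H13V.LUP

open Finset Filter MeasureTheory
open Pool.Agent.Q236.CR (nt S_CHR S_LUP)

/-- truncation of the `L`-function of a nonprincipal character -/
theorem tail {q : ℕ} [NeZero q] {χ : DirichletCharacter ℂ q} (hχ : χ ≠ 1) {s : ℂ} (hs : 0 < s.re)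
    {X : ℕ} (hX : 1 ≤ X) :
    ‖DirichletCharacter.LFunction χ s - ∑ n ∈ Ioc 0 X, χ (n : ZMod q) * (n : ℂ) ^ (-s)‖ ≤
      (q + 1) * (X : ℝ) ^ (-s.re) * (1 + ‖s‖ / s.re) := by
  have hs0 : s ≠ 0 := by
    rintro rfl
    simp at hs
  obtain ⟨A, hA⟩ : ∃ A : ℝ → ℂ, A = fun u => ∑ k ∈ Finset.Icc 1 ⌊u⌋₊, χ (k : ZMod q) := ⟨_, rfl⟩
  have hm : Measurable A := by
    rw [hA]
    exact (measurable_from_nat (f := fun n : ℕ => ∑ k ∈ Finset.Icc 1 n, χ (k : ZMod q))).comp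
      Nat.measurable_floor
  have hbd : ∀ u, ‖A u‖ ≤ (q + 1 : ℝ) := by
    intro u
    rw [hA]
    exact H370.DL.norm_sum_Icc_le hχ _
  set c : ℕ → ℂ := fun k => if k = 0 then 0 else χ (k : ZMod q) with hc
  have hc0 : c 0 = 0 := by simp [hc]
  have hcs : ∀ n : ℕ, ∑ k ∈ Finset.Icc 0 n, c k = ∑ k ∈ Finset.Icc 1 n, χ (k : ZMod q) := by
    intro n
    rw [← Finset.add_sum_Ioc_eq_sum_Icc (Nat.zero_le n), hc0, zero_add]
    refine Finset.sum_congr ?_ fun k hk => ?_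
    · ext k
      simp [Finset.mem_Ioc, Finset.mem_Icc, Nat.succ_le_iff, Nat.pos_iff_ne_zero]
    · rw [Finset.mem_Icc] at hk
      simp only [hc]
      rw [if_neg (by omega)]
  have hX1 : (1 : ℝ) ≤ X := by exact_mod_cast hX
  have hX0 : (0 : ℝ) < X := by linarith
  have hI1 : IntegrableOn (fun u : ℝ => (u : ℂ) ^ (-s - 1)) (Set.Ioi 1) :=
    integrableOn_Ioi_cpow_of_lt (by simp; linarith) zero_lt_one
  have hI2 : IntegrableOn (fun u : ℝ => A u * (u : ℂ) ^ (-s - 1)) (Set.Ioi 1) :=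
    Integrable.bdd_mul (c := (q + 1 : ℝ)) hI1 hm.aestronglyMeasurable
      (Eventually.of_forall hbd)
  have hder : ∀ t : ℝ, 0 < t → deriv (fun x : ℝ => (x : ℂ) ^ (-s)) t = -s * (t : ℂ) ^ (-s - 1) :=
    fun t ht => Complex.deriv_ofReal_cpow_const ht.ne' (neg_ne_zero.2 hs0)
  have hab := sum_mul_eq_sub_integral_mul₀' (f := fun x : ℝ => (x : ℂ) ^ (-s)) (c := c) hc0 X
    (by
      intro t ht
      exact differentiableAt_id.ofReal_cpow_const (zero_lt_one.trans_le ht.1).ne'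
        (neg_ne_zero.mpr hs0))
    (by
      rw [integrableOn_Icc_iff_integrableOn_Ioc]
      refine IntegrableOn.congr_fun (f := fun t : ℝ => -s * (t : ℂ) ^ (-s - 1)) ?_ ?_
        measurableSet_Ioc
      · exact (hI1.mono_set Set.Ioc_subset_Ioi_self).const_mul _
      · intro t ht
        exact (hder t (zero_lt_one.trans ht.1)).symm)
  have hint : ∫ t in Set.Ioc (1 : ℝ) X, deriv (fun x : ℝ => (x : ℂ) ^ (-s)) t *
      ∑ k ∈ Finset.Icc 0 ⌊t⌋₊, c k = -s * ∫ t in Set.Ioc (1 : ℝ) X, A t * (t : ℂ) ^ (-s - 1) := by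
    rw [← integral_const_mul]
    refine setIntegral_congr_fun measurableSet_Ioc fun t ht => ?_
    rw [hder t (zero_lt_one.trans ht.1), hcs, hA]
    ring
  have hsum : ∑ n ∈ Ioc 0 X, χ (n : ZMod q) * (n : ℂ) ^ (-s) =
      ∑ k ∈ Finset.Icc 0 X, ((k : ℝ) : ℂ) ^ (-s) * c k := by
    rw [← Finset.add_sum_Ioc_eq_sum_Icc (Nat.zero_le X), hc0, mul_zero, zero_add]
    refine Finset.sum_congr rfl fun k hk => ?_
    rw [Finset.mem_Ioc] at hk
    simp only [hc]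
    rw [if_neg (by omega), mul_comm]
    norm_cast
  rw [hint, hcs] at hab
  have hL := H370.DL.L_integral hχ hs
  have hL2 : DirichletCharacter.LFunction χ s = s * ∫ u in Set.Ioi (1 : ℝ), A u * (u : ℂ) ^ (-s - 1) := by
    rw [hL, hA]
  have hsplit : ∫ u in Set.Ioi (1 : ℝ), A u * (u : ℂ) ^ (-s - 1) =
      (∫ u in Set.Ioc (1 : ℝ) X, A u * (u : ℂ) ^ (-s - 1)) +
        ∫ u in Set.Ioi (X : ℝ), A u * (u : ℂ) ^ (-s - 1) := by
    rw [← Set.Ioc_union_Ioi_eq_Ioi hX1]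
    refine setIntegral_union ?_ measurableSet_Ioi (hI2.mono_set Set.Ioc_subset_Ioi_self)
      (hI2.mono_set (Set.Ioi_subset_Ioi hX1))
    exact Set.Ioc_disjoint_Ioi le_rfl
  rw [hsum, hab, hL2, hsplit]
  have e1 : s * ((∫ u in Set.Ioc (1 : ℝ) X, A u * (u : ℂ) ^ (-s - 1)) +
        ∫ u in Set.Ioi (X : ℝ), A u * (u : ℂ) ^ (-s - 1)) -
      (((X : ℝ) : ℂ) ^ (-s) * ∑ k ∈ Finset.Icc 1 X, χ (k : ZMod q) -
        -s * ∫ t in Set.Ioc (1 : ℝ) X, A t * (t : ℂ) ^ (-s - 1)) =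
      s * (∫ u in Set.Ioi (X : ℝ), A u * (u : ℂ) ^ (-s - 1)) -
        ((X : ℝ) : ℂ) ^ (-s) * ∑ k ∈ Finset.Icc 1 X, χ (k : ZMod q) := by ring
  rw [e1]
  have h1 : ‖∫ u in Set.Ioi (X : ℝ), A u * (u : ℂ) ^ (-s - 1)‖ ≤
      (q + 1) * ((X : ℝ) ^ (-s.re) / s.re) := by
    have h2 : ∫ u in Set.Ioi (X : ℝ), (q + 1 : ℝ) * u ^ (-s.re - 1) =
        (q + 1) * ((X : ℝ) ^ (-s.re) / s.re) := by
      rw [integral_const_mul, integral_Ioi_rpow_of_lt (by linarith) hX0]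
      rw [show -s.re - 1 + 1 = -s.re by ring, neg_div_neg_eq]
    rw [← h2]
    refine norm_integral_le_of_norm_le ?_ ?_
    · exact (integrableOn_Ioi_rpow_of_lt (by linarith) hX0).const_mul _
    · refine (ae_restrict_iff' measurableSet_Ioi).mpr (Filter.Eventually.of_forall fun u hu => ?_)
      have hu0 : (0 : ℝ) < u := lt_trans hX0 hu
      rw [norm_mul, Complex.norm_cpow_eq_rpow_re_of_pos hu0]
      have : (-s - 1).re = -s.re - 1 := by simp
      rw [this]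
      exact mul_le_mul_of_nonneg_right (hbd u) (by positivity)
  have h3 : ‖((X : ℝ) : ℂ) ^ (-s) * ∑ k ∈ Finset.Icc 1 X, χ (k : ZMod q)‖ ≤
      (X : ℝ) ^ (-s.re) * (q + 1) := by
    rw [norm_mul, Complex.norm_cpow_eq_rpow_re_of_pos hX0, Complex.neg_re]
    exact mul_le_mul_of_nonneg_left (H370.DL.norm_sum_Icc_le hχ _) (by positivity)
  have h4 : ‖s * ∫ u in Set.Ioi (X : ℝ), A u * (u : ℂ) ^ (-s - 1)‖ ≤
      ‖s‖ * ((q + 1) * ((X : ℝ) ^ (-s.re) / s.re)) := by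
    rw [norm_mul]
    exact mul_le_mul_of_nonneg_left h1 (norm_nonneg _)
  refine (norm_sub_le _ _).trans ((add_le_add h4 h3).trans (le_of_eq ?_))
  field_simp
  ring

/-- the numbers: `L = log T`, `b ≥ log q` -/
structure Num (C : ℕ) (C₂ c L u w b : ℝ) : Prop where
  c0 : 0 < c
  C2 : 1 ≤ C₂
  u1 : 1 ≤ u
  b0 : 0 ≤ b
  L4 : 4 ≤ L
  w0 : 0 < w
  w2 : w ≤ 1 / 2
  wL : w * L = u
  p1 : b + C * (1 + 2 * u) ^ C + (L / u) * (w - c / (1 + 2 * u) ^ 2) ≤ 0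
  p2 : b + Real.log (2 * C₂) + Real.log (1 + 4 * L) + 4 * L * w ≤ L / (6 * u)

namespace Num

variable {C : ℕ} {C₂ c L u w b : ℝ}

theorem br (h : Num C C₂ c L u w b) : w - c / (1 + 2 * u) ^ 2 ≤ 0 := by
  have h1 := h.p1
  have h2 := h.b0
  have h3 := h.u1
  have h4 := h.L4
  by_contra hcon
  push Not at hcon
  have h5 : 0 < (L / u) * (w - c / (1 + 2 * u) ^ 2) := by positivity
  have h6 : 0 ≤ (C : ℝ) * (1 + 2 * u) ^ C := by positivity
  linarith

theorem lg (h : Num C C₂ c L u w b) : 2 ≤ Real.log (1 + 4 * L) := by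
  have h4 := h.L4
  rw [Real.le_log_iff_exp_le (by linarith)]
  have h5 := Real.exp_one_lt_d9
  have h6 : Real.exp 2 = Real.exp 1 * Real.exp 1 := by
    rw [← Real.exp_add]; norm_num
  have h7 := Real.exp_pos 1
  rw [h6]
  nlinarith

theorem b2 (h : Num C C₂ c L u w b) : b + 2 ≤ L / (6 * u) := by
  have h1 := h.p2
  have h2 := h.lg
  have h3 : 0 ≤ Real.log (2 * C₂) := Real.log_nonneg (by linarith [h.C2])
  have h4 : 0 ≤ 4 * L * w := by
    have := h.L4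
    have := h.w0
    positivity
  linarith

theorem b3 (h : Num C C₂ c L u w b) : 6 * (b + 2) ≤ L := by
  have h1 := h.b2
  have h2 := h.u1
  have h3 := h.L4
  have h4 : L / (6 * u) ≤ L / 6 := by
    refine div_le_div_of_nonneg_left (by linarith) (by norm_num) (by linarith)
  linarith

/-- the exponent of a piece -/
theorem piece (h : Num C C₂ c L u w b) {κ m : ℝ} (hm : L / u ≤ m) (hκ0 : 0 ≤ κ) (hκ : κ ≤ 2 * u) :
    b + C * (1 + κ) ^ C + m * (w - c / (1 + κ) ^ 2) ≤ 0 := by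
  have h1 := h.p1
  have hb := h.br
  have hc := h.c0
  have h2 : (1 + κ) ^ C ≤ (1 + 2 * u) ^ C := pow_le_pow_left₀ (by linarith) (by linarith) C
  have h3 : c / (1 + 2 * u) ^ 2 ≤ c / (1 + κ) ^ 2 := by
    refine div_le_div_of_nonneg_left hc.le (by positivity) ?_
    exact pow_le_pow_left₀ (by linarith : (0 : ℝ) ≤ 1 + κ) (by linarith) 2
  have hL0 : 0 < L := by linarith [h.L4]
  have hu0 : 0 < u := by linarith [h.u1]
  have hm0 : 0 ≤ m := le_trans (by positivity) hm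
  have h4 : m * (w - c / (1 + κ) ^ 2) ≤ m * (w - c / (1 + 2 * u) ^ 2) :=
    mul_le_mul_of_nonneg_left (by linarith) hm0
  have h5 : m * (w - c / (1 + 2 * u) ^ 2) ≤ (L / u) * (w - c / (1 + 2 * u) ^ 2) :=
    mul_le_mul_of_nonpos_right hm hb
  have h6 : (C : ℝ) * (1 + κ) ^ C ≤ C * (1 + 2 * u) ^ C :=
    mul_le_mul_of_nonneg_left h2 (Nat.cast_nonneg C)
  linarith

end Num

end Pool.Agent.H13V.LUP
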