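import Pool.Agent.H13V.LUPA

/-!
# Project BH, stub LUP, second part: nonprincipal characters
-/

set_option autoImplicit false

namespace Pool.Agent.H13V.LUP

open Finset Filter MeasureTheory
open Pool.Agent.Q236.CR (nt S_CHR S_LUP)

/-- first hypothesis for one character -/
def H1 {q : ℕ} (χ : DirichletCharacter ℂ q) (C : ℕ) (c : ℝ) : Prop :=
  ∀ (N N' : ℕ) (t κ : ℝ), 2 ≤ N → N ≤ N' → N' ≤ 2 * N → 1 ≤ κ → |t| = (N : ℝ) ^ κ →
    ‖∑ n ∈ Finset.Ioc N N', χ (n : ZMod q) * nt t n‖ ≤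
      q * (Real.exp (C * (1 + κ) ^ C) * (N : ℝ) ^ (1 - c / (1 + κ) ^ 2 : ℝ))

/-- second hypothesis for one character -/
def H2 {q : ℕ} (χ : DirichletCharacter ℂ q) (C : ℝ) : Prop :=
  ∀ (N N' : ℕ) (t : ℝ), 1 ≤ N → N ≤ N' → N' ≤ 2 * N → 1 ≤ |t| →
    ‖∑ n ∈ Finset.Ioc N N', χ (n : ZMod q) * nt t n‖ ≤
      q * (C * (√|t| + N / √|t|) * (1 + Real.log N))

/-- one dyadic piece -/
theorem piece_le {q : ℕ} [NeZero q] {χ : DirichletCharacter ℂ q} {C : ℕ} {C₂ c : ℝ}
    (h1 : H1 χ C c) (h2 : H2 χ C₂)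
    {L u w b t σ : ℝ} (h : Num C C₂ c L u w b) (hq : Real.log q ≤ b) (hσ : 1 - w ≤ σ)
    (ht1 : L / (3 * u) ≤ Real.log |t|) (ht2 : Real.log |t| ≤ 2 * L)
    {M M' : ℕ} (hM1 : L / u ≤ Real.log M) (hM2 : Real.log M ≤ 4 * L) (hMM : M ≤ M')
    (hM' : M' ≤ 2 * M) :
    ‖∑ n ∈ Ioc M M', χ (n : ZMod q) * (n : ℂ) ^ (-(⟨σ, t⟩ : ℂ))‖ ≤ 1 := by
  have hL := h.L4
  have hu := h.u1
  have hL0 : 0 < L := by linarith
  have hm0 : 0 < Real.log M := lt_of_lt_of_le (by positivity) hM1
  have hlt0 : 0 < Real.log |t| := lt_of_lt_of_le (by positivity) ht1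
  have ht0 : 1 < |t| := by
    by_contra hcon
    push Not at hcon
    have := Real.log_nonpos (abs_nonneg t) hcon
    linarith
  have htpos : 0 < |t| := by linarith
  have hM2' : 2 ≤ M := by
    by_contra hcon
    have : M = 0 ∨ M = 1 := by omega
    rcases this with rfl | rfl <;> simp at hm0
  have hMR : (0 : ℝ) < M := by exact_mod_cast (by omega : 0 < M)
  have hqR : (0 : ℝ) < q := by exact_mod_cast NeZero.pos q
  have hqb : (q : ℝ) ≤ Real.exp b := by
    rw [← Real.exp_log hqR]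
    exact Real.exp_le_exp.2 hq
  have hσ0 : 0 ≤ σ := by
    have := h.w2
    linarith
  have e1 : ∑ n ∈ Ioc M M', χ (n : ZMod q) * (n : ℂ) ^ (-(⟨σ, t⟩ : ℂ)) =
      ∑ n ∈ Ioc M M', ((((n : ℝ) ^ (-σ) : ℝ)) : ℂ) * (χ (n : ZMod q) * nt t n) := by
    refine Finset.sum_congr rfl fun n hn => ?_
    rw [Finset.mem_Ioc] at hn
    rw [Pool.Agent.Y306.VK.term_eq (by omega) σ t]
    unfold nt
    ring
  rw [e1]
  have hmono : ∀ n : ℕ, M ≤ n → ((n + 1 : ℕ) : ℝ) ^ (-σ) ≤ (n : ℝ) ^ (-σ) := by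
    intro n hn
    have hn0 : (0 : ℝ) < n := by exact_mod_cast (by omega : 0 < n)
    refine Real.rpow_le_rpow_of_nonpos hn0 ?_ (by linarith)
    push_cast
    linarith
  rcases le_or_gt (M : ℝ) |t| with hMt | hMt
  · set κ : ℝ := Real.log |t| / Real.log M with hκ
    have hκ1 : 1 ≤ κ := by
      rw [hκ, le_div_iff₀ hm0, one_mul]
      exact Real.log_le_log hMR hMt
    have hκ2 : κ ≤ 2 * u := by
      rw [hκ, div_le_iff₀ hm0]
      have h3 : 2 * u * (L / u) ≤ 2 * u * Real.log M :=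
        mul_le_mul_of_nonneg_left hM1 (by linarith)
      have h4 : 2 * u * (L / u) = 2 * L := by
        field_simp
      linarith
    have htκ : |t| = (M : ℝ) ^ κ := by
      rw [Real.rpow_def_of_pos hMR, hκ, mul_div_cancel₀ _ hm0.ne', Real.exp_log htpos]
    have h3 := Pool.Agent.Y306.VK.abel' (a := fun n : ℕ => (n : ℝ) ^ (-σ))
      (z := fun n : ℕ => χ (n : ZMod q) * nt t n) (B := q * (Real.exp (C * (1 + κ) ^ C) *
        (M : ℝ) ^ (1 - c / (1 + κ) ^ 2 : ℝ))) hMM hmono (by positivity) (by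
        intro k hk hk'
        exact h1 M k t κ hM2' hk (by omega) hκ1 htκ)
    refine h3.trans ?_
    have h4 : (M : ℝ) ^ (-σ) * (q * (Real.exp (C * (1 + κ) ^ C) *
        (M : ℝ) ^ (1 - c / (1 + κ) ^ 2 : ℝ))) =
        q * Real.exp (C * (1 + κ) ^ C + Real.log M * (1 - σ - c / (1 + κ) ^ 2)) := by
      have h5 : (M : ℝ) ^ (-σ) * (q * (Real.exp (C * (1 + κ) ^ C) *
        (M : ℝ) ^ (1 - c / (1 + κ) ^ 2 : ℝ))) = q * ((M : ℝ) ^ (-σ) * (Real.exp (C * (1 + κ) ^ C) *
        (M : ℝ) ^ (1 - c / (1 + κ) ^ 2 : ℝ))) := by ring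
      rw [h5, Real.rpow_def_of_pos hMR, Real.rpow_def_of_pos hMR, ← Real.exp_add, ← Real.exp_add]
      congr 2
      ring
    rw [h4]
    have h5 : q * Real.exp (C * (1 + κ) ^ C + Real.log M * (1 - σ - c / (1 + κ) ^ 2)) ≤
        Real.exp b * Real.exp (C * (1 + κ) ^ C + Real.log M * (1 - σ - c / (1 + κ) ^ 2)) :=
      mul_le_mul_of_nonneg_right hqb (Real.exp_pos _).le
    refine h5.trans ?_
    rw [← Real.exp_add]
    refine le_trans (Real.exp_le_exp.2 ?_) (le_of_eq Real.exp_zero)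
    have h6 := h.piece hM1 (by linarith : 0 ≤ κ) hκ2
    have h7 : Real.log M * (1 - σ - c / (1 + κ) ^ 2) ≤ Real.log M * (w - c / (1 + κ) ^ 2) :=
      mul_le_mul_of_nonneg_left (by linarith) hm0.le
    linarith
  · have hs0 : 0 < √|t| := Real.sqrt_pos.2 htpos
    have hC2 := h.C2
    have h3 := Pool.Agent.Y306.VK.abel' (a := fun n : ℕ => (n : ℝ) ^ (-σ))
      (z := fun n : ℕ => χ (n : ZMod q) * nt t n)
      (B := q * (C₂ * (√|t| + M / √|t|) * (1 + Real.log M))) hMM hmono (by positivity) (by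
        intro k hk hk'
        exact h2 M k t (by omega) hk (by omega) ht0.le)
    refine h3.trans ?_
    have h4 : √|t| ≤ M / √|t| := by
      rw [le_div_iff₀ hs0, Real.mul_self_sqrt htpos.le]
      exact hMt.le
    have h5 : C₂ * (√|t| + M / √|t|) * (1 + Real.log M) ≤
        (2 * C₂) * (M / √|t|) * (1 + 4 * L) := by
      have h6 : C₂ * (√|t| + M / √|t|) ≤ (2 * C₂) * (M / √|t|) := by nlinarith
      refine mul_le_mul h6 (by linarith) (by linarith) (by positivity)
    have h6 : (M : ℝ) ^ (-σ) * (q * (C₂ * (√|t| + M / √|t|) * (1 + Real.log M))) ≤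
        (M : ℝ) ^ (-σ) * (Real.exp b * ((2 * C₂) * (M / √|t|) * (1 + 4 * L))) := by
      refine mul_le_mul_of_nonneg_left ?_ (by positivity)
      refine mul_le_mul hqb h5 ?_ (Real.exp_pos _).le
      positivity
    refine h6.trans ?_
    have h7 : √|t| = Real.exp (Real.log |t| / 2) := by
      rw [Real.sqrt_eq_rpow, Real.rpow_def_of_pos htpos]
      congr 1
      ring
    have h8 : (M : ℝ) ^ (-σ) * (Real.exp b * ((2 * C₂) * (M / √|t|) * (1 + 4 * L))) =
        Real.exp (b + Real.log (2 * C₂) + Real.log (1 + 4 * L) + Real.log M * (1 - σ) -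
          Real.log |t| / 2) := by
      have e2 : b + Real.log (2 * C₂) + Real.log (1 + 4 * L) + Real.log M * (1 - σ) -
          Real.log |t| / 2 = Real.log M * (-σ) + b + Real.log (2 * C₂) + Real.log M +
            Real.log (1 + 4 * L) + - (Real.log |t| / 2) := by ring
      rw [e2, Real.exp_add, Real.exp_add, Real.exp_add, Real.exp_add, Real.exp_add, Real.exp_neg,
        ← h7, Real.exp_log (by linarith : (0:ℝ) < 2 * C₂), Real.exp_log hMR,
        Real.exp_log (by linarith : (0:ℝ) < 1 + 4 * L), Real.rpow_def_of_pos hMR]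
      ring
    rw [h8]
    refine le_trans (Real.exp_le_exp.2 ?_) (le_of_eq Real.exp_zero)
    have h9 := h.p2
    have h10 : Real.log M * (1 - σ) ≤ 4 * L * w := by
      have h11 : Real.log M * (1 - σ) ≤ Real.log M * w :=
        mul_le_mul_of_nonneg_left (by linarith) hm0.le
      have h12 : Real.log M * w ≤ 4 * L * w := mul_le_mul_of_nonneg_right hM2 h.w0.le
      linarith
    have h11 : L / (6 * u) ≤ Real.log |t| / 2 := by
      have e3 : L / (6 * u) = L / (3 * u) / 2 := by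
        field_simp
        norm_num
      rw [e3]
      linarith
    linarith

/-- all the pieces -/
theorem pieces_le {q : ℕ} [NeZero q] {χ : DirichletCharacter ℂ q} {C : ℕ} {C₂ c : ℝ}
    (h1 : H1 χ C c) (h2 : H2 χ C₂)
    {L u w b t σ : ℝ} (h : Num C C₂ c L u w b) (hq : Real.log q ≤ b) (hσ : 1 - w ≤ σ)
    (ht1 : L / (3 * u) ≤ Real.log |t|) (ht2 : Real.log |t| ≤ 2 * L)
    {Y N : ℕ} (hY0 : 1 ≤ Y) (hY : L / u ≤ Real.log Y) (hN : Real.log N ≤ 4 * L) (hYN : Y ≤ N)
    (i : ℕ) :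
    ‖∑ n ∈ Ioc Y (min (2 ^ i * Y) N), χ (n : ZMod q) * (n : ℂ) ^ (-(⟨σ, t⟩ : ℂ))‖ ≤ i := by
  induction i with
  | zero => simp [min_eq_left hYN]
  | succ i ih =>
    have hYi : Y ≤ 2 ^ i * Y := Nat.le_mul_of_pos_left _ (by positivity)
    have hP1 : Y ≤ min (2 ^ i * Y) N := le_min hYi hYN
    have hP2 : min (2 ^ i * Y) N ≤ min (2 ^ (i + 1) * Y) N := by
      refine min_le_min_right _ ?_
      rw [pow_succ]
      nlinarith [hYi]
    have hP3 : min (2 ^ (i + 1) * Y) N ≤ 2 * min (2 ^ i * Y) N := by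
      rw [pow_succ]
      rcases le_total (2 ^ i * Y) N with h1 | h1
      · rw [min_eq_left h1]
        refine (min_le_left _ _).trans (le_of_eq ?_)
        ring
      · rw [min_eq_right h1]
        exact (min_le_right _ _).trans (by omega)
    rw [← Finset.sum_Ioc_consecutive _ hP1 hP2]
    have hY0R : (0 : ℝ) < Y := by exact_mod_cast (by omega : 0 < Y)
    have hPpos : (0 : ℝ) < ((min (2 ^ i * Y) N : ℕ) : ℝ) := by
      exact_mod_cast (lt_of_lt_of_le (by omega : 0 < Y) hP1)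
    have h3 := piece_le h1 h2 h hq hσ ht1 ht2 (M := min (2 ^ i * Y) N)
      (M' := min (2 ^ (i + 1) * Y) N)
      (hY.trans (Real.log_le_log hY0R (by exact_mod_cast hP1)))
      ((Real.log_le_log hPpos (by exact_mod_cast min_le_right _ _)).trans hN) hP2 hP3
    push_cast
    exact (norm_add_le _ _).trans (add_le_add ih h3)

/-- the bound under the numerical conditions -/
theorem main_le {q : ℕ} [NeZero q] {χ : DirichletCharacter ℂ q} (hχ : χ ≠ 1) {C : ℕ} {C₂ c : ℝ}
    (h1 : H1 χ C c) (h2 : H2 χ C₂)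
    {L u w b : ℝ} (h : Num C C₂ c L u w b) (hq : Real.log q ≤ b) {s : ℂ} (hσ : 1 - w ≤ s.re)
    (hσ3 : s.re ≤ 3) (ht : Real.log (|s.im| + 2) ≤ L + 2) :
    ‖DirichletCharacter.LFunction χ s‖ ≤ 21 * L := by
  have hL := h.L4
  have hu := h.u1
  have hL0 : 0 < L := by linarith
  have hu0 : 0 < u := by linarith
  have hw := h.w0
  have hw2 := h.w2
  have hσ2 : 1 / 2 ≤ s.re := by linarith
  have hqR : (1 : ℝ) ≤ q := by exact_mod_cast NeZero.one_le
  have hq0 : (0 : ℝ) < q := by linarith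
  have hta : 0 ≤ |s.im| := abs_nonneg _
  set W : ℝ := q * (|s.im| + 2) with hW
  have hW1 : 1 ≤ W := by rw [hW]; nlinarith
  have hW0 : 0 < W := by linarith
  set X : ℕ := ⌈W ^ 2⌉₊ with hXdef
  set Y : ℕ := ⌈Real.exp (L / u)⌉₊ with hYdef
  have hX1 : W ^ 2 ≤ X := Nat.le_ceil _
  have hX2 : (X : ℝ) ≤ 2 * W ^ 2 := by
    have h3 : (X : ℝ) < W ^ 2 + 1 := Nat.ceil_lt_add_one (by positivity)
    nlinarith
  have hX0 : (0 : ℝ) < X := lt_of_lt_of_le (by positivity) hX1
  have hX1' : 1 ≤ X := by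
    have : 0 < X := by exact_mod_cast hX0
    exact this
  have hlogW : Real.log W ≤ b + (L + 2) := by
    rw [hW, Real.log_mul hq0.ne' (by positivity)]
    linarith
  have hlogX : Real.log X ≤ 4 * L := by
    have h3 : Real.log X ≤ Real.log (2 * W ^ 2) := Real.log_le_log hX0 hX2
    rw [Real.log_mul (by norm_num) (by positivity), Real.log_pow] at h3
    have h4 := Real.log_two_lt_d9
    have h5 := h.b3
    push_cast at h3
    linarith
  have hLu : L / u ≤ L := div_le_self hL0.le hu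
  have hLu0 : 0 < L / u := by positivity
  have hY1 : Real.exp (L / u) ≤ Y := Nat.le_ceil _
  have hY2 : (Y : ℝ) ≤ Real.exp (L / u + 1) := by
    have h1 : (Y : ℝ) < Real.exp (L / u) + 1 := Nat.ceil_lt_add_one (Real.exp_pos _).le
    have h2 : (1 : ℝ) ≤ Real.exp (L / u) := Real.one_le_exp hLu0.le
    have h3 := Real.exp_one_gt_d9
    rw [Real.exp_add]
    nlinarith
  have hY0 : (0 : ℝ) < Y := lt_of_lt_of_le (Real.exp_pos _) hY1
  have hY1' : 1 ≤ Y := by
    have : 0 < Y := by exact_mod_cast hY0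
    exact this
  have hlogY : L / u ≤ Real.log Y := by
    rw [← Real.log_exp (L / u)]
    exact Real.log_le_log (Real.exp_pos _) hY1
  have hlogY2 : Real.log Y ≤ L / u + 1 := by
    rw [← Real.log_exp (L / u + 1)]
    exact Real.log_le_log hY0 hY2
  -- the powers
  have hpow : ∀ n : ℕ, 1 ≤ n → (n : ℝ) ^ (1 - s.re) ≤ Real.exp (w * Real.log n) := by
    intro n hn
    have hn0 : (0 : ℝ) < n := by exact_mod_cast (by omega : 0 < n)
    have hn1 : (1 : ℝ) ≤ n := by exact_mod_cast hn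
    rw [Real.rpow_def_of_pos hn0]
    refine Real.exp_le_exp.2 ?_
    rw [mul_comm w]
    exact mul_le_mul_of_nonneg_left (by linarith) (Real.log_nonneg hn1)
  -- the first part of the sum
  have hfirst : ‖∑ n ∈ Ioc 0 (min X Y), χ (n : ZMod q) * (n : ℂ) ^ (-s)‖ ≤ 8 * (2 + L) := by
    have h1 : ∀ n ∈ Ioc 0 (min X Y), ‖χ (n : ZMod q) * (n : ℂ) ^ (-s)‖ ≤ 8 * (1 / (n : ℝ)) := by
      intro n hn
      rw [Finset.mem_Ioc] at hn
      have hn0 : (0 : ℝ) < n := by exact_mod_cast hn.1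
      have hnY : n ≤ Y := hn.2.trans (min_le_right _ _)
      have h2 : ‖χ (n : ZMod q) * (n : ℂ) ^ (-s)‖ ≤ ‖(n : ℂ) ^ (-s)‖ := by
        rw [norm_mul]
        exact mul_le_of_le_one_left (norm_nonneg _) (DirichletCharacter.norm_le_one χ _)
      refine h2.trans ?_
      rw [Complex.norm_natCast_cpow_of_pos hn.1]
      have e1 : (-s).re = (1 - s.re) + (-1) := by
        rw [Complex.neg_re]
        ring
      rw [e1, Real.rpow_add hn0, Real.rpow_neg_one, ← one_div]
      refine mul_le_mul_of_nonneg_right ?_ (by positivity)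
      refine (hpow n hn.1).trans ?_
      have h2 : w * Real.log n ≤ 2 := by
        have h3 : Real.log n ≤ L / u + 1 :=
          (Real.log_le_log hn0 (by exact_mod_cast hnY)).trans hlogY2
        have h4 : w * Real.log n ≤ w * (L / u + 1) := mul_le_mul_of_nonneg_left h3 hw.le
        have h5 : w * (L / u + 1) = 1 + w := by
          rw [mul_add, mul_one, mul_div_assoc', h.wL, div_self hu0.ne']
        linarith
      have h3 : Real.exp (w * Real.log n) ≤ Real.exp 2 := Real.exp_le_exp.2 h2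
      have h4 : Real.exp 2 ≤ 8 := by
        have h5 := Real.exp_one_lt_d9
        have h6 : Real.exp 2 = Real.exp 1 * Real.exp 1 := by
          rw [← Real.exp_add]; norm_num
        rw [h6]
        have h7 := Real.exp_pos 1
        nlinarith
      linarith
    refine (norm_sum_le_of_le _ h1).trans ?_
    rw [← Finset.mul_sum]
    refine mul_le_mul_of_nonneg_left ?_ (by norm_num)
    have h2 : ∑ n ∈ Ioc 0 (min X Y), 1 / (n : ℝ) ≤ ∑ n ∈ Ioc 0 Y, 1 / (n : ℝ) := by
      refine Finset.sum_le_sum_of_subset_of_nonneg ?_ fun n _ _ => by positivity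
      exact Finset.Ioc_subset_Ioc_right (min_le_right _ _)
    have h2' : ∑ n ∈ Ioc 0 Y, 1 / (n : ℝ) = (harmonic Y : ℝ) := by
      rw [harmonic_eq_sum_Icc]
      push_cast
      refine Finset.sum_congr ?_ fun n _ => one_div _
      ext n
      simp [Finset.mem_Ioc, Finset.mem_Icc, Nat.one_le_iff_ne_zero, Nat.pos_iff_ne_zero]
    rw [h2'] at h2
    have h3 := harmonic_le_one_add_log Y
    linarith
  -- the pieces
  have hsecond : ‖∑ n ∈ Ioc (min X Y) X, χ (n : ZMod q) * (n : ℂ) ^ (-s)‖ ≤ 6 * L + 1 := by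
    rcases le_or_gt X Y with hXY | hXY
    · rw [min_eq_left hXY, Finset.Ioc_self, Finset.sum_empty, norm_zero]
      linarith
    · rw [min_eq_right hXY.le]
      have ht2 : Real.log |s.im| ≤ 2 * L := by
        rcases eq_or_lt_of_le hta with h0 | h0
        · rw [← h0, Real.log_zero]
          linarith
        · have h3 : Real.log |s.im| ≤ Real.log (|s.im| + 2) := Real.log_le_log h0 (by linarith)
          linarith
      have ht1 : L / (3 * u) ≤ Real.log |s.im| := by
        -- `W ^ 2 > Y - ...`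
        have h3 : (Y : ℝ) + 1 ≤ X := by exact_mod_cast hXY
        have h4 : (X : ℝ) < W ^ 2 + 1 := Nat.ceil_lt_add_one (by positivity)
        have h5 : Real.exp (L / u) ≤ W ^ 2 := by linarith
        have h6 : L / u ≤ 2 * Real.log W := by
          have h7 := Real.log_le_log (Real.exp_pos _) h5
          rw [Real.log_exp, Real.log_pow] at h7
          push_cast at h7
          exact h7
        have h7 : Real.log W ≤ b + Real.log (|s.im| + 2) := by
          rw [hW, Real.log_mul hq0.ne' (by positivity)]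
          linarith
        have h8 : L / (3 * u) + 2 ≤ Real.log (|s.im| + 2) := by
          have h9 := h.b2
          have e3 : L / (6 * u) = L / u / 6 := by
            field_simp
          have e4 : L / (3 * u) = L / u / 3 := by
            field_simp
          rw [e3] at h9
          rw [e4]
          linarith
        have h9 : Real.exp (L / (3 * u) + 2) ≤ |s.im| + 2 := by
          rw [← Real.exp_log (by positivity : 0 < |s.im| + 2)]
          exact Real.exp_le_exp.2 h8
        have h10 : Real.exp (L / (3 * u)) ≤ |s.im| := by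
          rw [Real.exp_add] at h9
          have h11 : 1 ≤ Real.exp (L / (3 * u)) := Real.one_le_exp (by positivity)
          have h12 : (3 : ℝ) ≤ Real.exp 2 := by
            have := Real.add_one_le_exp (2 : ℝ)
            linarith
          nlinarith
        rw [← Real.log_exp (L / (3 * u))]
        exact Real.log_le_log (Real.exp_pos _) h10
      have hs : s = ⟨s.re, s.im⟩ := rfl
      have h3 := pieces_le h1 h2 h hq hσ ht1 ht2 hY1' hlogY hlogX hXY.le (Nat.log 2 X + 1)
      have h4 : X ≤ 2 ^ (Nat.log 2 X + 1) * Y := by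
        have h5 : X < 2 ^ (Nat.log 2 X + 1) := Nat.lt_pow_succ_log_self (by norm_num) X
        exact h5.le.trans (Nat.le_mul_of_pos_right _ (by omega))
      rw [min_eq_right h4] at h3
      refine h3.trans ?_
      push_cast
      have h5 : (2 : ℝ) ^ (Nat.log 2 X) ≤ X := by
        exact_mod_cast Nat.pow_log_le_self 2 (by omega)
      have h6 := Real.log_le_log (by positivity) h5
      rw [Real.log_pow] at h6
      have h7 := Real.log_two_gt_d9
      have h8 : (0 : ℝ) ≤ (Nat.log 2 X : ℝ) := Nat.cast_nonneg _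
      nlinarith
  have hsum : ‖∑ n ∈ Ioc 0 X, χ (n : ZMod q) * (n : ℂ) ^ (-s)‖ ≤ 8 * (2 + L) + (6 * L + 1) := by
    rw [← Finset.sum_Ioc_consecutive _ (Nat.zero_le _) (min_le_left X Y)]
    exact (norm_add_le _ _).trans (add_le_add hfirst hsecond)
  -- the tail
  have htail := tail hχ (by linarith : 0 < s.re) hX1'
  have herr : (q + 1) * (X : ℝ) ^ (-s.re) * (1 + ‖s‖ / s.re) ≤ 8 := by
    have h3 : (X : ℝ) ^ (-s.re) ≤ 1 / W := by
      have h4 : (X : ℝ) ^ (-s.re) ≤ (X : ℝ) ^ (-(1 / 2 : ℝ)) :=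
        Real.rpow_le_rpow_of_exponent_le (by exact_mod_cast hX1') (by linarith)
      have h5 : (X : ℝ) ^ (-(1 / 2 : ℝ)) ≤ (W ^ 2) ^ (-(1 / 2 : ℝ)) :=
        Real.rpow_le_rpow_of_nonpos (by positivity) hX1 (by norm_num)
      have h6 : (W ^ 2) ^ (-(1 / 2 : ℝ)) = 1 / W := by
        rw [Real.rpow_neg (by positivity), ← Real.sqrt_eq_rpow, Real.sqrt_sq hW0.le, one_div]
      linarith
    have h4 : ‖s‖ ≤ 3 + |s.im| := by
      have h5 := Complex.norm_le_abs_re_add_abs_im s
      have h6 : |s.re| ≤ 3 := by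
        rw [abs_le]
        constructor <;> linarith
      linarith
    have h5 : 1 + ‖s‖ / s.re ≤ 4 * (|s.im| + 2) := by
      have h6 : ‖s‖ / s.re ≤ 2 * ‖s‖ := by
        rw [div_le_iff₀ (by linarith)]
        nlinarith [norm_nonneg s]
      linarith
    have h6 : (q + 1 : ℝ) * (X : ℝ) ^ (-s.re) ≤ (2 * q) * (1 / W) := by
      refine mul_le_mul (by linarith) h3 (by positivity) (by positivity)
    calc (q + 1) * (X : ℝ) ^ (-s.re) * (1 + ‖s‖ / s.re)
        ≤ (2 * q) * (1 / W) * (4 * (|s.im| + 2)) := by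
          refine mul_le_mul h6 h5 ?_ (by positivity)
          have : 0 < s.re := by linarith
          positivity
      _ = 8 := by
          rw [hW]
          field_simp
          norm_num
  have h3 : ‖DirichletCharacter.LFunction χ s‖ ≤ 8 + (8 * (2 + L) + (6 * L + 1)) := by
    have h4 := norm_add_le (DirichletCharacter.LFunction χ s -
      ∑ n ∈ Ioc 0 X, χ (n : ZMod q) * (n : ℂ) ^ (-s))
      (∑ n ∈ Ioc 0 X, χ (n : ZMod q) * (n : ℂ) ^ (-s))
    rw [sub_add_cancel] at h4
    linarith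
  linarith

end Pool.Agent.H13V.LUP
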